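import Pool.Agent.Lib.MP_3a4f2f_gt.Top

/-! The backward sweep: even parities give the oriented ruling with all positive switches. -/

namespace Pool.Agent.Lib.MP_3a4f2f_gt

open LaurentPolynomial

lemma NP_mem (w : Word) (hw : AltFront w) (n : ℕ) (Z : List Rec)
    (hv : Val true (dirs (flat Z)) w []) :
    ∀ p ∈ NP n Z w, (p.1 ∈ eyes Z ∨ n ≤ p.1) ∧ (p.2 ∈ eyes Z ∨ n ≤ p.2) := by
  induction w generalizing n Z with
  | nil => simp [NP, negPairs]
  | cons g w ih =>
    have hl := val_len hv
    replace hv := hv.2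
    rw [length_dirs] at hl
    obtain ⟨hw', hg⟩ := alt_cons hw
    generalize g.2 = i at hg hl
    rcases hg with ⟨d, rfl, he⟩ | ⟨rfl, he⟩ | ⟨rfl, he⟩
    · obtain ⟨Z1, Z2, rfl, rfl⟩ := splitZ0 Z i he (by simpa [U, Letter.inp] using hl)
      rw [NP_U]; rw [nx_U _ _ n] at hv
      intro p hp
      have := ih hw' _ _ hv p hp
      simp only [eyes_append, eyes_cons, List.mem_append, List.mem_cons] at this ⊢
      have k : ∀ t : ℕ, (t ∈ eyes Z1 ∨ t = n ∨ t ∈ eyes Z2) ∨ n + 1 ≤ t →
          (t ∈ eyes Z1 ∨ t ∈ eyes Z2) ∨ n ≤ t := by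
        rintro t ((h | h | h) | h)
        exacts [Or.inl (Or.inl h), Or.inr h.ge, Or.inl (Or.inr h), Or.inr (by omega)]
      exact ⟨k _ this.1, k _ this.2⟩
    · obtain ⟨Z1, r, Z2, rfl, rfl⟩ := splitZ1 Z i he (by simpa [A, Letter.inp] using hl)
      rw [NP_A]; rw [nx_A] at hv
      intro p hp
      have := ih hw' _ _ hv p hp
      simp only [eyes_append, eyes_cons, List.mem_append, List.mem_cons] at this ⊢
      tauto
    · obtain ⟨Z1, c, p, x, d, y, q, Z2, rfl, rfl⟩ := splitZ2 Z i he (by
        simpa [X, Letter.inp] using hl)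
      rw [NP_X]; rw [nx_X] at hv
      intro t ht
      rcases List.mem_append.1 ht with ht | ht
      · split_ifs at ht
        · simp at ht
        · obtain rfl := List.mem_singleton.1 ht
          simp
      · simpa using ih hw' _ _ hv t ht

lemma sum_ee {n c : ℕ} (h : c < n) : ∑ b ∈ Finset.range n, ee c b = 1 := by
  simp [ee, h]

lemma SS_sum {n : ℕ} (a : ℕ) {H : List (ℕ × ℕ)} (h : ∀ p ∈ H, p.1 < n ∧ p.2 < n) :
    ∑ b ∈ Finset.range n, SS a H b = 0 := by
  induction H with
  | nil => simp
  | cons p H ih =>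
    obtain ⟨c, d⟩ := p
    have h1 := h (c, d) (by simp)
    rw [SS_cons]
    simp only [Pi.add_apply, Finset.sum_add_distrib]
    rw [ih (fun p hp => h p (by simp [hp])), add_zero, SS_one]
    split_ifs
    · simp only [Pi.add_apply, Finset.sum_add_distrib, sum_ee h1.1, sum_ee h1.2]; rfl
    · simp

lemma SS_eq_zero {n a : ℕ} (ha : a < n) {H : List (ℕ × ℕ)} (h : ∀ p ∈ H, p.1 < n ∧ p.2 < n)
    (he : ∀ b, Even (cnt H a b)) : SS a H = 0 := by
  have h1 : ∀ b, b ≠ a → SS a H b = 0 := fun b hb => by
    rw [SS_coord hb, ZMod.natCast_eq_zero_iff_even]; exact he b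
  funext b
  by_cases hb : b = a
  · subst hb
    rw [← Finset.sum_eq_single_of_mem b (Finset.mem_range.2 ha) (fun c _ hc => h1 c hc)]
    exact SS_sum b h
  · exact h1 b hb

lemma ee_ne {a b : ℕ} (h : a ≠ b) : ee a + ee b ≠ 0 := fun e => by
  have := congrFun e a
  simp [ee, h] at this

def flt (x y : ℕ) (L : List ℕ) : List ℕ := L.filter (fun c => c = x ∨ c = y)

lemma flt_append (x y : ℕ) (L M : List ℕ) : flt x y (L ++ M) = flt x y L ++ flt x y M := by
  simp [flt]
lemma flt_cons (x y c : ℕ) (L : List ℕ) :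
    flt x y (c :: L) = if c = x ∨ c = y then c :: flt x y L else flt x y L := by
  simp only [flt, List.filter_cons]; simp
lemma mem_flt {x y c : ℕ} {L : List ℕ} : c ∈ flt x y L ↔ c ∈ L ∧ (c = x ∨ c = y) := by simp [flt]
lemma flt_comm (x y : ℕ) (L : List ℕ) : flt x y L = flt y x L := by simp [flt, or_comm]
lemma count_flt {x y c : ℕ} (h : c = x ∨ c = y) (L : List ℕ) :
    (flt x y L).count c = L.count c := List.count_filter (by simpa using h)
lemma before_flt (x y : ℕ) (L : List ℕ) : before (flt x y L) x y = before L x y := by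
  induction L with
  | nil => rfl
  | cons c L ih =>
    rw [flt_cons]
    by_cases h1 : c = x <;> by_cases h2 : c = y <;> simp [before, h1, h2, ih]

lemma no_adj {x y c : ℕ} (hxy : x ≠ y) (P B : List ℕ) : P ++ c :: c :: B ≠ [x, y, x, y] := by
  rcases P with _ | ⟨a, _ | ⟨b, _ | ⟨d, _ | ⟨e, P⟩⟩⟩⟩ <;> simp <;> omega

lemma two_lists {x y : ℕ} (hxy : x ≠ y) (P B : List ℕ) (hm : ∀ c ∈ P ++ B, c = x ∨ c = y)
    (hx : (P ++ B).count x = 1) (hy : (P ++ B).count y = 1)
    (h1 : P ++ x :: y :: B ≠ [x, y, x, y]) (h2 : P ++ x :: y :: B ≠ [y, x, y, x]) :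
    before (B ++ P) y x = true := by
  have hl : (P ++ B).length = 2 := by
    have : ∀ L : List ℕ, (∀ c ∈ L, c = x ∨ c = y) → L.length = L.count x + L.count y := by
      intro L hL
      induction L with
      | nil => rfl
      | cons c L ih =>
        have := ih (fun c hc => hL c (by simp [hc]))
        rcases hL c (by simp) with rfl | rfl <;> simp [hxy, hxy.symm] <;> omega
    rw [this _ hm, hx, hy]
  rcases P with _ | ⟨a, _ | ⟨b, _ | ⟨d, P⟩⟩⟩ <;> rcases B with _ | ⟨a', _ | ⟨b', _ | ⟨d', B⟩⟩⟩ <;>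
    simp only [List.nil_append, List.cons_append, List.length_cons, List.length_nil,
      List.length_append, List.append_nil] at hl <;> (try omega)
  all_goals
    simp only [List.nil_append, List.cons_append, List.mem_cons, List.not_mem_nil, or_false,
      forall_eq_or_imp, forall_eq, List.append_nil] at hm
    obtain ⟨rfl | rfl, rfl | rfl⟩ := hm <;> simp_all [before, hxy.symm]

structure BInv (n : ℕ) (Z : List Rec) (lam : ℕ → Vec) (f : ℕ → ℤ) (Hn : List (ℕ × ℕ)) :
    Prop where
  s : SInv n Z lam f Hn []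
  tri : ∀ x < n, lam x x = 1 ∧ ∀ y, x < y → lam x y = 0
  fm : ∀ r ∈ Z, f r.2.1.1 = f r.1 ∧ f r.2.2.1 = f r.1
  nc : ∀ x y, f x ≠ f y → flt x y (lab (flat Z)) ≠ [x, y, x, y]

variable {n : ℕ} {lam : ℕ → Vec} {f : ℕ → ℤ} {Hn : List (ℕ × ℕ)}

lemma BInv.cup {Z W : List Rec} (h : BInv n (Z ++ W) lam f Hn) (d : Bool) :
    BInv (n + 1) (Z ++ (n, (n, d), (n, !d)) :: W)
      (Function.update lam n (ee n + accL lam Z)) (Function.update f n (accF Z + sg d)) Hn := by
  have hf : ∀ x < n, Function.update f n (accF Z + sg d) x = f x :=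
    fun x hx => Function.update_of_ne hx.ne _ _
  have hacc : ∀ y, n ≤ y → accL lam Z y = 0 := by
    intro y hy
    have : ∀ L : List ℕ, (∀ x ∈ L, x < n) → (L.map lam).sum y = 0 := by
      intro L hL
      induction L with
      | nil => rfl
      | cons c L ih =>
        simp only [List.map_cons, List.sum_cons, Pi.add_apply]
        rw [ih (fun x hx => hL x (by simp [hx])),
          (h.tri c (hL c (by simp))).2 y (by have := hL c (by simp); omega), add_zero]
    exact this _ fun x hx => h.s.inv.lt x (by simp [hx])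
  refine ⟨h.s.cup d, fun x hx => ?_, fun r hr => ?_, fun x y hxy => ?_⟩
  · by_cases hxn : x = n
    · subst hxn
      simp only [Function.update_self, Pi.add_apply]
      refine ⟨by rw [hacc x le_rfl]; simp [ee], fun y hy => ?_⟩
      rw [hacc y hy.le]; simp [ee, hy.ne']
    · rw [Function.update_of_ne hxn]; exact h.tri x (by omega)
  · simp only [List.mem_append, List.mem_cons] at hr
    have old : r ∈ Z ++ W → _ := fun hr => by
      have := h.fm r hr
      rw [← hf _ (h.s.inv.lt _ (mem_flat hr).1), ← hf _ (h.s.inv.lt _ (mem_flat hr).2),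
        ← hf _ (h.s.elt _ (mem_eyes hr))] at this
      exact this
    rcases hr with hr | rfl | hr
    exacts [old (by simp [hr]), ⟨rfl, rfl⟩, old (by simp [hr])]
  · have hne : x ≠ y := fun e => hxy (by rw [e])
    simp only [flat_append, flat_cons, lab_append, lab_cons, flt_append, flt_cons]
    split_ifs with hc
    · exact no_adj hne _ _
    · rw [not_or] at hc
      rw [Function.update_of_ne (Ne.symm hc.1), Function.update_of_ne (Ne.symm hc.2)] at hxy
      simpa [flt_append] using h.nc x y hxy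

lemma BInv.inj {Z : List Rec} (h : BInv n Z lam f Hn) {x y : ℕ} (hx : x < n) (hy : y < n)
    (e : lam x + lam y = 0) : x = y := by
  rcases lt_trichotomy x y with hxy | hxy | hxy
  · have := congrFun e y
    simp [(h.tri x hx).2 y hxy, (h.tri y hy).1] at this
  · exact hxy
  · have := congrFun e x
    simp [(h.tri y hy).2 x hxy, (h.tri x hx).1] at this

lemma BInv.cap {Z W : List Rec} {r : Rec} (h : BInv n (Z ++ r :: W) lam f Hn)
    (hr : r.2.1.1 = r.2.2.1) : BInv n (Z ++ W) lam f Hn := by
  refine ⟨h.s.cap hr, h.tri, fun t ht => h.fm t (by simp at ht ⊢; tauto), fun x y hxy => ?_⟩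
  have h1 := h.nc x y hxy
  obtain ⟨a, ⟨c, e⟩, ⟨c', e'⟩⟩ := r
  simp only at hr; subst hr
  have hi := h.s.inv
  simp only [flat_append, flat_cons] at hi
  have hc := (hi.perm (perm_mid2 _ _ _ _)).notMem
  by_cases h2 : c = x ∨ c = y
  · intro h3
    apply hc
    rw [← flat_append]
    refine (mem_flt (x := x) (y := y)).1 ?_ |>.1
    rw [h3]; rcases h2 with rfl | rfl <;> simp
  · simpa [flt_append, flt_cons, h2] using h1

lemma BInv.swapN {Z W : List Rec} {a b : ℕ} {p x y q : ℕ × Bool}
    (h : BInv n (Z ++ (a, p, x) :: (b, y, q) :: W) lam f Hn) (hd : x.2 ≠ y.2) :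
    BInv n (Z ++ (a, p, y) :: (b, x, q) :: W) lam f (Hn ++ [(a, b)]) := by
  have hs := h.s.swapN hd
  have hab : f a = f b := (hs.hn (a, b) (by simp)).1
  have ha := h.fm (a, p, x) (by simp)
  have hb := h.fm (b, y, q) (by simp)
  simp only at ha hb
  refine ⟨hs, h.tri, fun r hr => ?_, fun u v huv => ?_⟩
  · simp only [List.mem_append, List.mem_cons] at hr
    rcases hr with hr | rfl | rfl | hr
    · exact h.fm r (by simp [hr])
    · exact ⟨ha.1, by simp only; omega⟩
    · exact ⟨by simp only; omega, hb.2⟩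
    · exact h.fm r (by simp [hr])
  · have h1 := h.nc u v huv
    have hxy : f x.1 = f y.1 := by omega
    have key : ∀ L, flt u v (y.1 :: x.1 :: L) = flt u v (x.1 :: y.1 :: L) := by
      intro L
      simp only [flt_cons]
      split_ifs with c1 c2 c2
      · rcases c1 with c1 | c1 <;> rcases c2 with c2 | c2
        · rw [c1, c2]
        · rw [c1, c2] at hxy; exact absurd hxy.symm huv
        · rw [c1, c2] at hxy; exact absurd hxy huv
        · rw [c1, c2]
      all_goals rfl
    simp only [flat_append, flat_cons, lab_append, lab_cons, flt_append] at h1 ⊢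
    rw [flt_cons _ _ p.1] at h1 ⊢
    rwa [key]

lemma BInv.lne {Z W : List Rec} {a b : ℕ} {p x y q : ℕ × Bool}
    (h : BInv n (Z ++ (a, p, x) :: (b, y, q) :: W) lam f Hn) : x.1 ≠ y.1 := fun e => by
  obtain ⟨f1, -, f3, -⟩ := h.s.facts
  rw [e, vec_add_self] at f1
  exact ee_ne f3 f1.symm

lemma BInv.bef {Z W : List Rec} {a b : ℕ} {p x y q : ℕ × Bool}
    (h : BInv n (Z ++ (a, p, x) :: (b, y, q) :: W) lam f Hn) (hd : x.2 = y.2) :
    before (lab (q :: flat W) ++ lab (flat Z ++ [p])) y.1 x.1 = true := by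
  have hab := h.s.fne hd
  have ha := h.fm (a, p, x) (by simp)
  have hb := h.fm (b, y, q) (by simp)
  simp only at ha hb
  have hxy : f x.1 ≠ f y.1 := by omega
  have hne := h.lne
  have hi : Inv true n ((flat Z ++ [p]) ++ x :: y :: q :: flat W) := by simpa using h.s.inv
  have e : lab (flat (Z ++ (a, p, x) :: (b, y, q) :: W)) =
      lab (flat Z ++ [p]) ++ x.1 :: y.1 :: lab (q :: flat W) := by simp
  have h1 := h.nc _ _ hxy
  have h2 := h.nc _ _ hxy.symm
  have c1 := hi.cnt1 (x := x.1) (by simp)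
  have c2 := hi.cnt1 (x := y.1) (by simp)
  rw [flt_comm] at h2
  rw [e, flt_append, flt_cons, if_pos (Or.inl rfl), flt_cons, if_pos (Or.inr rfl)] at h1 h2
  generalize flat Z ++ [p] = P at *
  generalize q :: flat W = B at *
  rw [← before_flt, flt_comm, flt_append]
  simp only [lab_append, lab_cons, List.count_append, List.count_cons, beq_iff_eq, hne, hne.symm,
    if_true, if_false] at c1 c2
  refine two_lists hne _ _ (fun c hc => ?_) ?_ ?_ h1 h2
  · rw [← flt_append] at hc; exact (mem_flt.1 hc).2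
  · rw [← flt_append, count_flt (Or.inl rfl), List.count_append]; omega
  · rw [← flt_append, count_flt (Or.inr rfl), List.count_append]; omega

lemma cnt_append (H K : List (ℕ × ℕ)) (a b : ℕ) : cnt (H ++ K) a b = cnt H a b + cnt K a b := by
  simp only [cnt, List.count_append]; omega

theorem sweep_bwd (w : Word) (hw : AltFront w) {Z : List Rec} (h : BInv n Z lam f Hn)
    (hv : Val true (dirs (flat Z)) w []) (he : ∀ a b, Even (cnt (Hn ++ NP n Z w) a b)) :
    top true w n (flat Z) = 1 := by
  induction w generalizing n Z lam f Hn with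
  | nil =>
    obtain rfl : Z = [] := by
      cases Z
      · rfl
      · simp [Val] at hv
    exact top_nil n
  | cons g w ih =>
    have hl := val_len hv
    replace hv := hv.2
    rw [length_dirs] at hl
    obtain ⟨hw', hg⟩ := alt_cons hw
    generalize g.2 = i at hg hl
    rcases hg with ⟨d, rfl, hi⟩ | ⟨rfl, hi⟩ | ⟨rfl, hi⟩
    · obtain ⟨Z1, Z2, rfl, rfl⟩ := splitZ0 Z i hi (by simpa [U, Letter.inp] using hl)
      rw [NP_U] at he; rw [nx_U _ _ n] at hv
      rw [flat_append, top_U]
      simpa [cp] using ih hw' (h.cup d) hv he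
    · obtain ⟨Z1, r, Z2, rfl, rfl⟩ := splitZ1 Z i hi (by simpa [A, Letter.inp] using hl)
      rw [NP_A] at he; rw [nx_A] at hv
      have hr : r ∈ Z1 ++ r :: Z2 := by simp
      have ha := h.s.elt _ (mem_eyes hr)
      have hnd := h.s.nodup
      simp only [eyes_append, eyes_cons] at hnd
      have hnd' := (List.nodup_cons.1 ((List.perm_middle.nodup_iff).1 hnd)).1
      rw [← eyes_append] at hnd'
      have h0 : SS r.1 Hn = 0 := SS_eq_zero ha (fun p hp => (h.s.hn p hp).2) fun b => by
        have h1 := he r.1 b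
        have h2 : cnt (NP n (Z1 ++ Z2) w) r.1 b = 0 := by
          simp only [cnt, Nat.add_eq_zero_iff, List.count_eq_zero]
          exact ⟨fun hm => by
              rcases (NP_mem w hw' n _ hv _ hm).1 with h3 | h3
              exacts [hnd' h3, absurd ha (not_lt.2 h3)],
            fun hm => by
              rcases (NP_mem w hw' n _ hv _ hm).2 with h3 | h3
              exacts [hnd' h3, absurd ha (not_lt.2 h3)]⟩
        rwa [cnt_append, h2, add_zero] at h1
      have h1 := h.s.dlive r hr
      rw [h0, SS_nil, add_zero] at h1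
      have h2 := h.inj (h.s.inv.lt _ (mem_flat hr).1) (h.s.inv.lt _ (mem_flat hr).2) h1
      rw [flat_append, flat_cons, top_A _ _ _ _ _ _ h2, ← flat_append]
      exact ih hw' (h.cap h2) hv he
    · obtain ⟨Z1, c, p, x, d, y, q, Z2, rfl, rfl⟩ := splitZ2 Z i hi (by
        simpa [X, Letter.inp] using hl)
      rw [NP_X] at he; rw [nx_X] at hv
      have e1 : (flat Z1).length + 1 = (flat Z1 ++ [p]).length := by simp
      have e2 : ∀ x y, flat (Z1 ++ (c, p, x) :: (d, y, q) :: Z2) =
          (flat Z1 ++ [p]) ++ x :: y :: q :: flat Z2 := by simp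
      rw [e1, e2]
      by_cases hd : x.2 = y.2
      · rw [top_Xs _ _ _ _ _ _ hw' h.lne hd (h.bef hd), ← e2]
        refine ih hw' h (by simpa [hd] using hv) ?_
        rw [if_pos hd, List.nil_append] at he
        simpa [NP, hd] using he
      · rw [top_Xn _ _ _ _ _ _ h.lne hd, ← e2]
        rw [if_neg hd, ← List.append_assoc] at he
        exact ih hw' (h.swapN hd) hv he

lemma sinv_nil : SInv 0 [] (fun _ => 0) (fun _ => 0) [] [] :=
  ⟨inv_nil, by simp, by simp, trivial, by simp, by simp, by simp, by simp⟩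

lemma binv_nil : BInv 0 [] (fun _ => 0) (fun _ => 0) [] :=
  ⟨sinv_nil, by simp, by simp, by simp⟩

theorem ev_true_ne_zero_iff (w : Word) (hw : AltFront w) (hv : Valid [] w []) :
    ev true w ≠ 0 ↔ ∀ a b, Even (negCount w a b) := by
  constructor
  · intro h a b
    simpa [cnt, NP, negCount] using sweep_fwd w hw sinv_nil h a b
  · intro h h0
    have := sweep_bwd w hw binv_nil (val_true.2 hv) (fun a b => by
      simpa [cnt, NP, negCount] using h a b)
    simp only [ev] at h0
    simp only [top, flat_nil, h0] at this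
    simp at this

theorem ev_false_not_dvd (w : Word) (hw : AltFront w) (hv : Valid [] w []) :
    ¬ (2 : L1) ∣ ev false w := by
  rintro ⟨r, hr⟩
  have := top_false w hw 0 [] (by simp) (by simp) (val_weaken (val_true.2 hv))
  simp only [ev] at hr
  simp only [top, dbl_nil, hr, two_mul, AddMonoidAlgebra.coeff_add, Finsupp.add_apply] at this
  omega

end Pool.Agent.Lib.MP_3a4f2f_gt
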