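import Mathlib

/-!
Oriented link diagrams as words read from left to right, the skein (HOMFLY) and Kauffman
polynomials as functions on such words, and alternating diagrams in front form.
-/

namespace Pool.Agent.Lib.MP_3a4f2f_gt

open LaurentPolynomial

/-- Elementary pieces of a diagram, read from left to right; strands are numbered from the top.
`cup d`: two strands are born, the upper one with direction `d` (`true` = rightwards), the lower
one with the opposite direction. `cap`: two strands are joined. `cr b`: two strands cross; the
strand running from upper left to lower right is the over strand iff `b`. -/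
inductive Letter where
  | cup : Bool → Letter
  | cap : Letter
  | cr : Bool → Letter
  deriving DecidableEq

/-- A diagram is a list of pieces; the number says how many strands pass above the piece. -/
abbrev Word : Type := List (Letter × ℕ)

/-- Number of strands entering a piece from the left. -/
def Letter.inp : Letter → ℕ
  | .cup _ => 0
  | .cap => 2
  | .cr _ => 2

/-- Number of strands leaving a piece to the right. -/
def Letter.out : Letter → ℕ
  | .cup _ => 2
  | .cap => 0
  | .cr _ => 2

/-- Insert two entries after the first `i` entries. -/
def ins {α : Type} (i : ℕ) (x y : α) (L : List α) : List α := L.take i ++ x :: y :: L.drop i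

/-- Delete entries `i` and `i+1`. -/
def del {α : Type} (i : ℕ) (L : List α) : List α := L.take i ++ L.drop (i + 2)

/-- Exchange entries `i` and `i+1`. -/
def swp {α : Type} (i : ℕ) (L : List α) : List α :=
  L.take i ++ (((L.drop i).take 2).reverse ++ L.drop (i + 2))

/-- Directions of the strands to the right of a piece, given those to its left. -/
def next (E : List Bool) : Letter × ℕ → List Bool
  | (.cup d, i) => ins i d (!d) E
  | (.cap, i) => del i E
  | (.cr _, i) => swp i E

/-- The piece fits: enough strands, and a cap joins strands of opposite directions. -/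
def Fits (E : List Bool) (g : Letter × ℕ) : Prop :=
  g.2 + g.1.inp ≤ E.length ∧ (g.1 = .cap → E.getD g.2 true ≠ E.getD (g.2 + 1) true)

/-- `Valid E w E'`: the word is an oriented diagram with strand directions `E` on the left and
`E'` on the right. Closed oriented link diagrams: `Valid [] w []`. -/
def Valid : List Bool → Word → List Bool → Prop
  | E, [], E' => E = E'
  | E, g :: w, E' => Fits E g ∧ Valid (next E g) w E'

/-- The same without directions: `n` strands on the left, `m` on the right. -/
def UValid : ℕ → Word → ℕ → Prop
  | n, [], m => n = m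
  | n, g :: w, m => g.2 + g.1.inp ≤ n ∧ UValid (n - g.1.inp + g.1.out) w m

/-- Directions after reading a word. -/
def run (E : List Bool) (w : Word) : List Bool := w.foldl next E

/-- Sign of a piece: `+1` for a positive crossing, `-1` for a negative one, else `0`. -/
def sgn (E : List Bool) : Letter × ℕ → ℤ
  | (.cr b, i) => if (E.getD i true == E.getD (i + 1) true) = b then 1 else -1
  | _ => 0

/-- Sum of the crossing signs. -/
def wr : List Bool → Word → ℤ
  | _, [] => 0
  | E, g :: w => sgn E g + wr (next E g) w

/-- Writhe of a closed diagram. -/
def writhe (w : Word) : ℤ := wr [] w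

/-- Regular isotopy: exchange of distant pieces, zigzags, sliding a crossing through an extremum
(planar isotopy), and Reidemeister moves II and III. -/
inductive RMove : Word → Word → Prop where
  | comm (k l : Letter) (i t : ℕ) :
      RMove [(k, i), (l, i + t + k.out)] [(l, i + t + k.inp), (k, i)]
  | zig (d : Bool) (i : ℕ) : RMove [(.cup d, i + 1), (.cap, i)] []
  | zag (d : Bool) (i : ℕ) : RMove [(.cup d, i), (.cap, i + 1)] []
  | slideCup (d b : Bool) (i : ℕ) :
      RMove [(.cup d, i + 1), (.cr b, i)] [(.cup d, i), (.cr (!b), i + 1)]
  | slideCap (b : Bool) (i : ℕ) :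
      RMove [(.cr b, i), (.cap, i + 1)] [(.cr (!b), i + 1), (.cap, i)]
  | r2 (b : Bool) (i : ℕ) : RMove [(.cr b, i), (.cr (!b), i)] []
  | r3 (b : Bool) (i : ℕ) :
      RMove [(.cr b, i), (.cr b, i + 1), (.cr b, i)] [(.cr b, i + 1), (.cr b, i), (.cr b, i + 1)]

/-- Isotopy of oriented diagrams: regular isotopy and Reidemeister move I. -/
inductive Move : Word → Word → Prop where
  | reg {x y : Word} : RMove x y → Move x y
  | r1Cup (d b : Bool) (i : ℕ) : Move [(.cup d, i), (.cr b, i)] [(.cup (!d), i)]
  | r1Cap (b : Bool) (i : ℕ) : Move [(.cr b, i), (.cap, i)] [(.cap, i)]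

/-- Laurent polynomials in two variables: the outer variable `T 1` is `l` (or `a`), the inner
variable `C (T 1)` is `m` (or `z`). -/
abbrev L2 : Type := LaurentPolynomial (LaurentPolynomial ℤ)

/-- `P` is the skein polynomial: isotopy invariant, `1` on the circle,
`l⁻¹ P(L₊) - l P(L₋) = m P(L₀)`. -/
structure IsHomfly (P : Word → L2) : Prop where
  move : ∀ u v x y, Move x y → Valid [] (u ++ x ++ v) [] → P (u ++ x ++ v) = P (u ++ y ++ v)
  circle : ∀ d, P [(.cup d, 0), (.cap, 0)] = 1
  skein : ∀ u v i, Valid [] (u ++ (.cr true, i) :: v) [] →
    (run [] u).getD i true = (run [] u).getD (i + 1) true →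
    T (-1) * P (u ++ (.cr true, i) :: v) - T 1 * P (u ++ (.cr false, i) :: v)
      = C (T 1) * P (u ++ v)

/-- `K` is Kauffman's regular isotopy invariant of unoriented diagrams: independent of the
directions, `1` on the circle, a curl of sign `±1` gives `a^(±1)`, and
`[D₁] + [D₂] = z ([D₃] + [D₄])`. -/
structure IsKauffman (K : Word → L2) : Prop where
  flag : ∀ u v d i, K (u ++ (.cup d, i) :: v) = K (u ++ (.cup (!d), i) :: v)
  move : ∀ u v x y, RMove x y → UValid 0 (u ++ x ++ v) 0 → K (u ++ x ++ v) = K (u ++ y ++ v)
  circle : K [(.cup true, 0), (.cap, 0)] = 1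
  curlCup : ∀ u v d b i, UValid 0 (u ++ (.cup d, i) :: (.cr b, i) :: v) 0 →
    K (u ++ (.cup d, i) :: (.cr b, i) :: v) = T (if b then -1 else 1) * K (u ++ (.cup d, i) :: v)
  curlCap : ∀ u v b i, UValid 0 (u ++ (.cr b, i) :: (.cap, i) :: v) 0 →
    K (u ++ (.cr b, i) :: (.cap, i) :: v) = T (if b then -1 else 1) * K (u ++ (.cap, i) :: v)
  skein : ∀ u v i, UValid 0 (u ++ (.cr true, i) :: v) 0 →
    K (u ++ (.cr true, i) :: v) + K (u ++ (.cr false, i) :: v)
      = C (T 1) * (K (u ++ v) + K (u ++ (.cap, i) :: (.cup true, i) :: v))

/-- Least exponent of the outer variable. -/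
noncomputable def minExp (p : L2) : WithTop ℤ := p.coeff.support.min

/-- `F(a⁻¹, z)`, where `F = a^(-w) [D]`. -/
noncomputable def kauffInv (K : Word → L2) (w : Word) : L2 := invert (T (-writhe w) * K w)

/-- Alternating diagram in front form: the regions between strands `2j` and `2j+1` (black
regions, whose boundaries are the circles of the all-`A` smoothing) are born at a cup and die at
a cap, and every crossing joins two vertically adjacent black regions, over strand descending. -/
def AltFront (w : Word) : Prop :=
  ∀ g ∈ w, match g with
    | (.cup _, i) => Even i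
    | (.cap, i) => Even i
    | (.cr b, i) => b = true ∧ Odd i

/-- For every negative crossing, the names of the black regions above and below it. A region is
named by the number `n` of cups read before its birth; `L` holds for each strand the name of the
black region it bounds, `E` the directions. -/
def negPairs : ℕ → List ℕ → List Bool → Word → List (ℕ × ℕ)
  | _, _, _, [] => []
  | n, L, E, (.cup d, i) :: w => negPairs (n + 1) (ins i n n L) (next E (.cup d, i)) w
  | n, L, E, (.cap, i) :: w => negPairs n (del i L) (next E (.cap, i)) w
  | n, L, E, (.cr b, i) :: w =>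
      (if sgn E (.cr b, i) = -1 then [(L.getD i 0, L.getD (i + 1) 0)] else []) ++
        negPairs n L (next E (.cr b, i)) w

/-- Number of negative crossings joining the black regions `a` and `b`. -/
def negCount (w : Word) (a b : ℕ) : ℕ :=
  (negPairs 0 [] [] w).count (a, b) + (negPairs 0 [] [] w).count (b, a)

end Pool.Agent.Lib.MP_3a4f2f_gt
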