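import Pool.Agent.Lib.MP_3a4f2f_gt.Defs

namespace Pool.Agent.Lib.MP_3a4f2f_gt

/-- The unfolding lemmas of `UValid` are generated here once, for all later files. -/
theorem eqfix1 : True := by
  have h0 := @UValid.eq_def
  have h1 := @UValid.eq_1
  have h2 := @UValid.eq_2
  trivial

end Pool.Agent.Lib.MP_3a4f2f_gt
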