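import Pool.Agent.Lib.MP_3a4f2f_gt.Sys

/-! Rutherford's theorem: the lowest coefficient is the ruling polynomial. -/

namespace Pool.Agent.Lib.MP_3a4f2f_gt

open LaurentPolynomial

def cups : Word → ℤ
  | [] => 0
  | (.cup _, _) :: w => cups w + 1
  | _ :: w => cups w

@[simp] lemma cups_nil : cups [] = 0 := rfl
@[simp] lemma cups_U (d : Bool) (i : ℕ) (w : Word) : cups (U d i :: w) = cups w + 1 := rfl
@[simp] lemma cups_X (i : ℕ) (w : Word) : cups (X i :: w) = cups w := rfl
@[simp] lemma cups_A (i : ℕ) (w : Word) : cups (A i :: w) = cups w := rfl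
@[simp] lemma cups_append (u v : Word) : cups (u ++ v) = cups u + cups v := by
  induction u with
  | nil => simp
  | cons g u ih =>
    obtain ⟨g, i⟩ := g
    cases g <;> simp only [List.cons_append, cups, ih]
    ring

noncomputable def ev (o : Bool) (w : Word) : L1 := evk (T 1 : L1) o w 0 [] fin0

noncomputable def kap (n : ℤ) : L2 := T (n - 1) * C (T (n - 1))

lemma kap_succ (n : ℤ) : kap (n + 1) = T 1 * C (T 1) * kap n := by
  simp only [kap]
  rw [show n + 1 - 1 = 1 + (n - 1) by ring, T_add, T_add, map_mul]; ring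

noncomputable def Y (Q : Word → L2) (w : Word) : L2 := kap (cups w) * Q w

def Good (c : L1) (o : Bool) (Q : Word → L2) (w : Word) : Prop :=
  V o w → w ≠ [] → Low c (Y Q w) (ev o w)

variable {o : Bool} {Q : Word → L2} {c : L1}

lemma ev_ctx (u v x y x' y' : Word) (hv : NoCup v) (a b a' b' : L1)
    (H : ∀ n s (ψ : ℕ → St → L1), RI ψ → Inv o n s → dirs s = rn o [] u →
      a * evk (T 1) o x n s ψ + b * evk (T 1) o y n s ψ =
        a' * evk (T 1) o x' n s ψ + b' * evk (T 1) o y' n s ψ) :
    a * ev o (u ++ (x ++ v)) + b * ev o (u ++ (y ++ v)) =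
      a' * ev o (u ++ (x' ++ v)) + b' * ev o (u ++ (y' ++ v)) := by
  simp only [ev, evk_append, ← evk_lin]
  exact evk_congr inv_nil fun n t ht hd => H n t _ (ri_evk v hv) ht hd

lemma ev_ctx1 (u v x y : Word) (hv : NoCup v) (a : L1)
    (H : ∀ n s (ψ : ℕ → St → L1), RI ψ → Inv o n s → dirs s = rn o [] u →
      evk (T 1) o x n s ψ = a * evk (T 1) o y n s ψ) :
    ev o (u ++ (x ++ v)) = a * ev o (u ++ (y ++ v)) := by
  have := ev_ctx (o := o) u v x x y y hv 1 0 a 0 (fun n s ψ h1 h2 h3 => by
    rw [H n s ψ h1 h2 h3]; ring)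
  simpa using this

lemma good_of {w w' : Word} (κ κ' : L2) (ρ : L1) (hs : Stp o Q κ w w')
    (hne : V o w → w' ≠ []) (hk : kap (cups w) * κ = κ' * kap (cups w'))
    (he : V o w → ev o w = ρ * ev o w')
    (hl : ∀ p r, Low c p r → Low c (κ' * p) (ρ * r)) (hg : Good c o Q w') : Good c o Q w := by
  intro hv _
  have h1 := hl _ _ (hg (hs hv).1 (hne hv))
  rw [he hv, Y, (hs hv).2, ← mul_assoc, hk, mul_assoc]
  exact h1

lemma good_eq {w w' : Word} (hs : Stp o Q 1 w w') (hne : w' ≠ []) (hc : cups w = cups w')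
    (he : V o w → ev o w = 1 * ev o w') (hg : Good c o Q w') : Good c o Q w :=
  good_of 1 1 1 hs (fun _ => hne) (by rw [hc]; ring) he (fun p r h => by simpa using h) hg

lemma slen {s : St} {u : Word} (h : dirs s = rn o [] u) : s.length = (rn o [] u).length := by
  rw [← h, length_dirs]

lemma split22 (s : St) (i t : ℕ) (h : i + t + 4 ≤ s.length) :
    ∃ P p q M r w B, s = P ++ p :: q :: (M ++ r :: w :: B) ∧ i = P.length ∧ t = M.length := by
  obtain ⟨P, p, q, R, rfl, rfl⟩ := split2 s i (by omega)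
  obtain ⟨M, r, w, B, rfl, rfl⟩ := split2 R t (by simp at h; omega)
  exact ⟨P, p, q, M, r, w, B, rfl, rfl, rfl⟩

lemma split20 (s : St) (i t : ℕ) (h : i + t + 2 ≤ s.length) :
    ∃ P p q M B, s = P ++ p :: q :: (M ++ B) ∧ i = P.length ∧ t = M.length := by
  obtain ⟨P, p, q, R, rfl, rfl⟩ := split2 s i (by omega)
  obtain ⟨M, B, rfl, rfl⟩ := split0 R t (by simp at h; omega)
  exact ⟨P, p, q, M, B, rfl, rfl, rfl⟩

lemma split02 (s : St) (i t : ℕ) (h : i + t + 2 ≤ s.length) :
    ∃ P M p q B, s = P ++ (M ++ p :: q :: B) ∧ i = P.length ∧ t = M.length := by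
  obtain ⟨P, R, rfl, rfl⟩ := split0 s i (by omega)
  obtain ⟨M, p, q, B, rfl, rfl⟩ := split2 R t (by simp at h; omega)
  exact ⟨P, M, p, q, B, rfl, rfl, rfl⟩

lemma ne_nil_of_len {u v : Word} (h : 0 < (rn o [] u).length) : u ++ v ≠ [] := by
  intro e
  rw [(List.append_eq_nil_iff.1 e).1] at h
  simp [rn] at h

lemma val_open {E : List Bool} (xs : Word) (hx : ∀ g ∈ xs, ∃ j, g = X j) (h : Val o E xs []) :
    E = [] := by
  induction xs generalizing E with
  | nil => exact h
  | cons g xs ih =>
    obtain ⟨j, rfl⟩ := hx g (by simp)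
    have h1 := ih (fun g hg => hx g (by simp [hg])) h.2
    have h2 := length_nx (o := o) (val_len h)
    rw [h1] at h2
    simp [X, Letter.out] at h2

lemma l1_dir (P B : List Bool) (e d b : Bool) (v : Word) (hT : o = false → e = true)
    (h : Val o (P ++ e :: B)
      ((.cup d, P.length) :: (.cr b, P.length + 1) :: (.cap, P.length) :: v) []) :
    (cp o d).2 = e := by
  simp only [Val, nx_shift, nx_shift0, fit_shift, fit_shift0] at h
  cases o <;> cases e <;> cases d <;> simp [nx, ins, swp, Fit, cp] at hT h ⊢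

theorem rules_good (h : Sys o Q) (α β : L1)
    (adj : ∀ u v d m, m < (rn o [] u).length → V o (u ++ v) →
      T 1 * C (T 1) * Q (u ++ (.cup d, m) :: (.cap, m) :: v) =
        (1 + T 1 * C α + T 1 * (T 1 * C β)) * Q (u ++ v) ∨
      T 1 * C (T 1) * Q (u ++ (.cup d, m + 1) :: (.cap, m + 1) :: v) =
        (1 + T 1 * C α + T 1 * (T 1 * C β)) * Q (u ++ v))
    (hsk : ∀ u v d m, NoCup v → Good c o Q (u ++ U d (m + 1) :: v) → Good c o Q (u ++ U d m :: v) →
      (Good c o Q (u ++ U d (m + 1) :: X m :: v) ↔ Good c o Q (u ++ U d m :: X (m + 1) :: v))) :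
    Rules (Good c o Q) where
  nocup w hw hv hne := absurd (val_nil_noCup hw hv) hne
  opn u d m s k hv _ := by
    have h1 := hv.tail
    have h2 := val_open (dn s k) (fun g hg => by
      obtain ⟨j, rfl, -⟩ := mem_dn hg; exact ⟨j, rfl⟩) h1.2
    have h3 := length_nx (o := o) (val_len h1)
    rw [h2] at h3
    simp [U, Letter.out] at h3
  cXX u v i j hv hij := by
    obtain ⟨t, rfl⟩ : ∃ t, j = i + t + 2 := ⟨j - i - 2, by omega⟩
    have he : i + t + 4 ≤ (rn o [] u).length →
        ev o (u ++ X i :: X (i + t + 2) :: v) = 1 * ev o (u ++ X (i + t + 2) :: X i :: v) := by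
      intro hl
      refine ev_ctx1 u v [X i, X (i + t + 2)] [X (i + t + 2), X i] hv 1 fun n s ψ h1 h2 h3 => ?_
      obtain ⟨P, p, q, M, r, w, B, rfl, rfl, rfl⟩ := split22 s i t (by rw [slen h3]; exact hl)
      rw [one_mul, add_right_comm]; exact e_cXX h1 P M B p q r w h2
    constructor
    · refine good_eq (h.commB u v (.cr true) (.cr true) i t) (by simp) (by simp) fun hV => ?_
      rw [he (by have := val_len hV.tail; simp [X, Letter.inp] at this; omega)]; simp
    · refine good_eq (h.commF u v (.cr true) (.cr true) i t) (by simp) (by simp) fun hV => he ?_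
      have := val_len2 hV.tail; have := val_len hV.tail
      simp [X, Letter.inp, Letter.out] at *; omega
  cXA1 u v i j hv hij := by
    obtain ⟨t, rfl⟩ : ∃ t, j = i + t + 2 := ⟨j - i - 2, by omega⟩
    refine good_eq (h.commF u v (.cr true) .cap i t) (by simp) (by simp) fun hV => ?_
    refine ev_ctx1 u v [X i, A (i + t + 2)] [A (i + t + 2), X i] hv 1 fun n s ψ h1 h2 h3 => ?_
    obtain ⟨P, p, q, M, r, w, B, rfl, rfl, rfl⟩ := split22 s i t (by
      rw [slen h3]; have := val_len2 hV.tail; have := val_len hV.tail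
      simp [X, A, Letter.inp, Letter.out] at *; omega)
    rw [one_mul, add_right_comm]; exact e_cXA1 P M B p q r w h2
  cXA2 u v i j hv hij := by
    obtain ⟨t, rfl⟩ : ∃ t, i = j + t := ⟨i - j, by omega⟩
    refine good_eq (h.commB u v .cap (.cr true) j t) (by simp) (by simp) fun hV => ?_
    refine ev_ctx1 u v [X (j + t + 2), A j] [A j, X (j + t)] hv 1 fun n s ψ h1 h2 h3 => ?_
    obtain ⟨P, p, q, M, r, w, B, rfl, rfl, rfl⟩ := split22 s j t (by
      rw [slen h3]; have := val_len hV.tail
      simp [X, Letter.inp] at *; omega)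
    rw [one_mul, add_right_comm]; exact e_cXA2 P M B r w p q h2
  cUX1 u v d m i hv hij := by
    obtain ⟨t, rfl⟩ : ∃ t, m = i + t + 2 := ⟨m - i - 2, by omega⟩
    refine good_eq (h.commB u v (.cr true) (.cup d) i t) (by simp) (by simp) fun hV => ?_
    refine ev_ctx1 u v [U d (i + t + 2), X i] [X i, U d (i + t + 2)] hv 1 fun n s ψ h1 h2 h3 => ?_
    obtain ⟨P, p, q, M, B, rfl, rfl, rfl⟩ := split20 s i t (by
      rw [slen h3]; simpa [U, Letter.inp] using val_len hV.tail)
    rw [one_mul, add_right_comm]; exact e_cUX1 P M B p q d h2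
  cUX2 u v d m i hv hij := by
    obtain ⟨t, rfl⟩ : ∃ t, i = m + t := ⟨i - m, by omega⟩
    refine good_eq (h.commF u v (.cup d) (.cr true) m t) (by simp) (by simp) fun hV => ?_
    refine ev_ctx1 u v [U d m, X (m + t + 2)] [X (m + t), U d m] hv 1 fun n s ψ h1 h2 h3 => ?_
    obtain ⟨P, M, p, q, B, rfl, rfl, rfl⟩ := split02 s m t (by
      rw [slen h3]; have := val_len2 hV.tail
      simp [U, X, Letter.inp, Letter.out] at *; omega)
    rw [one_mul, add_right_comm]; exact e_cUX2 P M B p q d h2
  cUA1 u v d m i hv hij := by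
    obtain ⟨t, rfl⟩ : ∃ t, m = i + t := ⟨m - i, by omega⟩
    refine good_eq (h.commB u v .cap (.cup d) i t) (by simp) (by simp) fun hV => ?_
    refine ev_ctx1 u v [U d (i + t + 2), A i] [A i, U d (i + t)] hv 1 fun n s ψ h1 h2 h3 => ?_
    obtain ⟨P, p, q, M, B, rfl, rfl, rfl⟩ := split20 s i t (by
      rw [slen h3]; simpa [U, Letter.inp] using val_len hV.tail)
    rw [one_mul, add_right_comm]; exact e_cUA1 P M B p q d
  cUA2 u v d m i hv hij := by
    obtain ⟨t, rfl⟩ : ∃ t, i = m + t := ⟨i - m, by omega⟩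
    refine good_eq (h.commF u v (.cup d) .cap m t) (by simp) (by simp) fun hV => ?_
    refine ev_ctx1 u v [U d m, A (m + t + 2)] [A (m + t), U d m] hv 1 fun n s ψ h1 h2 h3 => ?_
    obtain ⟨P, M, p, q, B, rfl, rfl, rfl⟩ := split02 s m t (by
      rw [slen h3]; have := val_len2 hV.tail
      simp [U, A, Letter.inp, Letter.out] at *; omega)
    rw [one_mul, add_right_comm]; exact e_cUA2 P M B p q d
  braid u v i hv := by
    refine good_eq (h.fwd u v (.r3 true i)) (by simp) (by simp) fun hV => ?_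
    refine ev_ctx1 u v [X i, X (i + 1), X i] [X (i + 1), X i, X (i + 1)] hv 1
      fun n s ψ h1 h2 h3 => ?_
    obtain ⟨P, p, q, r, B, rfl, rfl⟩ := split3 s i (by
      rw [slen h3]; have := val_len2 hV.tail; have := val_len hV.tail
      simp [X, Letter.inp, Letter.out] at *; omega)
    rw [one_mul]; exact e_braid P B p q r h2
  l2a u v d m hv := by
    refine good_eq ((h.slB u (X m :: v) d true m).trans1 (h.r2F u v _ (!true) m)) (by simp)
      (by simp) fun hV => ?_
    refine ev_ctx1 u v [U d m, X (m + 1), X m] [U d (m + 1)] hv 1 fun n s ψ h1 h2 h3 => ?_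
    obtain ⟨P, p, B, rfl, rfl⟩ := split1 s m (by
      rw [slen h3]; have := val_len2 hV.tail
      simp [U, X, Letter.inp, Letter.out] at *; omega)
    rw [one_mul]; exact e_l2a P B p h2 d
  l2b u v d m hv := by
    refine good_eq ((h.slF u (X (m + 1) :: v) d true m).trans1 (h.r2F u v _ (!true) (m + 1)))
      (by simp) (by simp) fun hV => ?_
    refine ev_ctx1 u v [U d (m + 1), X m, X (m + 1)] [U d m] hv 1 fun n s ψ h1 h2 h3 => ?_
    obtain ⟨P, p, B, rfl, rfl⟩ := split1 s m (by
      rw [slen h3]; simpa [U, Letter.inp] using val_len hV.tail)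
    rw [one_mul]; exact e_l2b P B p h2 d
  l2c u v i hv := by
    have k1 := h.scB (u ++ [X i]) v true i
    have k2 := h.fwd u (A (i + 1) :: v) (.r2 true i)
    simp only [List.append_assoc, List.cons_append, List.nil_append] at k1 k2
    refine good_eq (k1.trans1 k2) (by simp) (by simp) fun hV => ?_
    refine ev_ctx1 u v [X i, X (i + 1), A i] [A (i + 1)] hv 1 fun n s ψ h1 h2 h3 => ?_
    obtain ⟨P, p, q, r, B, rfl, rfl⟩ := split3 s i (by
      rw [slen h3]; have := val_len2 hV.tail; have := val_len hV.tail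
      simp [X, Letter.inp, Letter.out] at *; omega)
    rw [one_mul]; exact e_l2c P B p q r h2
  l1 u v d m hv := by
    have hl : V o (u ++ U d m :: X (m + 1) :: A m :: v) → m + 1 ≤ (rn o [] u).length := by
      intro hV; have := val_len2 hV.tail
      simp [U, X, Letter.inp, Letter.out] at *; omega
    refine good_of _ (C (T 1)) (T 1) (h.kinkUp u v d true m)
      (fun hV => ne_nil_of_len (o := o) (by have := hl hV; omega)) ?_ (fun hV => ?_)
      (fun p r hp => hp.cmul _)
    · have : cups (u ++ U d m :: X (m + 1) :: A m :: v) = cups (u ++ v) + 1 := by simp; ring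
      rw [this, kap_succ]
      have h1 : (T 1 : L2) * T (-1) = 1 := by rw [← T_add]; simp
      simp only [if_true]
      linear_combination (C (T 1) * kap (cups (u ++ v))) * h1
    · refine ev_ctx1 u v [U d m, X (m + 1), A m] [] hv (T 1) fun n s ψ h1 h2 h3 => ?_
      obtain ⟨P, p, B, rfl, rfl⟩ := split1 s m (by rw [slen h3]; exact hl hV)
      refine e_l1 h1 P B p h2 d ?_
      have h4 := hV.tail
      have h5 := allT_ctx (o := o) u
      rw [← h3, dirs_append, dirs_cons] at h4 h5
      rw [← length_dirs P] at h4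
      exact l1_dir _ _ _ d true v (fun ho => allT_mid (h5 ho)) h4
  k1 u v d m hv := by
    refine good_of (T 1) (T 1) 0 (fun hV => ⟨hV.curlCup, h.cu u v d true m hV⟩)
      (fun _ => by simp)
      (by simp only [cups_append, cups_U, cups_X]; exact mul_comm _ _) (fun hV => ?_)
      (fun p r hp => by simpa using hp.shift)
    refine ev_ctx1 u v [U d m, X m] [U (!d) m] hv 0 fun n s ψ h1 h2 h3 => ?_
    obtain ⟨P, B, rfl, rfl⟩ := split0 s m (by
      rw [slen h3]; simpa [U, Letter.inp] using val_len hV.tail)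
    rw [zero_mul]; exact e_k1 P B d
  k2 u v m hv := by
    refine good_of (T 1) (T 1) 0 (h.caS u v true m)
      (fun _ => by simp)
      (by simp only [cups_append, cups_X, cups_A]; exact mul_comm _ _) (fun hV => ?_)
      (fun p r hp => by simpa using hp.shift)
    refine ev_ctx1 u v [X m, A m] [A m] hv 0 fun n s ψ h1 h2 h3 => ?_
    obtain ⟨P, p, q, B, rfl, rfl⟩ := split2 s m (by
      rw [slen h3]; simpa [X, Letter.inp] using val_len hV.tail)
    rw [zero_mul]; exact e_k2 P B p q
  z1 u v d m hv := by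
    have hl : V o (u ++ U d (m + 1) :: A m :: v) → m + 1 ≤ (rn o [] u).length := by
      intro hV; simpa [U, Letter.inp] using val_len hV.tail
    refine good_of 1 (T 1 * C (T 1)) 0 (h.fwd u v (.zig d m))
      (fun hV => ne_nil_of_len (o := o) (by have := hl hV; omega)) ?_ (fun hV => ?_)
      (fun p r hp => by simpa [mul_assoc] using (hp.cmul (T 1)).shift)
    · have : cups (u ++ U d (m + 1) :: A m :: v) = cups (u ++ v) + 1 := by simp; ring
      rw [this, kap_succ, mul_one]
    · refine ev_ctx1 u v [U d (m + 1), A m] [] hv 0 fun n s ψ h1 h2 h3 => ?_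
      obtain ⟨P, p, B, rfl, rfl⟩ := split1 s m (by rw [slen h3]; exact hl hV)
      rw [zero_mul]; exact e_z1 P B p h2 d
  z2 u v d m hv := by
    have hl : V o (u ++ U d m :: A (m + 1) :: v) → m + 1 ≤ (rn o [] u).length := by
      intro hV; have := val_len2 hV.tail
      simp [U, A, Letter.inp, Letter.out] at *; omega
    refine good_of 1 (T 1 * C (T 1)) 0 (h.fwd u v (.zag d m))
      (fun hV => ne_nil_of_len (o := o) (by have := hl hV; omega)) ?_ (fun hV => ?_)
      (fun p r hp => by simpa [mul_assoc] using (hp.cmul (T 1)).shift)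
    · have : cups (u ++ U d m :: A (m + 1) :: v) = cups (u ++ v) + 1 := by simp; ring
      rw [this, kap_succ, mul_one]
    · refine ev_ctx1 u v [U d m, A (m + 1)] [] hv 0 fun n s ψ h1 h2 h3 => ?_
      obtain ⟨P, p, B, rfl, rfl⟩ := split1 s m (by rw [slen h3]; exact hl hV)
      rw [zero_mul]; exact e_z2 P B p h2 d
  eye u v d m hv hg hV _ := by
    have hm : m ≤ (rn o [] u).length := by simpa [U, Letter.inp] using val_len hV.tail
    have he : ev o (u ++ U d m :: A m :: v) = 1 * ev o (u ++ v) := by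
      refine ev_ctx1 u v [U d m, A m] [] hv 1 fun n s ψ h1 h2 h3 => ?_
      obtain ⟨P, B, rfl, rfl⟩ := split0 s m (by rw [slen h3]; exact hm)
      rw [one_mul]; exact e_eye h1 P B d
    rw [he, one_mul]
    by_cases hne : u ++ v = []
    · obtain ⟨rfl, rfl⟩ := List.append_eq_nil_iff.1 hne
      obtain rfl : m = 0 := by simpa [rn] using hm
      have h1 : Y Q ([] ++ [U d 0, A 0]) = 1 := by
        simp only [List.nil_append, Y, cups_U, cups_A, cups_nil, kap]
        rw [show Q [U d 0, A 0] = 1 from h.circle d]; simp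
      rw [h1]
      simpa [ev, evk, fin0] using low_one
    · have h1 := h.eyeAll _ _ adj u v d m hv hne hV
      have h2 := hg ((V.eye hm).1 hV) hne
      have h3 : cups (u ++ U d m :: A m :: v) = cups (u ++ v) + 1 := by simp; ring
      have h4 : Y Q (u ++ U d m :: A m :: v) =
          Y Q (u ++ v) + T 1 * (C α * Y Q (u ++ v)) + T 1 * (T 1 * (C β * Y Q (u ++ v))) := by
        rw [Y, Y, h3, kap_succ]
        simp only [U, A]
        linear_combination (kap (cups (u ++ v))) * h1
      rw [h4]
      simpa using (h2.add (h2.cmul α).shift).add (h2.cmul β).shift.shift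
  sk := hsk

end Pool.Agent.Lib.MP_3a4f2f_gt
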