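import Pool.Agent.Lib.MP_3a4f2f_gt.Good

/-! The two instances: skein polynomial and Kauffman polynomial. -/

namespace Pool.Agent.Lib.MP_3a4f2f_gt

open LaurentPolynomial

lemma ev_sk {o : Bool} (u v : Word) (d : Bool) (m : ℕ) (hv : NoCup v) (P B : List Bool) (e : Bool)
    (hE : rn o [] u = P ++ e :: B) (hm : m = P.length) :
    ev o (u ++ U d (m + 1) :: X m :: v) +
      (if (cp o d).2 = e then T 1 else 0) * ev o (u ++ U d m :: v) =
    ev o (u ++ U d m :: X (m + 1) :: v) +
      (if e = (cp o d).1 then T 1 else 0) * ev o (u ++ U d (m + 1) :: v) := by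
  have := ev_ctx (o := o) u v [U d (m + 1), X m] [U d m] [U d m, X (m + 1)] [U d (m + 1)] hv
    1 (if (cp o d).2 = e then T 1 else 0) 1 (if e = (cp o d).1 then T 1 else 0)
    (fun n s ψ h1 h2 h3 => by
      obtain ⟨P', p, B', rfl, hP⟩ := split1 s m (by rw [slen h3, hE, hm]; simp)
      have he : p.2 = e := by
        rw [hE, dirs_append, dirs_cons] at h3
        exact (List.cons.inj (List.append_inj h3 (by simp; omega)).2).1
      subst he
      rw [one_mul, one_mul, hP]
      exact e_sk P' B' p h2 d)
  simpa using this

lemma V.slide {o : Bool} {u v : Word} {d : Bool} {m : ℕ} :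
    V o (u ++ U d (m + 1) :: X m :: v) ↔ V o (u ++ U d m :: X (m + 1) :: v) := by
  constructor
  · intro h
    have h1 : V o (u ++ [U d m] ++ (.cr (!true), m + 1) :: v) := by
      simpa [U] using V.move (u := u) (v := v) (.slideCup d true m) h
    simpa [X] using h1.flip (b' := true)
  · intro h
    have h1 : V o (u ++ [U d m] ++ (.cr true, m + 1) :: v) := by simpa [X] using h
    have h2 : V o (u ++ (.cup d, m) :: (.cr (!true), m + 1) :: v) := by
      simpa [U] using h1.flip (b' := !true)
    exact h2.swap (slideCup_back h2.tail)

lemma same_core {o : Bool} (P B : List Bool) (e b : Bool) (v : Word) :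
    (Val o (P ++ e :: e :: B) ((.cr b, P.length) :: v) [] ↔ Val o (P ++ e :: e :: B) v []) ∧
    wr (P ++ e :: e :: B) ((.cr b, P.length) :: v) =
      (if b then 1 else -1) + wr (P ++ e :: e :: B) v := by
  simp only [Val, wr_cons, nx_shift0, fit_shift0, sgn_shift0]
  cases e <;> cases b <;> simp [nx, swp, Fit, sgn, Letter.inp]

lemma kinkUp_core {o : Bool} (P B : List Bool) (e d b : Bool) (v : Word) (h : (cp o d).2 = e) :
    Val o (P ++ e :: B) v [] → Val o (P ++ e :: B)
      ((.cup d, P.length) :: (.cr b, P.length + 1) :: (.cap, P.length) :: v) [] := by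
  simp only [Val, nx_shift, nx_shift0, fit_shift, fit_shift0]
  cases o <;> cases e <;> cases d <;> simp [nx, ins, swp, del, Fit, cp, Letter.inp] at h ⊢

lemma kinkDn_core {o : Bool} (P B : List Bool) (e d b : Bool) (v : Word) (h : (cp o d).1 = e) :
    Val o (P ++ e :: B) v [] → Val o (P ++ e :: B)
      ((.cup d, P.length + 1) :: (.cr b, P.length) :: (.cap, P.length + 1) :: v) [] := by
  simp only [Val, nx_shift, nx_shift0, fit_shift, fit_shift0]
  cases o <;> cases e <;> cases d <;> simp [nx, ins, swp, del, Fit, cp, Letter.inp] at h ⊢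

lemma rn_cup0 {o : Bool} {u : Word} {P B : List Bool} (h : rn o [] u = P ++ B) (d : Bool) :
    rn o [] (u ++ [(.cup d, P.length)]) = P ++ (cp o d).1 :: (cp o d).2 :: B := by
  rw [rn_snoc, h, nx_shift0]; simp [nx, ins]

lemma rn_cup1 {o : Bool} {u : Word} {P B : List Bool} {e : Bool} (h : rn o [] u = P ++ e :: B)
    (d : Bool) :
    rn o [] (u ++ [(.cup d, P.length + 1)]) = P ++ e :: (cp o d).1 :: (cp o d).2 :: B := by
  rw [rn_snoc, h, nx_shift]; simp [nx, ins]

lemma TT (a : ℤ) : (T a : L2) * T (-a) = 1 := by rw [← T_add]; simp

/-! Skein polynomial. -/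

noncomputable def QP (P : Word → L2) (w : Word) : L2 := T (-writhe w) * P w

variable {P : Word → L2}

lemma writhe_append (u v : Word) : writhe (u ++ v) = writhe u + wr (rn true [] u) v :=
  wr_append [] u v

lemma IsHomfly.mv (h : IsHomfly P) (u v : Word) {x y : Word} (hm : Move x y)
    (hv : V true (u ++ (x ++ v))) : P (u ++ (x ++ v)) = P (u ++ (y ++ v)) := by
  simpa using h.move u v x y hm (by simpa using val_true.1 hv)

lemma IsHomfly.sys (h : IsHomfly P) : Sys true (QP P) where
  mv u v x y hm hv := by
    rw [QP, QP, h.mv u v (.reg hm) hv, writhe_append, writhe_append,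
      (rmove_fwd hm (allT_ctx u) hv.tail).2 rfl]
  cu u v d b i hv := by
    have h1 := h.mv u v (.r1Cup d b i) hv
    obtain ⟨P', B, hE, rfl⟩ := split0 (rn true [] u) i (by
      simpa [Letter.inp] using val_len hv.tail)
    simp only [List.cons_append, List.nil_append] at h1
    rw [QP, QP, h1, writhe_append, writhe_append, hE, (curlCup_core (o := true) P' B d b v []).2,
      ← mul_assoc, ← T_add]
    congr 2; split_ifs <;> ring
  ca u v b i hv := by
    have h1 := h.mv u v (.r1Cap b i) hv
    have h2 := hv.curlCap.tail
    obtain ⟨P', a, c, B, hE, rfl⟩ := split2 (rn true [] u) i (by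
      simpa [Letter.inp] using val_len hv.tail)
    simp only [List.cons_append, List.nil_append] at h1
    rw [hE] at h2
    rw [QP, QP, h1, writhe_append, writhe_append, hE,
      (curlCap_core (o := true) P' B a c b v []).2 h2, ← mul_assoc, ← T_add]
    congr 2; split_ifs <;> ring
  circle d := by simp [QP, h.circle, writhe, wr, sgn]

lemma IsHomfly.skQ (h : IsHomfly P) (u v : Word) (P' B : List Bool) (e : Bool) (i : ℕ)
    (hE : rn true [] u = P' ++ e :: e :: B) (hi : i = P'.length)
    (hv : V true (u ++ (.cr true, i) :: v)) :
    V true (u ++ v) ∧ QP P (u ++ (.cr true, i) :: v) =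
      QP P (u ++ (.cr false, i) :: v) + C (T 1) * QP P (u ++ v) := by
  subst hi
  have h0 := hv.tail
  rw [hE] at h0
  refine ⟨hv.swap (by rw [hE]; exact (same_core P' B e true v).1.1 h0), ?_⟩
  have h1 := h.skein u v P'.length (val_true.1 hv) (by
    have a1 := getD_shift P' (e :: e :: B) 1
    rw [← rn_true, hE, a1]; simp)
  simp only [QP, writhe_append, hE, (same_core (o := true) P' B e _ v).2, if_true,
    Bool.false_eq_true, if_false]
  generalize wr (P' ++ e :: e :: B) v = k
  rw [show -(writhe u + (1 + k)) = -(writhe u + k) + -1 by ring,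
    show -(writhe u + (-1 + k)) = -(writhe u + k) + 1 by ring, T_add, T_add]
  linear_combination (T (-(writhe u + k))) * h1

theorem IsHomfly.low (h : IsHomfly P) (w : Word) (hw : Front w) : Good 0 true (QP P) w := by
  refine (rules_good h.sys 0 (-1) ?_ ?_).all w hw
  · intro u v d m hm hv
    obtain ⟨P', e, B, hE, rfl⟩ := split1 (rn true [] u) m hm
    have h0 := hv.tail
    rw [hE] at h0
    by_cases hd : (cp true d).2 = e
    · left
      have v1 : ∀ b, V true (u ++ (.cup d, P'.length) :: (.cr b, P'.length + 1) ::
          (.cap, P'.length) :: v) :=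
        fun b => hv.swap (by rw [hE]; exact kinkUp_core P' B e d b v hd h0)
      have h1 := (h.skQ (u ++ [(.cup d, P'.length)]) ((.cap, P'.length) :: v)
        (P' ++ [(cp true d).1]) B e (P'.length + 1) (by rw [rn_cup0 hE, hd]; simp) (by simp)
        (by simpa using v1 true)).2
      simp only [List.append_assoc, List.cons_append, List.nil_append] at h1
      rw [(h.sys.kinkUp u v d true _ (v1 true)).2, (h.sys.kinkUp u v d false _ (v1 false)).2] at h1
      simp only [if_true, Bool.false_eq_true, if_false] at h1
      rw [map_zero, map_neg, map_one]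
      linear_combination (-T 1) * h1 + QP P (u ++ v) * TT 1
    · right
      have hd' : (cp true d).1 = e := by revert hd; cases d <;> cases e <;> simp [cp]
      have v1 : ∀ b, V true (u ++ (.cup d, P'.length + 1) :: (.cr b, P'.length) ::
          (.cap, P'.length + 1) :: v) :=
        fun b => hv.swap (by rw [hE]; exact kinkDn_core P' B e d b v hd' h0)
      have h1 := (h.skQ (u ++ [(.cup d, P'.length + 1)]) ((.cap, P'.length + 1) :: v)
        P' ((cp true d).2 :: B) e P'.length (by rw [rn_cup1 hE, hd']) rfl
        (by simpa using v1 true)).2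
      simp only [List.append_assoc, List.cons_append, List.nil_append] at h1
      rw [(h.sys.kinkDn u v d true _ (v1 true)).2, (h.sys.kinkDn u v d false _ (v1 false)).2] at h1
      simp only [if_true, Bool.false_eq_true, if_false] at h1
      rw [map_zero, map_neg, map_one]
      linear_combination (-T 1) * h1 + QP P (u ++ v) * TT 1
  · intro u v d m hv gC gD
    have key : V true (u ++ U d (m + 1) :: X m :: v) →
        (Low 0 (Y (QP P) (u ++ U d (m + 1) :: X m :: v)) (ev true (u ++ U d (m + 1) :: X m :: v)) ↔
        Low 0 (Y (QP P) (u ++ U d m :: X (m + 1) :: v))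
          (ev true (u ++ U d m :: X (m + 1) :: v))) := by
      intro vA
      have vB := V.slide.1 vA
      obtain ⟨P', e, B, hE, rfl⟩ := split1 (rn true [] u) m (by
        simpa [U, Letter.inp] using val_len vA.tail)
      have he := ev_sk u v d P'.length hv P' B e hE rfl
      by_cases hd : (cp true d).2 = e
      · have hd' : e ≠ (cp true d).1 := by revert hd; cases d <;> cases e <;> simp [cp]
        rw [if_pos hd, if_neg hd', zero_mul, add_zero] at he
        have h1 := h.skQ (u ++ [(.cup d, P'.length)]) v
          (P' ++ [(cp true d).1]) B e (P'.length + 1) (by rw [rn_cup0 hE, hd]; simp) (by simp)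
          (by simpa [U, X] using vB)
        simp only [List.append_assoc, List.cons_append, List.nil_append] at h1
        have h2 := (h.sys.slF u v d true P'.length vA).2
        have h3 := (gD h1.1 (by simp)).cmul (T 1)
        have h4 : Y (QP P) (u ++ U d P'.length :: X (P'.length + 1) :: v) =
            Y (QP P) (u ++ U d (P'.length + 1) :: X P'.length :: v) +
              C (T 1) * Y (QP P) (u ++ U d P'.length :: v) := by
          simp only [Y, cups_append, cups_U, cups_X]
          simp only [U, X]
          rw [h1.2, h2]; simp only [Bool.not_true]; ring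
        rw [h4, ← he]
        exact ⟨fun a => a.add h3, fun a => by simpa using a.add h3.neg⟩
      · have hd' : e = (cp true d).1 := by revert hd; cases d <;> cases e <;> simp [cp]
        rw [if_neg hd, if_pos hd', zero_mul, add_zero] at he
        have h1 := h.skQ (u ++ [(.cup d, P'.length + 1)]) v
          P' ((cp true d).2 :: B) e P'.length (by rw [rn_cup1 hE, ← hd']) rfl
          (by simpa [U, X] using vA)
        simp only [List.append_assoc, List.cons_append, List.nil_append] at h1
        have h2 := (h.sys.slB u v d true P'.length vB).2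
        have h3 := (gC h1.1 (by simp)).cmul (T 1)
        have h4 : Y (QP P) (u ++ U d (P'.length + 1) :: X P'.length :: v) =
            Y (QP P) (u ++ U d P'.length :: X (P'.length + 1) :: v) +
              C (T 1) * Y (QP P) (u ++ U d (P'.length + 1) :: v) := by
          simp only [Y, cups_append, cups_U, cups_X]
          simp only [U, X]
          rw [h1.2, h2]; simp only [Bool.not_true]; ring
        rw [h4, he]
        exact ⟨fun a => by simpa using a.add h3.neg, fun a => a.add h3⟩
    exact ⟨fun g vB _ => (key (V.slide.2 vB)).1 (g (V.slide.2 vB) (by simp)),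
      fun g vA _ => (key vA).2 (g (V.slide.1 vA) (by simp))⟩

/-! Kauffman polynomial. -/

noncomputable def QK (K : Word → L2) (w : Word) : L2 := invert (K w)

variable {K : Word → L2}

lemma IsKauffman.sys (h : IsKauffman K) : Sys false (QK K) where
  mv u v x y hm hv := by
    have := h.move u v x y hm (by simpa using val_false.1 hv)
    simp only [List.append_assoc] at this
    rw [QK, QK, this]
  cu u v d b i hv := by
    rw [QK, QK, h.curlCup u v d b i (val_false.1 hv), h.flag u v d i, map_mul, invert_T]
    congr 2; split_ifs <;> simp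
  ca u v b i hv := by
    rw [QK, QK, h.curlCap u v b i (val_false.1 hv), map_mul, invert_T]
    congr 2; split_ifs <;> simp
  circle d := by
    have h1 := h.flag [] [(.cap, 0)] true 0
    have h2 := h.circle
    simp only [List.nil_append, Bool.not_true] at h1
    cases d
    · rw [QK, ← h1, h2, map_one]
    · rw [QK, h2, map_one]

lemma capcup_core (P B : List Bool) (v : Word) :
    Val false (P ++ true :: true :: B) v [] →
      Val false (P ++ true :: true :: B) ((.cap, P.length) :: (.cup true, P.length) :: v) [] := by
  simp only [Val, nx_shift0, fit_shift0]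
  simp [nx, ins, del, Fit, cp, Letter.inp]

lemma IsKauffman.skQ (h : IsKauffman K) (u v : Word) (i : ℕ)
    (hv : V false (u ++ (.cr true, i) :: v)) :
    V false (u ++ v) ∧ V false (u ++ (.cap, i) :: (.cup true, i) :: v) ∧
    QK K (u ++ (.cr true, i) :: v) + QK K (u ++ (.cr false, i) :: v) =
      C (T 1) * (QK K (u ++ v) + QK K (u ++ (.cap, i) :: (.cup true, i) :: v)) := by
  have h0 := hv.tail
  obtain ⟨P', a, b, B, hE, rfl⟩ := split2 (rn false [] u) i (by
    simpa [Letter.inp] using val_len h0)
  have hT := allT_ctx u rfl
  rw [hE] at hT h0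
  obtain rfl : a = true := hT a (by simp)
  obtain rfl : b = true := hT b (by simp)
  have h1 := (same_core P' B true true v).1.1 h0
  refine ⟨hv.swap (by rw [hE]; exact h1), hv.swap (by rw [hE]; exact capcup_core P' B v h1), ?_⟩
  simp only [QK]
  rw [← map_add, h.skein u v _ (val_false.1 hv), map_mul, map_add, invert_C]

lemma IsKauffman.flagQ (h : IsKauffman K) (u v : Word) (d : Bool) (i : ℕ) :
    QK K (u ++ (.cup true, i) :: v) = QK K (u ++ (.cup d, i) :: v) := by
  cases d
  · rw [QK, QK, h.flag u v true i]; rfl
  · rfl

theorem IsKauffman.low (h : IsKauffman K) (w : Word) (hw : Front w) : Good 2 false (QK K) w := by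
  refine (rules_good h.sys (-T 1) 1 ?_ ?_).all w hw
  · intro u v d m hm hv
    left
    obtain ⟨P', e, B, hE, rfl⟩ := split1 (rn false [] u) m hm
    have h0 := hv.tail
    have hT := allT_ctx u rfl
    rw [hE] at h0 hT
    have hd : (cp false d).2 = e := by rw [allT_mid hT]; rfl
    have v1 : ∀ b, V false (u ++ (.cup d, P'.length) :: (.cr b, P'.length + 1) ::
        (.cap, P'.length) :: v) :=
      fun b => hv.swap (by rw [hE]; exact kinkUp_core P' B e d b v hd h0)
    have h1 := h.skQ (u ++ [(.cup d, P'.length)]) ((.cap, P'.length) :: v) (P'.length + 1)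
      (by simpa using v1 true)
    simp only [List.append_assoc, List.cons_append, List.nil_append] at h1
    obtain ⟨-, v2, h1⟩ := h1
    have h2 := ((h.sys.fwd u ((.cup true, P'.length + 1) :: (.cap, P'.length) :: v)
      (.zag d P'.length)).trans1 (h.sys.fwd u v (.zig true P'.length))) v2
    simp only [List.cons_append, List.nil_append, one_mul] at h2
    rw [(h.sys.kinkUp u v d true _ (v1 true)).2, (h.sys.kinkUp u v d false _ (v1 false)).2,
      h2.2] at h1
    simp only [if_true, Bool.false_eq_true, if_false] at h1
    rw [map_neg, map_one]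
    linear_combination (-T 1) * h1 + QK K (u ++ v) * TT 1
  · intro u v d m hv gC gD
    have key : V false (u ++ U d (m + 1) :: X m :: v) →
        (Low 2 (Y (QK K) (u ++ U d (m + 1) :: X m :: v))
          (ev false (u ++ U d (m + 1) :: X m :: v)) ↔
        Low 2 (Y (QK K) (u ++ U d m :: X (m + 1) :: v))
          (ev false (u ++ U d m :: X (m + 1) :: v))) := by
      intro vA
      have vB := V.slide.1 vA
      obtain ⟨P', e, B, hE, rfl⟩ := split1 (rn false [] u) m (by
        simpa [U, Letter.inp] using val_len vA.tail)
      have he := ev_sk u v d P'.length hv P' B e hE rfl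
      have hT := allT_ctx u rfl
      rw [hE] at hT
      obtain rfl : e = true := allT_mid hT
      rw [if_pos (by rfl), if_pos (by rfl)] at he
      have h1 := h.skQ (u ++ [(.cup d, P'.length + 1)]) v P'.length (by simpa [U, X] using vA)
      simp only [List.append_assoc, List.cons_append, List.nil_append] at h1
      obtain ⟨vC, v2, h1⟩ := h1
      have h2 := (h.sys.slB u v d true P'.length vB).2
      have h5 := h.sys.fwd u ((.cup true, P'.length) :: v) (.zig d P'.length) v2
      simp only [List.cons_append, List.nil_append, one_mul] at h5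
      have vD : V false (u ++ U d P'.length :: v) := by
        refine vA.swap ?_
        have := h5.1.tail
        simpa [Val, Fit, nx, U, cp, Letter.inp] using this
      have h3 := ((gC vC (by simp)).cmul (T 1)).add ((gD vD (by simp)).cmul (T 1))
      have h4 : Y (QK K) (u ++ U d (P'.length + 1) :: X P'.length :: v) +
            Y (QK K) (u ++ U d P'.length :: X (P'.length + 1) :: v) =
          C (T 1) * Y (QK K) (u ++ U d (P'.length + 1) :: v) +
            C (T 1) * Y (QK K) (u ++ U d P'.length :: v) := by
        simp only [Y, cups_append, cups_U, cups_X]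
        simp only [U, X]
        rw [h5.2, h.flagQ u v d] at h1
        rw [h2]; simp only [Bool.not_true]
        linear_combination (kap (cups u + (cups v + 1))) * h1
      rw [← h4] at h3
      constructor
      · intro a
        have a1 := h3.add a.neg
        rw [add_neg_cancel_comm] at a1
        refine a1.modc ⟨T 1 * ev false (u ++ U d P'.length :: v) -
          ev false (u ++ U d P'.length :: X (P'.length + 1) :: v), ?_⟩
        linear_combination -he
      · intro a
        have a1 := h3.add a.neg
        rw [add_neg_cancel_right] at a1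
        refine a1.modc ⟨T 1 * ev false (u ++ U d (P'.length + 1) :: v) -
          ev false (u ++ U d (P'.length + 1) :: X P'.length :: v), ?_⟩
        linear_combination he
    exact ⟨fun g vB _ => (key (V.slide.2 vB)).1 (g (V.slide.2 vB) (by simp)),
      fun g vA _ => (key vA).2 (g (V.slide.1 vA) (by simp))⟩

end Pool.Agent.Lib.MP_3a4f2f_gt
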