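import Pool.Agent.Lib.MP_3a4f2f_gt.Back

/-! Least exponents of the two polynomials on an alternating front. -/

namespace Pool.Agent.Lib.MP_3a4f2f_gt

open LaurentPolynomial

lemma minExp_eq_iff {p : L2} {m : ℤ} (h : ∀ j < m, p.coeff j = 0) :
    minExp p = (m : WithTop ℤ) ↔ p.coeff m ≠ 0 := by
  constructor
  · intro e
    exact Finsupp.mem_support_iff.1 (Finset.mem_of_min e)
  · intro e
    refine le_antisymm (Finset.min_le (Finsupp.mem_support_iff.2 e)) ?_
    refine Finset.le_min fun j hj => ?_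
    rw [WithTop.coe_le_coe]
    by_contra hlt
    exact Finsupp.mem_support_iff.1 hj (h j (by omega))

lemma coeff_kap (n k j : ℤ) (p : L2) :
    (kap n * (T k * p)).coeff j = T (n - 1) * p.coeff (j - (n - 1) - k) := by
  rw [kap, mul_assoc, coeff_T_mul, coeff_C_mul, coeff_T_mul]

lemma T_mul_eq_zero {n : ℤ} {r : L1} : T n * r = 0 ↔ r = 0 := (isUnit_T n).mul_right_eq_zero

lemma AltFront.front {w : Word} (h : AltFront w) : Front w := by
  rintro ⟨g, i⟩ hg rfl
  simpa using (h _ hg).1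

lemma low_min {c r : L1} {p : L2} {n k : ℤ} (h : Low c (kap n * (T k * p)) r) :
    (∀ j < 1 - n - k, p.coeff j = 0) ∧ c ∣ T (n - 1) * p.coeff (1 - n - k) - r := by
  refine ⟨fun j hj => ?_, ?_⟩
  · have := h.1 (j + (n - 1) + k) (by omega)
    rw [coeff_kap, T_mul_eq_zero] at this
    rwa [show j + (n - 1) + k - (n - 1) - k = j by ring] at this
  · have := h.2
    rwa [coeff_kap, show 0 - (n - 1) - k = 1 - n - k by ring] at this

theorem IsKauffman.minExp_alt {K : Word → L2} (hK : IsKauffman K) {w : Word} (hv : Valid [] w [])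
    (hne : w ≠ []) (ha : AltFront w) :
    minExp (kauffInv K w) = ((1 - cups w - -writhe w : ℤ) : WithTop ℤ) := by
  have h1 := hK.low w ha.front (val_false.2 (val_weaken (val_true.2 hv))) hne
  have e : QK K w = T (-writhe w) * kauffInv K w := by
    rw [QK, kauffInv, map_mul, invert_T, ← mul_assoc, TT, one_mul]
  rw [Y, e] at h1
  obtain ⟨h2, h3⟩ := low_min h1
  rw [minExp_eq_iff h2]
  intro h0
  rw [h0, mul_zero, zero_sub, dvd_neg] at h3
  exact ev_false_not_dvd w ha hv h3

theorem IsHomfly.minExp_alt {P : Word → L2} (hP : IsHomfly P) {w : Word} (hv : Valid [] w [])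
    (hne : w ≠ []) (ha : AltFront w) :
    minExp (P w) = ((1 - cups w - -writhe w : ℤ) : WithTop ℤ) ↔ ∀ a b, Even (negCount w a b) := by
  have h1 := hP.low w ha.front (val_true.2 hv) hne
  rw [Y, QP] at h1
  obtain ⟨h2, h3⟩ := low_min h1
  rw [minExp_eq_iff h2, ← ev_true_ne_zero_iff w ha hv, ← sub_eq_zero.1 (zero_dvd_iff.1 h3), Ne, Ne,
    T_mul_eq_zero]

end Pool.Agent.Lib.MP_3a4f2f_gt
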