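import Pool.Agent.Lib.MP_3a4f2f_gt.Defs

/-! Rutherford's reduction of fronts: push the last cup to the right. -/

namespace Pool.Agent.Lib.MP_3a4f2f_gt

def X (i : ℕ) : Letter × ℕ := (.cr true, i)
def U (d : Bool) (i : ℕ) : Letter × ℕ := (.cup d, i)
def A (i : ℕ) : Letter × ℕ := (.cap, i)

def NoCup (v : Word) : Prop := ∀ g ∈ v, ∀ d, g.1 ≠ .cup d
def Front (w : Word) : Prop := ∀ g ∈ w, g.1 ≠ .cr false

@[simp] lemma noCup_nil : NoCup [] := by simp [NoCup]
@[simp] lemma noCup_append {u v : Word} : NoCup (u ++ v) ↔ NoCup u ∧ NoCup v := by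
  simp only [NoCup, List.mem_append]; constructor
  · intro h; exact ⟨fun g hg => h g (Or.inl hg), fun g hg => h g (Or.inr hg)⟩
  · rintro ⟨h1, h2⟩ g (hg | hg); exacts [h1 g hg, h2 g hg]
lemma noCup_cons {g : Letter × ℕ} {v : Word} :
    NoCup (g :: v) ↔ (∀ d, g.1 ≠ .cup d) ∧ NoCup v := by simp [NoCup]
@[simp] lemma noCup_X {i : ℕ} {v : Word} : NoCup (X i :: v) ↔ NoCup v := by
  simp [noCup_cons, X]
@[simp] lemma noCup_A {i : ℕ} {v : Word} : NoCup (A i :: v) ↔ NoCup v := by
  simp [noCup_cons, A]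
@[simp] lemma front_nil : Front [] := by simp [Front]
@[simp] lemma front_append {u v : Word} : Front (u ++ v) ↔ Front u ∧ Front v := by
  simp only [Front, List.mem_append]; constructor
  · intro h; exact ⟨fun g hg => h g (Or.inl hg), fun g hg => h g (Or.inr hg)⟩
  · rintro ⟨h1, h2⟩ g (hg | hg); exacts [h1 g hg, h2 g hg]
lemma front_cons {g : Letter × ℕ} {v : Word} :
    Front (g :: v) ↔ g.1 ≠ .cr false ∧ Front v := by simp [Front]
@[simp] lemma front_X {i : ℕ} {v : Word} : Front (X i :: v) ↔ Front v := by simp [front_cons, X]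
@[simp] lemma front_A {i : ℕ} {v : Word} : Front (A i :: v) ↔ Front v := by simp [front_cons, A]
@[simp] lemma front_U {d : Bool} {i : ℕ} {v : Word} : Front (U d i :: v) ↔ Front v := by
  simp [front_cons, U]

/-- Number of pieces that are not caps. -/
def sz (w : Word) : ℕ := w.countP (fun g => g.1 ≠ .cap)

@[simp] lemma sz_nil : sz [] = 0 := rfl
@[simp] lemma sz_append (u v : Word) : sz (u ++ v) = sz u + sz v := by simp [sz]
@[simp] lemma sz_X (i : ℕ) (v : Word) : sz (X i :: v) = sz v + 1 := by simp [sz, X]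
@[simp] lemma sz_U (d : Bool) (i : ℕ) (v : Word) : sz (U d i :: v) = sz v + 1 := by simp [sz, U]
@[simp] lemma sz_A (i : ℕ) (v : Word) : sz (A i :: v) = sz v := by simp [sz, A]

def dn : ℕ → ℕ → Word
  | _, 0 => []
  | s, k + 1 => X s :: dn (s + 1) k

def asc (m : ℕ) : ℕ → Word
  | 0 => []
  | k + 1 => X (m + k) :: asc m k

lemma dn_add (s a b : ℕ) : dn s (a + b) = dn s a ++ dn (s + a) b := by
  induction a generalizing s with
  | zero => simp [dn]
  | succ a ih =>
    rw [show a + 1 + b = (a + b) + 1 by omega]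
    simp only [dn, List.cons_append, ih]
    rw [show s + 1 + a = s + (a + 1) by omega]

lemma dn_succ (s k : ℕ) : dn s (k + 1) = dn s k ++ [X (s + k)] := by
  rw [dn_add]; simp [dn]

lemma mem_dn {s k : ℕ} {g : Letter × ℕ} (h : g ∈ dn s k) : ∃ j, g = X j ∧ s ≤ j ∧ j < s + k := by
  induction k generalizing s with
  | zero => simp [dn] at h
  | succ k ih =>
    simp only [dn, List.mem_cons] at h
    rcases h with h | h
    · exact ⟨s, h, le_rfl, by omega⟩
    · obtain ⟨j, h1, h2, h3⟩ := ih h
      exact ⟨j, h1, by omega, by omega⟩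

lemma mem_asc {m k : ℕ} {g : Letter × ℕ} (h : g ∈ asc m k) :
    ∃ j, g = X j ∧ m ≤ j ∧ j < m + k := by
  induction k with
  | zero => simp [asc] at h
  | succ k ih =>
    simp only [asc, List.mem_cons] at h
    rcases h with h | h
    · exact ⟨m + k, h, by omega, by omega⟩
    · obtain ⟨j, h1, h2, h3⟩ := ih h
      exact ⟨j, h1, by omega, by omega⟩

@[simp] lemma sz_dn (s k : ℕ) : sz (dn s k) = k := by
  induction k generalizing s with
  | zero => simp [dn]
  | succ k ih => simp [dn, ih]
@[simp] lemma sz_asc (m k : ℕ) : sz (asc m k) = k := by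
  induction k with
  | zero => simp [asc]
  | succ k ih => simp [asc, ih]
@[simp] lemma front_dn (s k : ℕ) : Front (dn s k) := by
  intro g hg; obtain ⟨j, rfl, -⟩ := mem_dn hg; simp [X]
@[simp] lemma front_asc (s k : ℕ) : Front (asc s k) := by
  intro g hg; obtain ⟨j, rfl, -⟩ := mem_asc hg; simp [X]
@[simp] lemma noCup_dn (s k : ℕ) : NoCup (dn s k) := by
  intro g hg; obtain ⟨j, rfl, -⟩ := mem_dn hg; simp [X]
@[simp] lemma noCup_asc (s k : ℕ) : NoCup (asc s k) := by
  intro g hg; obtain ⟨j, rfl, -⟩ := mem_asc hg; simp [X]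

structure Rules (G : Word → Prop) : Prop where
  nocup : ∀ w, NoCup w → G w
  opn : ∀ u d m s k, G (u ++ U d m :: dn s k)
  cXX : ∀ u v i j, NoCup v → i + 2 ≤ j →
    (G (u ++ X i :: X j :: v) ↔ G (u ++ X j :: X i :: v))
  cXA1 : ∀ u v i j, NoCup v → i + 2 ≤ j → G (u ++ A j :: X i :: v) → G (u ++ X i :: A j :: v)
  cXA2 : ∀ u v i j, NoCup v → j ≤ i → G (u ++ A j :: X i :: v) → G (u ++ X (i + 2) :: A j :: v)
  cUX1 : ∀ u v d m i, NoCup v → i + 2 ≤ m →
    G (u ++ X i :: U d m :: v) → G (u ++ U d m :: X i :: v)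
  cUX2 : ∀ u v d m i, NoCup v → m ≤ i →
    G (u ++ X i :: U d m :: v) → G (u ++ U d m :: X (i + 2) :: v)
  cUA1 : ∀ u v d m i, NoCup v → i ≤ m →
    G (u ++ A i :: U d m :: v) → G (u ++ U d (m + 2) :: A i :: v)
  cUA2 : ∀ u v d m i, NoCup v → m ≤ i →
    G (u ++ A i :: U d m :: v) → G (u ++ U d m :: A (i + 2) :: v)
  braid : ∀ u v i, NoCup v → G (u ++ X (i + 1) :: X i :: X (i + 1) :: v) →
    G (u ++ X i :: X (i + 1) :: X i :: v)
  l2a : ∀ u v d m, NoCup v → G (u ++ U d (m + 1) :: v) → G (u ++ U d m :: X (m + 1) :: X m :: v)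
  l2b : ∀ u v d m, NoCup v → G (u ++ U d m :: v) → G (u ++ U d (m + 1) :: X m :: X (m + 1) :: v)
  l2c : ∀ u v i, NoCup v → G (u ++ A (i + 1) :: v) → G (u ++ X i :: X (i + 1) :: A i :: v)
  l1 : ∀ u v d m, NoCup v → G (u ++ v) → G (u ++ U d m :: X (m + 1) :: A m :: v)
  k1 : ∀ u v d m, NoCup v → G (u ++ U (!d) m :: v) → G (u ++ U d m :: X m :: v)
  k2 : ∀ u v m, NoCup v → G (u ++ A m :: v) → G (u ++ X m :: A m :: v)
  z1 : ∀ u v d m, NoCup v → G (u ++ v) → G (u ++ U d (m + 1) :: A m :: v)
  z2 : ∀ u v d m, NoCup v → G (u ++ v) → G (u ++ U d m :: A (m + 1) :: v)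
  eye : ∀ u v d m, NoCup v → G (u ++ v) → G (u ++ U d m :: A m :: v)
  sk : ∀ u v d m, NoCup v → G (u ++ U d (m + 1) :: v) → G (u ++ U d m :: v) →
    (G (u ++ U d (m + 1) :: X m :: v) ↔ G (u ++ U d m :: X (m + 1) :: v))

variable {G : Word → Prop}

lemma Rules.passX (h : Rules G) (j : ℕ) (xs : Word)
    (hx : ∀ g ∈ xs, ∃ i, g = X i ∧ (i + 2 ≤ j ∨ j + 2 ≤ i)) (u v : Word) (hv : NoCup v) :
    G (u ++ (xs ++ X j :: v)) ↔ G (u ++ X j :: (xs ++ v)) := by
  induction xs generalizing u with
  | nil => simp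
  | cons g xs ih =>
    obtain ⟨i, rfl, hi⟩ := hx g (by simp)
    have hxs : NoCup xs := by
      intro g hg; obtain ⟨i, rfl, -⟩ := hx g (by simp [hg]); simp [X]
    have h1 := ih (fun g hg => hx g (by simp [hg])) (u ++ [X i])
    simp only [List.append_assoc, List.cons_append, List.nil_append] at h1 ⊢
    rw [h1]
    rcases hi with hi | hi
    · exact h.cXX u _ i j (by simp [hxs, hv]) hi
    · exact (h.cXX u _ j i (by simp [hxs, hv]) hi).symm

lemma Rules.passA1 (h : Rules G) (j : ℕ) (xs : Word)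
    (hx : ∀ g ∈ xs, ∃ i, g = X i ∧ i + 2 ≤ j) (u v : Word) (hv : NoCup v) :
    G (u ++ A j :: (xs ++ v)) → G (u ++ (xs ++ A j :: v)) := by
  induction xs generalizing u with
  | nil => simp
  | cons g xs ih =>
    obtain ⟨i, rfl, hi⟩ := hx g (by simp)
    have hxs : NoCup xs := by
      intro g hg; obtain ⟨i, rfl, -⟩ := hx g (by simp [hg]); simp [X]
    have h1 := ih (fun g hg => hx g (by simp [hg])) (u ++ [X i])
    simp only [List.append_assoc, List.cons_append, List.nil_append] at h1 ⊢
    intro h2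
    exact h1 (h.cXA1 u _ i j (by simp [hxs, hv]) hi h2)

lemma Rules.passA2 (h : Rules G) (j s k : ℕ) (hj : j ≤ s) (u v : Word) (hv : NoCup v) :
    G (u ++ A j :: (dn s k ++ v)) → G (u ++ (dn (s + 2) k ++ A j :: v)) := by
  induction k generalizing u s with
  | zero => simp [dn]
  | succ k ih =>
    have h1 := ih (s + 1) (by omega) (u ++ [X (s + 2)])
    simp only [List.append_assoc, List.cons_append, List.nil_append, dn] at h1 ⊢
    intro h2
    rw [show s + 2 + 1 = s + 1 + 2 by omega]
    exact h1 (h.cXA2 u _ s j (by simp [hv]) hj h2)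

lemma Rules.level (h : Rules G) (N : ℕ) (IH : ∀ w, Front w → sz w < N → G w)
    (u : Word) (hu : Front u) (d : Bool) (m k : ℕ) (v : Word) (hv : NoCup v) (hf : Front v)
    (hN : sz u + 1 + k + sz v ≤ N) :
    G (u ++ U d m :: (dn (m + 1) k ++ v)) ↔ G (u ++ U d (m + k) :: (asc m k ++ v)) := by
  induction k generalizing v with
  | zero => simp [dn, asc]
  | succ k ih =>
    rw [dn_succ, List.append_assoc]
    have h1 := ih (X (m + 1 + k) :: v) (by simp [hv]) (by simp [hf]) (by simp; omega)
    simp only [List.cons_append, List.nil_append] at h1 ⊢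
    rw [h1]
    have h2 := h.passX (m + 1 + k) (asc m k) (fun g hg => by
      obtain ⟨j, rfl, _, _⟩ := mem_asc hg; exact ⟨j, rfl, by omega⟩) (u ++ [U d (m + k)]) v hv
    simp only [List.append_assoc, List.cons_append, List.nil_append] at h2
    rw [h2, show m + 1 + k = m + k + 1 by omega]
    have h3 := h.sk u (asc m k ++ v) d (m + k) (by simp [hv])
      (IH _ (by simp [hu, hf]) (by simp; omega)) (IH _ (by simp [hu, hf]) (by simp; omega))
    rw [← h3]
    simp [asc, add_assoc]

lemma Rules.push (h : Rules G) (N : ℕ) (IH : ∀ w, Front w → sz w < N → G w)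
    (v : Word) (hv : NoCup v) (hf : Front v) (u : Word) (hu : Front u) (d : Bool) (m k : ℕ)
    (hN : sz u + 1 + k + sz v ≤ N) : G (u ++ U d m :: (dn (m + 1) k ++ v)) := by
  induction v generalizing u d m k with
  | nil => simpa using h.opn u d m (m + 1) k
  | cons g v ih =>
    obtain ⟨g, i⟩ := g
    have hv' : NoCup v := (noCup_cons.1 hv).2
    have hf' : Front v := (front_cons.1 hf).2
    have ih := ih hv' hf'
    rcases g with d' | _ | b
    · exact absurd rfl ((noCup_cons.1 hv).1 d')
    · -- a cap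
      change G (u ++ U d m :: (dn (m + 1) k ++ A i :: v))
      change sz u + 1 + k + sz (A i :: v) ≤ N at hN
      simp only [sz_A] at hN
      rcases (by omega : i + 2 ≤ m ∨ i + 1 = m ∨ (i = m ∧ k = 0) ∨ (i = m ∧ 1 ≤ k) ∨
          (m + 1 ≤ i ∧ i + 1 ≤ m + k) ∨ (m + 1 ≤ i ∧ i = m + k) ∨ i = m + k + 1 ∨ m + k + 2 ≤ i)
        with hc | hc | hc | hc | hc | hc | hc | hc
      · obtain ⟨m', rfl⟩ : ∃ m', m = m' + 2 := ⟨m - 2, by omega⟩
        have h1 := h.passA2 i (m' + 1) k (by omega) (u ++ [U d (m' + 2)]) v hv'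
        simp only [List.append_assoc, List.cons_append, List.nil_append] at h1
        rw [show m' + 2 + 1 = m' + 1 + 2 by omega]
        apply h1
        apply h.cUA1 u _ d m' i (by simp [hv']) (by omega)
        simpa using ih (u ++ [A i]) (by simp [hu]) d m' k (by simp; omega)
      · subst hc
        have h1 := h.passA2 i i k le_rfl (u ++ [U d (i + 1)]) v hv'
        simp only [List.append_assoc, List.cons_append, List.nil_append] at h1
        apply h1
        exact h.z1 u _ d i (by simp [hv']) (IH _ (by simp [hu, hf']) (by simp; omega))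
      · obtain ⟨rfl, rfl⟩ := hc
        exact h.eye u v d i hv' (IH _ (by simp [hu, hf']) (by simp; omega))
      · obtain ⟨rfl, hk⟩ := hc
        obtain ⟨k', rfl⟩ : ∃ k', k = k' + 1 := ⟨k - 1, by omega⟩
        have h1 := h.passA2 i i k' le_rfl (u ++ [U d i, X (i + 1)]) v hv'
        simp only [List.append_assoc, List.cons_append, List.nil_append, dn] at h1 ⊢
        apply h1
        exact h.l1 u _ d i (by simp [hv']) (IH _ (by simp [hu, hf']) (by simp; omega))
      · obtain ⟨a, rfl⟩ : ∃ a, i = m + 1 + a := ⟨i - (m + 1), by omega⟩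
        obtain ⟨b, rfl⟩ : ∃ b, k = a + (b + 1 + 1) := ⟨k - a - 2, by omega⟩
        have h1 := h.passA2 (m + 1 + a) (m + 1 + a) b le_rfl
          (u ++ U d m :: (dn (m + 1) a ++ [X (m + 1 + a), X (m + 1 + a + 1)])) v hv'
        rw [dn_add]
        simp only [List.append_assoc, List.cons_append, List.nil_append, dn] at h1 ⊢
        apply h1
        have h2 := h.l2c (u ++ U d m :: dn (m + 1) a) (dn (m + 1 + a) b ++ v) (m + 1 + a)
          (by simp [hv']) (IH _ (by simp [hu, hf']) (by simp; omega))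
        simpa using h2
      · obtain ⟨k', rfl⟩ : ∃ k', k = k' + 1 := ⟨k - 1, by omega⟩
        obtain rfl : i = m + 1 + k' := by omega
        rw [dn_succ]
        have h2 := h.k2 (u ++ U d m :: dn (m + 1) k') v (m + 1 + k') hv'
          (IH _ (by simp [hu, hf']) (by simp; omega))
        simpa using h2
      · subst hc
        rw [h.level N IH u hu d m k _ (by simp [hv']) (by simp [hf']) (by simp; omega)]
        have h1 := h.passA1 (m + k + 1) (asc m k) (fun g hg => by
          obtain ⟨j, rfl, _, _⟩ := mem_asc hg; exact ⟨j, rfl, by omega⟩) (u ++ [U d (m + k)]) v hv'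
        simp only [List.append_assoc, List.cons_append, List.nil_append] at h1
        apply h1
        exact h.z2 u _ d (m + k) (by simp [hv']) (IH _ (by simp [hu, hf']) (by simp; omega))
      · obtain ⟨i', rfl⟩ : ∃ i', i = i' + 2 := ⟨i - 2, by omega⟩
        have h1 := h.passA1 (i' + 2) (dn (m + 1) k) (fun g hg => by
          obtain ⟨j, rfl, _, _⟩ := mem_dn hg; exact ⟨j, rfl, by omega⟩) (u ++ [U d m]) v hv'
        simp only [List.append_assoc, List.cons_append, List.nil_append] at h1
        apply h1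
        apply h.cUA2 u _ d m i' (by simp [hv']) (by omega)
        simpa using ih (u ++ [A i']) (by simp [hu]) d m k (by simp; omega)
    · -- a crossing
      obtain rfl : b = true := by
        cases b
        · exact absurd rfl (front_cons.1 hf).1
        · rfl
      change G (u ++ U d m :: (dn (m + 1) k ++ X i :: v))
      change sz u + 1 + k + sz (X i :: v) ≤ N at hN
      simp only [sz_X] at hN
      rcases (by omega : i + 2 ≤ m ∨ i + 1 = m ∨ (i = m ∧ k = 0) ∨ (i = m ∧ 1 ≤ k) ∨
          (m + 1 ≤ i ∧ i + 1 ≤ m + k) ∨ (m + 1 ≤ i ∧ i = m + k) ∨ i = m + k + 1 ∨ m + k + 2 ≤ i)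
        with hc | hc | hc | hc | hc | hc | hc | hc
      · have h1 := h.passX i (dn (m + 1) k) (fun g hg => by
          obtain ⟨j, rfl, _, _⟩ := mem_dn hg; exact ⟨j, rfl, by omega⟩) (u ++ [U d m]) v hv'
        simp only [List.append_assoc, List.cons_append, List.nil_append] at h1
        rw [h1]
        apply h.cUX1 u _ d m i (by simp [hv']) hc
        simpa using ih (u ++ [X i]) (by simp [hu]) d m k (by simp; omega)
      · subst hc
        have h1 := h.passX i (dn (i + 1 + 1) k) (fun g hg => by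
          obtain ⟨j, rfl, _, _⟩ := mem_dn hg; exact ⟨j, rfl, by omega⟩) (u ++ [U d (i + 1)]) v hv'
        simp only [List.append_assoc, List.cons_append, List.nil_append] at h1
        rw [h1, h.sk u _ d i (by simp [hv']) (IH _ (by simp [hu, hf']) (by simp; omega))
          (IH _ (by simp [hu, hf']) (by simp; omega))]
        simpa [dn] using ih u hu d i (k + 1) (by omega)
      · obtain ⟨rfl, rfl⟩ := hc
        exact h.k1 u v d i hv' (IH _ (by simp [hu, hf']) (by simp; omega))
      · obtain ⟨rfl, hk⟩ := hc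
        obtain ⟨k', rfl⟩ : ∃ k', k = k' + 1 := ⟨k - 1, by omega⟩
        have h1 := h.passX i (dn (i + 1 + 1) k') (fun g hg => by
          obtain ⟨j, rfl, _, _⟩ := mem_dn hg; exact ⟨j, rfl, by omega⟩)
          (u ++ [U d i, X (i + 1)]) v hv'
        simp only [List.append_assoc, List.cons_append, List.nil_append, dn] at h1 ⊢
        rw [h1]
        exact h.l2a u _ d i (by simp [hv']) (IH _ (by simp [hu, hf']) (by simp; omega))
      · obtain ⟨a, rfl⟩ : ∃ a, i = m + 1 + a := ⟨i - (m + 1), by omega⟩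
        obtain ⟨b, rfl⟩ : ∃ b, k = a + (b + 1 + 1) := ⟨k - a - 2, by omega⟩
        have h0 := ih (u ++ [X (m + a)]) (by simp [hu]) d m (a + (b + 1 + 1)) (by simp; omega)
        have h1 := h.passX (m + 1 + a) (dn (m + 1 + a + 1 + 1) b) (fun g hg => by
          obtain ⟨j, rfl, _, _⟩ := mem_dn hg; exact ⟨j, rfl, by omega⟩)
          (u ++ U d m :: (dn (m + 1) a ++ [X (m + 1 + a), X (m + 1 + a + 1)])) v hv'
        have h2 := h.braid (u ++ U d m :: dn (m + 1) a) (dn (m + 1 + a + 1 + 1) b ++ v) (m + 1 + a)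
          (by simp [hv'])
        have h3 := h.passX (m + 1 + a + 1) (dn (m + 1) a) (fun g hg => by
          obtain ⟨j, rfl, _, _⟩ := mem_dn hg; exact ⟨j, rfl, by omega⟩)
          (u ++ [U d m]) (X (m + 1 + a) :: X (m + 1 + a + 1) :: (dn (m + 1 + a + 1 + 1) b ++ v))
          (by simp [hv'])
        rw [dn_add] at h0 ⊢
        simp only [List.append_assoc, List.cons_append, List.nil_append, dn] at h0 h1 h2 h3 ⊢
        rw [h1]
        apply h2
        rw [h3]
        have h4 := h.cUX2 u _ d m (m + a) (by simp [hv']) (by omega) h0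
        rwa [show m + a + 2 = m + 1 + a + 1 by omega] at h4
      · obtain ⟨k', rfl⟩ : ∃ k', k = k' + 1 := ⟨k - 1, by omega⟩
        obtain rfl : i = m + k' + 1 := by omega
        rw [h.level N IH u hu d m (k' + 1) _ (by simp [hv']) (by simp [hf']) (by simp; omega)]
        have h1 := h.passX (m + k' + 1) (asc m k') (fun g hg => by
          obtain ⟨j, rfl, _, _⟩ := mem_asc hg; exact ⟨j, rfl, by omega⟩)
          (u ++ [U d (m + k' + 1), X (m + k')]) v hv'
        simp only [List.append_assoc, List.cons_append, List.nil_append, asc] at h1 ⊢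
        rw [← add_assoc, h1]
        exact h.l2b u _ d (m + k') (by simp [hv']) (IH _ (by simp [hu, hf']) (by simp; omega))
      · subst hc
        have h0 := ih u hu d m (k + 1) (by omega)
        rw [dn_succ, show m + 1 + k = m + k + 1 by omega] at h0
        simpa using h0
      · obtain ⟨i', rfl⟩ : ∃ i', i = i' + 2 := ⟨i - 2, by omega⟩
        have h1 := h.passX (i' + 2) (dn (m + 1) k) (fun g hg => by
          obtain ⟨j, rfl, _, _⟩ := mem_dn hg; exact ⟨j, rfl, by omega⟩) (u ++ [U d m]) v hv'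
        simp only [List.append_assoc, List.cons_append, List.nil_append] at h1
        rw [h1]
        apply h.cUX2 u _ d m i' (by simp [hv']) (by omega)
        simpa using ih (u ++ [X i']) (by simp [hu]) d m k (by simp; omega)

lemma last_cup (w : Word) : NoCup w ∨ ∃ u d m v, w = u ++ U d m :: v ∧ NoCup v := by
  induction w with
  | nil => simp
  | cons g w ih =>
    rcases ih with ih | ⟨u, d, m, v, rfl, hv⟩
    · by_cases hg : ∀ d, g.1 ≠ .cup d
      · exact Or.inl (noCup_cons.2 ⟨hg, ih⟩)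
      · push Not at hg
        obtain ⟨d, hd⟩ := hg
        refine Or.inr ⟨[], d, g.2, w, ?_, ih⟩
        simp [U, ← hd]
    · exact Or.inr ⟨g :: u, d, m, v, rfl, hv⟩

theorem Rules.all (h : Rules G) (w : Word) (hw : Front w) : G w := by
  induction hN : sz w using Nat.strong_induction_on generalizing w with
  | _ N IH =>
    rcases last_cup w with hc | ⟨u, d, m, v, rfl, hv⟩
    · exact h.nocup w hc
    · simp only [front_append, front_U] at hw
      have := h.push N (fun w hw hs => IH _ hs w hw rfl) v hv hw.2 u hw.1 d m 0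
        (by simp at hN; omega)
      simpa [dn] using this

end Pool.Agent.Lib.MP_3a4f2f_gt
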