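import Pool.Agent.Lib.MP_3a4f2f_gt.Red

/-! The ruling polynomial as a transfer sum over labelled strands. -/

namespace Pool.Agent.Lib.MP_3a4f2f_gt

abbrev St : Type := List (ℕ × Bool)

/-- The first entry equal to `x` or `y` is `x`. -/
def before : List ℕ → ℕ → ℕ → Bool
  | [], _, _ => false
  | c :: C, x, y => if c = x then true else if c = y then false else before C x y

lemma before_skip {c x y : ℕ} (hx : c ≠ x) (hy : c ≠ y) (C D : List ℕ) :
    before (C ++ c :: D) x y = before (C ++ D) x y := by
  induction C with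
  | nil => simp [before, hx, hy]
  | cons a C ih => simp [before, ih]

lemma before_swap {r t x y : ℕ} (h1 : ¬(r = x ∧ t = y)) (h2 : ¬(r = y ∧ t = x)) (C D : List ℕ) :
    before (C ++ r :: t :: D) x y = before (C ++ t :: r :: D) x y := by
  induction C with
  | nil =>
    simp only [List.nil_append, before]
    by_cases a1 : r = x <;> by_cases a2 : r = y <;> by_cases a3 : t = x <;> by_cases a4 : t = y <;>
      simp_all
  | cons a C ih => simp [before, ih]

lemma before_notMem {x y : ℕ} {C : List ℕ} (hx : x ∉ C) (hy : y ∉ C) (D : List ℕ) :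
    before (C ++ D) x y = before D x y := by
  induction C with
  | nil => simp
  | cons a C ih =>
    simp only [List.mem_cons, not_or] at hx hy
    simp [before, Ne.symm hx.1, Ne.symm hy.1, ih hx.2 hy.2]

lemma before_left {x y : ℕ} {C : List ℕ} (h : x ∈ C ∨ y ∈ C) (D : List ℕ) :
    before (C ++ D) x y = before C x y := by
  induction C with
  | nil => simp at h
  | cons a C ih =>
    simp only [List.cons_append, before]
    split_ifs with h1 h2
    · rfl
    · rfl
    · apply ih; simp only [List.mem_cons] at h
      rcases h with (h | h) | (h | h)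
      exacts [absurd h.symm h1, Or.inl h, absurd h.symm h2, Or.inr h]

lemma before_total {x y : ℕ} (hxy : x ≠ y) {C : List ℕ} (h : x ∈ C ∨ y ∈ C) :
    before C x y = !before C y x := by
  induction C with
  | nil => simp at h
  | cons a C ih =>
    simp only [before]
    by_cases h1 : a = x
    · subst h1; simp [hxy]
    · by_cases h2 : a = y
      · subst h2; simp [h1]
      · simp only [h1, h2, if_false]
        apply ih; simp only [List.mem_cons] at h
        rcases h with (h | h) | (h | h)
        exacts [absurd h.symm h1, Or.inl h, absurd h.symm h2, Or.inr h]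

lemma before_trans {x y w : ℕ} {C : List ℕ} (h1 : before C x y = true)
    (h2 : before C y w = true) : before C x w = true := by
  induction C with
  | nil => simp [before] at h1
  | cons a C ih =>
    simp only [before] at h1 h2 ⊢
    by_cases a1 : a = x
    · simp [a1]
    · by_cases a2 : a = y
      · simp [a2] at h1; simp_all
      · by_cases a3 : a = w
        · simp_all
        · simp_all

lemma before_of_mem {x y : ℕ} {C : List ℕ} (hx : x ∈ C) (hy : y ∉ C) : before C x y = true := by
  induction C with
  | nil => simp at hx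
  | cons a C ih =>
    simp only [List.mem_cons, not_or] at hx hy
    simp only [before]
    by_cases a1 : a = x
    · simp [a1]
    · rcases hx with hx | hx
      · exact absurd hx.symm a1
      · simp [a1, Ne.symm hy.1, ih hx hy.2]

lemma before_map {f : ℕ → ℕ} (hf : Function.Injective f) (C : List ℕ) (x y : ℕ) :
    before (C.map f) (f x) (f y) = before C x y := by
  induction C with
  | nil => simp [before]
  | cons a C ih => simp [before, hf.eq_iff, ih]

def cp (o d : Bool) : Bool × Bool := if o then (d, !d) else (true, true)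

def lab (s : St) : List ℕ := s.map Prod.fst
def dirs (s : St) : List Bool := s.map Prod.snd

@[simp] lemma lab_nil : lab [] = [] := rfl
@[simp] lemma lab_cons (p : ℕ × Bool) (s : St) : lab (p :: s) = p.1 :: lab s := rfl
@[simp] lemma lab_append (s t : St) : lab (s ++ t) = lab s ++ lab t := by simp [lab]
@[simp] lemma dirs_nil : dirs [] = [] := rfl
@[simp] lemma dirs_cons (p : ℕ × Bool) (s : St) : dirs (p :: s) = p.2 :: dirs s := rfl
@[simp] lemma dirs_append (s t : St) : dirs (s ++ t) = dirs s ++ dirs t := by simp [dirs]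
@[simp] lemma length_dirs (s : St) : (dirs s).length = s.length := by simp [dirs]

variable {R : Type} [CommRing R]

def stp (z : R) (o : Bool) (g : Letter × ℕ) (n : ℕ) (s : St) (ψ : ℕ → St → R) : R :=
  match g with
  | (.cup d, i) =>
    if i ≤ s.length then ψ (n + 1) (ins i (n, (cp o d).1) (n, (cp o d).2) s) else 0
  | (.cap, i) =>
    match s.drop i with
    | p :: q :: B => if p.1 = q.1 then ψ n (s.take i ++ B) else 0
    | _ => 0
  | (.cr _, i) =>
    match s.drop i with
    | p :: q :: B => if p.1 = q.1 then 0 else ψ n (s.take i ++ q :: p :: B) +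
        (if p.2 = q.2 ∧ before (lab B ++ lab (s.take i)) q.1 p.1 = true then z * ψ n s else 0)
    | _ => 0

def evk (z : R) (o : Bool) : Word → ℕ → St → (ℕ → St → R) → R
  | [], n, s, ψ => ψ n s
  | g :: w, n, s, ψ => stp z o g n s (fun n' t => evk z o w n' t ψ)

variable {z : R} {o : Bool}

lemma evk_nil (n : ℕ) (s : St) (ψ : ℕ → St → R) : evk z o [] n s ψ = ψ n s := rfl

lemma evk_U {w : Word} {d : Bool} {i n : ℕ} {s : St} {ψ : ℕ → St → R} (P B : St)
    (hs : s = P ++ B) (hi : i = P.length) :
    evk z o (U d i :: w) n s ψ =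
      evk z o w (n + 1) (P ++ (n, (cp o d).1) :: (n, (cp o d).2) :: B) ψ := by
  subst hs hi; simp [evk, stp, U, ins]

lemma evk_A {w : Word} {i n : ℕ} {s : St} {ψ : ℕ → St → R} (P : St) (p q : ℕ × Bool) (B : St)
    (hs : s = P ++ p :: q :: B) (hi : i = P.length) :
    evk z o (A i :: w) n s ψ = if p.1 = q.1 then evk z o w n (P ++ B) ψ else 0 := by
  subst hs hi; simp [evk, stp, A]

lemma evk_X {w : Word} {i n : ℕ} {s : St} {ψ : ℕ → St → R} (P : St) (p q : ℕ × Bool) (B : St)
    (hs : s = P ++ p :: q :: B) (hi : i = P.length) :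
    evk z o (X i :: w) n s ψ = if p.1 = q.1 then 0 else evk z o w n (P ++ q :: p :: B) ψ +
      (if p.2 = q.2 ∧ before (lab B ++ lab P) q.1 p.1 = true
        then z * evk z o w n (P ++ p :: q :: B) ψ else 0) := by
  subst hs hi; simp [evk, stp, X]

lemma split2 {α : Type} (L : List α) (i : ℕ) (h : i + 2 ≤ L.length) :
    ∃ P x y B, L = P ++ x :: y :: B ∧ i = P.length := by
  have h1 : (L.drop i).length = (L.length - i - 2) + 1 + 1 := by simp; omega
  obtain ⟨x, t, ht⟩ := List.exists_cons_of_length_eq_add_one h1
  have h2 : t.length = (L.length - i - 2) + 1 := by rw [ht] at h1; simpa using h1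
  obtain ⟨y, B, hB⟩ := List.exists_cons_of_length_eq_add_one h2
  refine ⟨L.take i, x, y, B, ?_, by simp; omega⟩
  rw [← hB, ← ht, List.take_append_drop]

lemma split1 {α : Type} (L : List α) (i : ℕ) (h : i + 1 ≤ L.length) :
    ∃ P x B, L = P ++ x :: B ∧ i = P.length := by
  have h1 : (L.drop i).length = (L.length - i - 1) + 1 := by simp; omega
  obtain ⟨x, t, ht⟩ := List.exists_cons_of_length_eq_add_one h1
  exact ⟨L.take i, x, t, by rw [← ht, List.take_append_drop], by simp; omega⟩

lemma split0 {α : Type} (L : List α) (i : ℕ) (h : i ≤ L.length) :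
    ∃ P B, L = P ++ B ∧ i = P.length :=
  ⟨L.take i, L.drop i, by simp, by simp; omega⟩

lemma stp_short {g : Letter × ℕ} {n : ℕ} {s : St} {ψ : ℕ → St → R}
    (h : s.length < g.2 + g.1.inp) : stp z o g n s ψ = 0 := by
  obtain ⟨g, i⟩ := g
  have hd : (s.drop i).length = s.length - i := by simp
  rcases g with d | _ | b
  · simp only [Letter.inp] at h
    simp only [stp]; rw [if_neg (by omega)]
  all_goals
    simp only [Letter.inp] at h
    simp only [stp]
    rcases hh : s.drop i with _ | ⟨p, _ | ⟨q, B⟩⟩
    · rfl
    · rfl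
    · rw [hh] at hd; simp at hd; omega

lemma evk_append (u v : Word) (n : ℕ) (s : St) (ψ : ℕ → St → R) :
    evk z o (u ++ v) n s ψ = evk z o u n s (fun n' t => evk z o v n' t ψ) := by
  induction u generalizing n s with
  | nil => rfl
  | cons g u ih => simp only [List.cons_append, evk, ih]

lemma stp_lin (a b : R) (g : Letter × ℕ) (n : ℕ) (s : St) (φ ψ : ℕ → St → R) :
    stp z o g n s (fun n t => a * φ n t + b * ψ n t) = a * stp z o g n s φ + b * stp z o g n s ψ := by
  obtain ⟨g, i⟩ := g
  rcases g with d | _ | b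
  · simp only [stp]; split_ifs <;> simp
  · simp only [stp]
    rcases s.drop i with _ | ⟨p, _ | ⟨q, B⟩⟩ <;> simp only [] <;> (try split_ifs) <;> simp
  · simp only [stp]
    rcases s.drop i with _ | ⟨p, _ | ⟨q, B⟩⟩ <;> simp only [] <;> (try split_ifs) <;> ring

lemma evk_lin (a b : R) (u : Word) (n : ℕ) (s : St) (φ ψ : ℕ → St → R) :
    evk z o u n s (fun n t => a * φ n t + b * ψ n t) =
      a * evk z o u n s φ + b * evk z o u n s ψ := by
  induction u generalizing n s with
  | nil => rfl
  | cons g u ih => simp only [evk, ih, stp_lin]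

/-- Directions after one piece; `o = false` forgets them. -/
def nx (o : Bool) (E : List Bool) : Letter × ℕ → List Bool
  | (.cup d, i) => ins i (cp o d).1 (cp o d).2 E
  | (.cap, i) => del i E
  | (.cr _, i) => swp i E

def rn (o : Bool) (E : List Bool) (w : Word) : List Bool := w.foldl (nx o) E

lemma ins_app {α : Type} (P B : List α) (x y : α) :
    ins P.length x y (P ++ B) = P ++ x :: y :: B := by simp [ins]
lemma del_app {α : Type} (P B : List α) (x y : α) :
    del P.length (P ++ x :: y :: B) = P ++ B := by simp [del, List.drop_append]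
lemma swp_app {α : Type} (P B : List α) (x y : α) :
    swp P.length (P ++ x :: y :: B) = P ++ y :: x :: B := by simp [swp, List.drop_append]

structure Inv (o : Bool) (n : ℕ) (s : St) : Prop where
  cnt : ∀ x, (lab s).count x = 0 ∨ (lab s).count x = 2
  lt : ∀ x ∈ lab s, x < n
  dir : ∀ x, if o then s.count (x, true) = s.count (x, false) else s.count (x, false) = 0

lemma Inv.perm {n : ℕ} {s t : St} (h : Inv o n s) (hp : s.Perm t) : Inv o n t := by
  have hl : (lab s).Perm (lab t) := hp.map _
  refine ⟨fun x => ?_, fun x hx => h.lt x (hl.symm.subset hx), fun x => ?_⟩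
  · rw [← hl.count_eq]; exact h.cnt x
  · rw [← hp.count_eq, ← hp.count_eq]; exact h.dir x

lemma count_pair_zero {s : St} {x : ℕ} (h : x ∉ lab s) (b : Bool) : s.count (x, b) = 0 := by
  rw [List.count_eq_zero]; intro hm; exact h (List.mem_map.2 ⟨_, hm, rfl⟩)

lemma Inv.notMem {n x : ℕ} {e e' : Bool} {s : St} (h : Inv o n ((x, e) :: (x, e') :: s)) :
    x ∉ lab s := by
  have := h.cnt x
  simp only [lab_cons, List.count_cons_self] at this
  rw [← List.count_eq_zero]; omega

lemma Inv.pairDir {n x : ℕ} {e e' : Bool} {s : St} (h : Inv o n ((x, e) :: (x, e') :: s)) :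
    (o = true → e' = !e) ∧ (o = false → e = true ∧ e' = true) := by
  have h1 := h.dir x
  have h2 := count_pair_zero h.notMem
  cases o <;> cases e <;> cases e' <;> simp_all

lemma Inv.drop2 {n x : ℕ} {e e' : Bool} {s : St} (h : Inv o n ((x, e) :: (x, e') :: s)) :
    Inv o n s := by
  refine ⟨fun y => ?_, fun y hy => h.lt y (by simp [hy]), fun y => ?_⟩
  · by_cases hy : x = y
    · subst hy; left; exact List.count_eq_zero.2 h.notMem
    · simpa [List.count_cons, hy] using h.cnt y
  · by_cases hy : x = y
    · subst hy; simp [count_pair_zero h.notMem]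
    · simpa [List.count_cons, hy] using h.dir y

lemma Inv.add2 {n : ℕ} {s : St} (h : Inv o n s) (d : Bool) :
    Inv o (n + 1) ((n, (cp o d).1) :: (n, (cp o d).2) :: s) := by
  have hn : n ∉ lab s := fun hm => lt_irrefl _ (h.lt n hm)
  refine ⟨fun y => ?_, fun y hy => ?_, fun y => ?_⟩
  · by_cases hy : n = y
    · subst hy; right; simp [List.count_eq_zero.2 hn]
    · simpa [List.count_cons, hy] using h.cnt y
  · simp only [lab_cons, List.mem_cons] at hy
    rcases hy with rfl | rfl | hy
    exacts [by omega, by omega, (h.lt y hy).trans (by omega)]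
  · by_cases hy : n = y
    · subst hy
      cases o <;> cases d <;> simp [cp, count_pair_zero hn]
    · simpa [List.count_cons, hy] using h.dir y

lemma perm_mid2 {α : Type} (P B : List α) (x y : α) :
    (P ++ x :: y :: B).Perm (x :: y :: (P ++ B)) :=
  List.perm_middle.trans (List.Perm.cons _ List.perm_middle)

lemma Inv.cup {n : ℕ} {P B : St} (h : Inv o n (P ++ B)) (d : Bool) :
    Inv o (n + 1) (P ++ (n, (cp o d).1) :: (n, (cp o d).2) :: B) :=
  (h.add2 d).perm (perm_mid2 _ _ _ _).symm

lemma Inv.cap {n : ℕ} {P B : St} {p q : ℕ × Bool} (h : Inv o n (P ++ p :: q :: B))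
    (hpq : p.1 = q.1) : Inv o n (P ++ B) := by
  obtain ⟨x, e⟩ := p; obtain ⟨y, e'⟩ := q
  simp only at hpq; subst hpq
  exact (h.perm (perm_mid2 _ _ _ _)).drop2

lemma Inv.swap {n : ℕ} {P B : St} {p q : ℕ × Bool} (h : Inv o n (P ++ p :: q :: B)) :
    Inv o n (P ++ q :: p :: B) :=
  h.perm (List.Perm.append_left _ (List.Perm.swap _ _ _))

lemma inv_nil : Inv o 0 [] := ⟨by simp, by simp, by simp⟩

lemma stp_congr {g : Letter × ℕ} {n : ℕ} {s : St} {φ ψ : ℕ → St → R} (hs : Inv o n s)
    (h : ∀ n' t, Inv o n' t → dirs t = nx o (dirs s) g → φ n' t = ψ n' t) :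
    stp z o g n s φ = stp z o g n s ψ := by
  by_cases hl : s.length < g.2 + g.1.inp
  · rw [stp_short hl, stp_short hl]
  obtain ⟨g, i⟩ := g
  rcases g with d | _ | b
  · obtain ⟨P, B, rfl, rfl⟩ := split0 s i (by simp [Letter.inp] at hl; omega)
    have h1 := h _ _ (hs.cup d) (by
      have := ins_app (dirs P) (dirs B) (cp o d).1 (cp o d).2
      simp only [length_dirs] at this
      simp [nx, this])
    simp [stp, ins_app, h1]
  · obtain ⟨P, p, q, B, rfl, rfl⟩ := split2 s i (by simp [Letter.inp] at hl; omega)
    simp only [stp, List.drop_left, List.take_left]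
    split_ifs with hpq
    · exact h _ _ (hs.cap hpq) (by
        have := del_app (dirs P) (dirs B) p.2 q.2
        simp only [length_dirs] at this
        simp [nx, this])
    · rfl
  · obtain ⟨P, p, q, B, rfl, rfl⟩ := split2 s i (by simp [Letter.inp] at hl; omega)
    have h0 := swp_app (dirs P) (dirs B) p.2 q.2
    simp only [length_dirs] at h0
    simp only [stp, List.drop_left, List.take_left]
    rw [h _ _ hs.swap (by simp [nx, h0])]
    split_ifs with hpq h2
    · rfl
    · rw [h _ _ hs (by simp only [nx, dirs_append, dirs_cons, h0]; rw [h2.1])]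
    · rfl

lemma evk_congr {u : Word} {n : ℕ} {s : St} {φ ψ : ℕ → St → R} (hs : Inv o n s)
    (h : ∀ n' t, Inv o n' t → dirs t = rn o (dirs s) u → φ n' t = ψ n' t) :
    evk z o u n s φ = evk z o u n s ψ := by
  induction u generalizing n s with
  | nil => exact h n s hs rfl
  | cons g u ih =>
    simp only [evk]
    refine stp_congr hs fun n' t ht hd => ih ht fun n'' t' ht' hd' => h n'' t' ht' ?_
    rw [hd', hd]; rfl

/-- Invariance under renaming of labels. -/
def RI (ψ : ℕ → St → R) : Prop :=
  ∀ f : ℕ → ℕ, Function.Injective f → ∀ n n' t, ψ n (t.map (Prod.map f id)) = ψ n' t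

omit [CommRing R] in
lemma RI.n {ψ : ℕ → St → R} (h : RI ψ) (n n' : ℕ) (t : St) : ψ n t = ψ n' t := by
  simpa using h id Function.injective_id n n' t

def fin0 : ℕ → St → R := fun _ t => if t = [] then 1 else 0

lemma lab_map (f : ℕ → ℕ) (s : St) : lab (s.map (Prod.map f id)) = (lab s).map f := by
  simp [lab, Function.comp_def]

lemma ri_evk (v : Word) (hv : NoCup v) : RI (fun n t => evk z o v n t (fin0 : ℕ → St → R)) := by
  intro f hf
  induction v with
  | nil => intro n n' t; simp [evk, fin0]
  | cons g v ih =>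
    have ih := ih (noCup_cons.1 hv).2
    intro n n' t
    simp only [evk] at ih ⊢
    by_cases hl : t.length < g.2 + g.1.inp
    · rw [stp_short hl, stp_short (by simpa using hl)]
    obtain ⟨g, i⟩ := g
    rcases g with d | _ | b
    · exact absurd rfl ((noCup_cons.1 hv).1 d)
    · obtain ⟨P, p, q, B, rfl, rfl⟩ := split2 t i (by simp [Letter.inp] at hl; omega)
      have h1 := ih n n' (P ++ B)
      have e1 : P.length = (P.map (Prod.map f id)).length := by simp
      simp only [List.map_append, List.map_cons] at h1 ⊢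
      conv_lhs => rw [e1]
      simp only [stp, List.drop_left, List.take_left, Prod.map_fst, hf.eq_iff, h1]
    · obtain ⟨P, p, q, B, rfl, rfl⟩ := split2 t i (by simp [Letter.inp] at hl; omega)
      have h1 := ih n n' (P ++ q :: p :: B)
      have h2 := ih n n' (P ++ p :: q :: B)
      have e1 : P.length = (P.map (Prod.map f id)).length := by simp
      simp only [List.map_append, List.map_cons] at h1 h2 ⊢
      conv_lhs => rw [e1]
      simp only [stp, List.drop_left, List.take_left, Prod.map_fst, Prod.map_snd, id, hf.eq_iff,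
        h1, h2, lab_map, ← List.map_append, before_map hf]

end Pool.Agent.Lib.MP_3a4f2f_gt
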