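import Pool.Agent.Lib.MP_3a4f2f_gt.Rul

/-! Local identities of the ruling sum. -/

namespace Pool.Agent.Lib.MP_3a4f2f_gt

variable {R : Type} [CommRing R] {z : R} {o : Bool} {n : ℕ} {ψ : ℕ → St → R}

lemma Inv.fresh {s : St} (h : Inv o n s) : n ∉ lab s := fun hm => lt_irrefl _ (h.lt n hm)

/-- A label that occurs at one marked place occurs exactly once elsewhere. -/
lemma Inv.cnt1 {s : St} (h : Inv o n s) {x : ℕ} (hx : x ∈ lab s) : (lab s).count x = 2 := by
  rcases h.cnt x with h0 | h0
  · exact absurd hx (List.count_eq_zero.1 h0)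
  · exact h0

lemma e_eye (hψ : RI ψ) (P B : St) (d : Bool) :
    evk z o [U d P.length, A P.length] n (P ++ B) ψ = ψ n (P ++ B) := by
  rw [evk_U P B rfl rfl, evk_A P _ _ B rfl rfl, evk_nil, if_pos rfl]
  exact hψ.n _ _ _

lemma e_k1 (P B : St) (d : Bool) :
    evk z o [U d P.length, X P.length] n (P ++ B) ψ = 0 := by
  rw [evk_U P B rfl rfl, evk_X P _ _ B rfl rfl, if_pos rfl]

lemma e_k2 (P B : St) (p q : ℕ × Bool) :
    evk z o [X P.length, A P.length] n (P ++ p :: q :: B) ψ = 0 := by
  rw [evk_X P p q B rfl rfl]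
  split_ifs with h h2
  · rfl
  · rw [evk_A P q p B rfl rfl, evk_A P p q B rfl rfl, if_neg h, if_neg (Ne.symm h)]; simp
  · rw [evk_A P q p B rfl rfl, if_neg (Ne.symm h)]; simp

lemma e_z1 (P B : St) (p : ℕ × Bool) (h : Inv o n (P ++ p :: B)) (d : Bool) :
    evk z o [U d (P.length + 1), A P.length] n (P ++ p :: B) ψ = 0 := by
  have hn : p.1 ≠ n := fun e => h.fresh (by simp [← e])
  rw [evk_U (P ++ [p]) B (by simp) (by simp),
    evk_A P p (n, (cp o d).1) ((n, (cp o d).2) :: B) (by simp) rfl, if_neg hn]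

lemma e_z2 (P B : St) (p : ℕ × Bool) (h : Inv o n (P ++ p :: B)) (d : Bool) :
    evk z o [U d P.length, A (P.length + 1)] n (P ++ p :: B) ψ = 0 := by
  have hn : n ≠ p.1 := fun e => h.fresh (by simp [e])
  rw [evk_U P (p :: B) rfl rfl,
    evk_A (P ++ [(n, (cp o d).1)]) (n, (cp o d).2) p B (by simp) (by simp), if_neg hn]

lemma Inv.other {P B : St} {p : ℕ × Bool} (h : Inv o n (P ++ p :: B)) : p.1 ∈ lab B ++ lab P := by
  have := h.cnt1 (x := p.1) (by simp)
  simp only [lab_append, lab_cons, List.count_append, List.count_cons_self] at this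
  rw [← List.count_pos_iff, List.count_append]; omega

lemma Inv.fresh' {P B : St} {p : ℕ × Bool} (h : Inv o n (P ++ p :: B)) :
    n ∉ lab B ++ lab P ∧ n ≠ p.1 := by
  have := h.fresh
  simp only [lab_append, lab_cons, List.mem_append, List.mem_cons, not_or] at this ⊢
  tauto

/-- The lower strand of a new cup crosses the next strand. -/
lemma e_down (P B : St) (p : ℕ × Bool) (h : Inv o n (P ++ p :: B)) (d : Bool) (w : Word) :
    evk z o (U d P.length :: X (P.length + 1) :: w) n (P ++ p :: B) ψ =
      evk z o w (n + 1) (P ++ (n, (cp o d).1) :: p :: (n, (cp o d).2) :: B) ψ +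
      if (cp o d).2 = p.2 then
        z * evk z o w (n + 1) (P ++ (n, (cp o d).1) :: (n, (cp o d).2) :: p :: B) ψ else 0 := by
  have hb : before (lab B ++ lab (P ++ [(n, (cp o d).1)])) p.1 n = true := by
    rw [lab_append, ← List.append_assoc, before_left (Or.inl h.other)]
    exact before_of_mem h.other h.fresh'.1
  rw [evk_U P (p :: B) rfl rfl,
    evk_X (P ++ [(n, (cp o d).1)]) (n, (cp o d).2) p B (by simp) (by simp), if_neg h.fresh'.2]
  simp only [hb, and_true, List.append_assoc, List.cons_append, List.nil_append]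

/-- The upper strand of a new cup crosses the previous strand. -/
lemma e_up (P B : St) (p : ℕ × Bool) (h : Inv o n (P ++ p :: B)) (d : Bool) (w : Word) :
    evk z o (U d (P.length + 1) :: X P.length :: w) n (P ++ p :: B) ψ =
      evk z o w (n + 1) (P ++ (n, (cp o d).1) :: p :: (n, (cp o d).2) :: B) ψ +
      if p.2 = (cp o d).1 then
        z * evk z o w (n + 1) (P ++ p :: (n, (cp o d).1) :: (n, (cp o d).2) :: B) ψ else 0 := by
  rw [evk_U (P ++ [p]) B (by simp) (by simp),
    evk_X P p (n, (cp o d).1) ((n, (cp o d).2) :: B) (by simp) rfl, if_neg h.fresh'.2.symm]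
  simp [before]

lemma e_l1 (hψ : RI ψ) (P B : St) (p : ℕ × Bool) (h : Inv o n (P ++ p :: B)) (d : Bool)
    (hd : (cp o d).2 = p.2) :
    evk z o [U d P.length, X (P.length + 1), A P.length] n (P ++ p :: B) ψ =
      z * ψ n (P ++ p :: B) := by
  rw [e_down P B p h, if_pos hd, evk_A P _ p _ rfl rfl, if_neg h.fresh'.2,
    evk_A P _ _ (p :: B) rfl rfl, if_pos rfl, evk_nil, zero_add, hψ.n _ n]

lemma e_l2a (P B : St) (p : ℕ × Bool) (h : Inv o n (P ++ p :: B)) (d : Bool) :
    evk z o [U d P.length, X (P.length + 1), X P.length] n (P ++ p :: B) ψ =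
      evk z o [U d (P.length + 1)] n (P ++ p :: B) ψ := by
  rw [e_down P B p h, evk_X P _ p _ rfl rfl, if_neg h.fresh'.2,
    evk_X P _ _ (p :: B) rfl rfl, if_pos rfl, evk_U (P ++ [p]) B (by simp) (by simp)]
  simp [before, h.fresh'.2]

lemma e_l2b (P B : St) (p : ℕ × Bool) (h : Inv o n (P ++ p :: B)) (d : Bool) :
    evk z o [U d (P.length + 1), X P.length, X (P.length + 1)] n (P ++ p :: B) ψ =
      evk z o [U d P.length] n (P ++ p :: B) ψ := by
  have hb : before (lab B ++ lab (P ++ [(n, (cp o d).1)])) n p.1 = false := by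
    rw [lab_append, ← List.append_assoc, before_left (Or.inr h.other),
      before_total h.fresh'.2 (Or.inr h.other), before_of_mem h.other h.fresh'.1]
    rfl
  rw [e_up P B p h, evk_X (P ++ [(n, (cp o d).1)]) p (n, (cp o d).2) B (by simp) (by simp),
    if_neg h.fresh'.2.symm, hb,
    evk_X (P ++ [p]) (n, (cp o d).1) (n, (cp o d).2) B (by simp) (by simp), if_pos rfl,
    evk_U P (p :: B) rfl rfl]
  simp

lemma e_sk (P B : St) (p : ℕ × Bool) (h : Inv o n (P ++ p :: B)) (d : Bool) :
    evk z o [U d (P.length + 1), X P.length] n (P ++ p :: B) ψ +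
      (if (cp o d).2 = p.2 then z else 0) * evk z o [U d P.length] n (P ++ p :: B) ψ =
    evk z o [U d P.length, X (P.length + 1)] n (P ++ p :: B) ψ +
      (if p.2 = (cp o d).1 then z else 0) * evk z o [U d (P.length + 1)] n (P ++ p :: B) ψ := by
  rw [e_up P B p h, e_down P B p h, evk_U P (p :: B) rfl rfl,
    evk_U (P ++ [p]) B (by simp) (by simp)]
  simp only [List.append_assoc, List.cons_append, List.nil_append]
  split_ifs <;> ring

lemma evX0 (P L : St) (a b : ℕ × Bool) (w : Word) :
    evk z o (X P.length :: w) n (P ++ a :: b :: L) ψ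
      = if a.1 = b.1 then 0 else evk z o w n (P ++ b :: a :: L) ψ +
        (if a.2 = b.2 ∧ before (lab L ++ lab P) b.1 a.1 = true
          then z * evk z o w n (P ++ a :: b :: L) ψ else 0) := evk_X P a b L rfl rfl

lemma evX1 (P L : St) (a b c : ℕ × Bool) (w : Word) :
    evk z o (X (P.length + 1) :: w) n (P ++ a :: b :: c :: L) ψ
      = if b.1 = c.1 then 0 else evk z o w n (P ++ a :: c :: b :: L) ψ +
        (if b.2 = c.2 ∧ before ((lab L ++ lab P) ++ [a.1]) c.1 b.1 = true
          then z * evk z o w n (P ++ a :: b :: c :: L) ψ else 0) := by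
  rw [evk_X (P ++ [a]) b c L (by simp) (by simp)]
  simp

lemma evA0 (P L : St) (a b : ℕ × Bool) (w : Word) :
    evk z o (A P.length :: w) n (P ++ a :: b :: L) ψ
      = if a.1 = b.1 then evk z o w n (P ++ L) ψ else 0 := evk_A P a b L rfl rfl

lemma evA1 (P L : St) (a b c : ℕ × Bool) (w : Word) :
    evk z o (A (P.length + 1) :: w) n (P ++ a :: b :: c :: L) ψ
      = if b.1 = c.1 then evk z o w n (P ++ a :: L) ψ else 0 := by
  rw [evk_A (P ++ [a]) b c L (by simp) (by simp)]
  simp

lemma e_l2c (P B : St) (p q r : ℕ × Bool) (h : Inv o n (P ++ p :: q :: r :: B)) :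
    evk z o [X P.length, X (P.length + 1), A P.length] n (P ++ p :: q :: r :: B) ψ =
      evk z o [A (P.length + 1)] n (P ++ p :: q :: r :: B) ψ := by
  have hc := h.cnt1 (x := p.1) (by simp)
  simp only [evX0, evX1, evA0, evA1]
  by_cases h1 : p.1 = q.1
  · have h2 : q.1 ≠ r.1 := by
      intro h2
      simp [← h2, ← h1] at hc
      omega
    simp [h1, h2]
  · by_cases h2 : p.1 = r.1
    · have h3 : q.1 ≠ r.1 := fun e => h1 (h2.trans e.symm)
      simp [h2, h3, Ne.symm h3, before]
    · simp [h1, h2, Ne.symm h1]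

lemma e_braid (P B : St) (p q r : ℕ × Bool) (h : Inv o n (P ++ p :: q :: r :: B)) :
    evk z o [X P.length, X (P.length + 1), X P.length] n (P ++ p :: q :: r :: B) ψ =
      evk z o [X (P.length + 1), X P.length, X (P.length + 1)] n (P ++ p :: q :: r :: B) ψ := by
  have cp' := h.cnt1 (x := p.1) (by simp)
  have cq := h.cnt1 (x := q.1) (by simp)
  have cr := h.cnt1 (x := r.1) (by simp)
  obtain ⟨x, e1⟩ := p; obtain ⟨y, e2⟩ := q; obtain ⟨w, e3⟩ := r
  simp only [evX0, evX1, evk_nil, lab_cons, List.cons_append]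
  simp only [lab_append, lab_cons, List.count_append, List.count_cons, beq_iff_eq] at cp' cq cr
  generalize hC : lab B ++ lab P = C
  have hcnt : ∀ t, C.count t = (lab P).count t + (lab B).count t := by
    intro t; rw [← hC, List.count_append]; omega
  by_cases a1 : x = y
  · subst a1
    have a2 : x ≠ w := by rintro rfl; simp at cp'; omega
    simp [before, a2]
  by_cases a2 : y = w
  · subst a2
    have hx : x ∈ C := by
      rw [← List.count_pos_iff, hcnt]; simp [Ne.symm a1] at cp'; omega
    have hy : y ∉ C := by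
      rw [← List.count_eq_zero, hcnt]; simp [a1] at cq; omega
    have hb : before (C ++ [y]) y x = false := by
      rw [before_left (Or.inr hx), before_total (Ne.symm a1) (Or.inr hx), before_of_mem hx hy]; rfl
    simp [before, a1, hb]
  by_cases a3 : x = w
  · subst a3
    have hy : y ∈ C := by
      rw [← List.count_pos_iff, hcnt]; simp [a1] at cq; omega
    have hx : x ∉ C := by
      rw [← List.count_eq_zero, hcnt]; simp [Ne.symm a1] at cp'; omega
    have hb : before (C ++ [x]) x y = false := by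
      rw [before_left (Or.inr hy), before_total a1 (Or.inr hy), before_of_mem hy hx]; rfl
    simp [before, a1, Ne.symm a1, hb]
  have hx : x ∈ C := by
    rw [← List.count_pos_iff, hcnt]; simp [Ne.symm a1, Ne.symm a3] at cp'; omega
  have hy : y ∈ C := by
    rw [← List.count_pos_iff, hcnt]; simp [a1, Ne.symm a2] at cq; omega
  have hw : w ∈ C := by
    rw [← List.count_pos_iff, hcnt]; simp [a2, a3] at cr; omega
  have t1 := before_total a1 (Or.inl hx)
  have t2 := before_total a2 (Or.inl hy)
  have t3 := before_total a3 (Or.inl hx)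
  have u1 := @before_trans w y x C
  have u2 := @before_trans x y w C
  simp only [before, a1, a2, a3, Ne.symm a1, Ne.symm a2, Ne.symm a3, if_false,
    before_left (Or.inl hy), before_left (Or.inl hw), t1, t2, t3] at *
  generalize before C y x = α at *
  generalize before C w y = β at *
  generalize before C w x = γ at *
  cases α <;> cases β <;> cases γ <;> cases e1 <;> cases e2 <;> cases e3 <;>
    simp at u1 u2 ⊢ <;> ring


/-! Commutation of distant pieces. -/

lemma evX2 (P M L : St) (a b c d : ℕ × Bool) (w : Word) :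
    evk z o (X (P.length + 2 + M.length) :: w) n (P ++ a :: b :: (M ++ c :: d :: L)) ψ
      = if c.1 = d.1 then 0 else evk z o w n (P ++ a :: b :: (M ++ d :: c :: L)) ψ +
        (if c.2 = d.2 ∧ before ((lab L ++ lab P) ++ a.1 :: b.1 :: lab M) d.1 c.1 = true
          then z * evk z o w n (P ++ a :: b :: (M ++ c :: d :: L)) ψ else 0) := by
  rw [evk_X (P ++ a :: b :: M) c d L (by simp) (by simp; omega)]
  simp

lemma evXm (P M L : St) (c d : ℕ × Bool) (w : Word) :
    evk z o (X (P.length + M.length) :: w) n (P ++ (M ++ c :: d :: L)) ψ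
      = if c.1 = d.1 then 0 else evk z o w n (P ++ (M ++ d :: c :: L)) ψ +
        (if c.2 = d.2 ∧ before ((lab L ++ lab P) ++ lab M) d.1 c.1 = true
          then z * evk z o w n (P ++ (M ++ c :: d :: L)) ψ else 0) := by
  rw [evk_X (P ++ M) c d L (by simp) (by simp)]
  simp

lemma evA2 (P M L : St) (a b c d : ℕ × Bool) (w : Word) :
    evk z o (A (P.length + 2 + M.length) :: w) n (P ++ a :: b :: (M ++ c :: d :: L)) ψ
      = if c.1 = d.1 then evk z o w n (P ++ a :: b :: (M ++ L)) ψ else 0 := by
  rw [evk_A (P ++ a :: b :: M) c d L (by simp) (by simp; omega)]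
  simp

lemma evAm (P M L : St) (c d : ℕ × Bool) (w : Word) :
    evk z o (A (P.length + M.length) :: w) n (P ++ (M ++ c :: d :: L)) ψ
      = if c.1 = d.1 then evk z o w n (P ++ (M ++ L)) ψ else 0 := by
  rw [evk_A (P ++ M) c d L (by simp) (by simp)]
  simp

lemma evU0 (P L : St) (d : Bool) (w : Word) :
    evk z o (U d P.length :: w) n (P ++ L) ψ
      = evk z o w (n + 1) (P ++ (n, (cp o d).1) :: (n, (cp o d).2) :: L) ψ := evk_U P L rfl rfl

lemma evU2 (P M L : St) (a b : ℕ × Bool) (d : Bool) (w : Word) :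
    evk z o (U d (P.length + 2 + M.length) :: w) n (P ++ a :: b :: (M ++ L)) ψ
      = evk z o w (n + 1) (P ++ a :: b :: (M ++ (n, (cp o d).1) :: (n, (cp o d).2) :: L)) ψ := by
  rw [evk_U (P ++ a :: b :: M) L (by simp) (by simp; omega)]
  simp

lemma evUm (P M L : St) (d : Bool) (w : Word) :
    evk z o (U d (P.length + M.length) :: w) n (P ++ (M ++ L)) ψ
      = evk z o w (n + 1) (P ++ (M ++ (n, (cp o d).1) :: (n, (cp o d).2) :: L)) ψ := by
  rw [evk_U (P ++ M) L (by simp) (by simp)]
  simp

lemma before_skip2 {c x y : ℕ} (hx : c ≠ x) (hy : c ≠ y) (C D : List ℕ) :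
    before (C ++ c :: c :: D) x y = before (C ++ D) x y := by
  rw [before_skip hx hy, before_skip hx hy]

lemma e_cUX1 (P M B : St) (p q : ℕ × Bool) (d : Bool)
    (h : Inv o n (P ++ p :: q :: (M ++ B))) :
    evk z o [U d (P.length + 2 + M.length), X P.length] n (P ++ p :: q :: (M ++ B)) ψ =
      evk z o [X P.length, U d (P.length + 2 + M.length)] n (P ++ p :: q :: (M ++ B)) ψ := by
  have hp : n ≠ p.1 := fun e => h.fresh (by simp [e])
  have hq : n ≠ q.1 := fun e => h.fresh (by simp [e])
  simp only [evX0, evU2, evk_nil, lab_append, lab_cons, List.append_assoc, List.cons_append,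
    before_skip2 hq hp]

lemma e_cUX2 (P M B : St) (p q : ℕ × Bool) (d : Bool)
    (h : Inv o n (P ++ (M ++ p :: q :: B))) :
    evk z o [U d P.length, X (P.length + 2 + M.length)] n (P ++ (M ++ p :: q :: B)) ψ =
      evk z o [X (P.length + M.length), U d P.length] n (P ++ (M ++ p :: q :: B)) ψ := by
  have hp : n ≠ p.1 := fun e => h.fresh (by simp [e])
  have hq : n ≠ q.1 := fun e => h.fresh (by simp [e])
  simp only [evX2, evXm, evU0, evk_nil, before_skip2 hq hp]

lemma e_cUA1 (P M B : St) (p q : ℕ × Bool) (d : Bool) :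
    evk z o [U d (P.length + 2 + M.length), A P.length] n (P ++ p :: q :: (M ++ B)) ψ =
      evk z o [A P.length, U d (P.length + M.length)] n (P ++ p :: q :: (M ++ B)) ψ := by
  simp only [evA0, evU2, evUm, evk_nil]

lemma e_cUA2 (P M B : St) (p q : ℕ × Bool) (d : Bool) :
    evk z o [U d P.length, A (P.length + 2 + M.length)] n (P ++ (M ++ p :: q :: B)) ψ =
      evk z o [A (P.length + M.length), U d P.length] n (P ++ (M ++ p :: q :: B)) ψ := by
  simp only [evA2, evAm, evU0, evk_nil]

lemma e_cXA1 (P M B : St) (p q r t : ℕ × Bool)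
    (h : Inv o n (P ++ p :: q :: (M ++ r :: t :: B))) :
    evk z o [X P.length, A (P.length + 2 + M.length)] n (P ++ p :: q :: (M ++ r :: t :: B)) ψ =
      evk z o [A (P.length + 2 + M.length), X P.length] n (P ++ p :: q :: (M ++ r :: t :: B)) ψ := by
  simp only [evX0, evA2, evk_nil, lab_append, lab_cons, List.append_assoc, List.cons_append]
  by_cases h1 : r.1 = t.1
  · have hc := h.cnt1 (x := r.1) (by simp)
    simp only [lab_append, lab_cons, List.count_append, List.count_cons, beq_iff_eq] at hc
    have hp : t.1 ≠ p.1 := by intro e; split_ifs at hc <;> omega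
    have hq : t.1 ≠ q.1 := by intro e; split_ifs at hc <;> omega
    simp only [h1, if_true, before_skip2 hq hp]
  · simp [h1]

lemma e_cXA2 (P M B : St) (p q r t : ℕ × Bool)
    (h : Inv o n (P ++ r :: t :: (M ++ p :: q :: B))) :
    evk z o [X (P.length + 2 + M.length), A P.length] n (P ++ r :: t :: (M ++ p :: q :: B)) ψ =
      evk z o [A P.length, X (P.length + M.length)] n (P ++ r :: t :: (M ++ p :: q :: B)) ψ := by
  simp only [evX2, evXm, evA0, evk_nil]
  by_cases h1 : r.1 = t.1
  · have hc := h.cnt1 (x := r.1) (by simp)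
    simp only [lab_append, lab_cons, List.count_append, List.count_cons, beq_iff_eq] at hc
    have hp : t.1 ≠ p.1 := by intro e; split_ifs at hc <;> omega
    have hq : t.1 ≠ q.1 := by intro e; split_ifs at hc <;> omega
    simp only [h1, if_true, before_skip2 hq hp]
  · simp [h1]

lemma map_swap_fix {x y : ℕ} {s : St} (hx : x ∉ lab s) (hy : y ∉ lab s) :
    s.map (Prod.map (Equiv.swap x y) id) = s := by
  conv_rhs => rw [← List.map_id s]
  apply List.map_congr_left
  rintro ⟨a, e⟩ ha
  have h1 : a ≠ x := fun h => hx (List.mem_map.2 ⟨_, ha, h⟩)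
  have h2 : a ≠ y := fun h => hy (List.mem_map.2 ⟨_, ha, h⟩)
  simp [Equiv.swap_apply_of_ne_of_ne h1 h2]

lemma e_cXX (hψ : RI ψ) (P M B : St) (p q r t : ℕ × Bool)
    (h : Inv o n (P ++ p :: q :: (M ++ r :: t :: B))) :
    evk z o [X P.length, X (P.length + 2 + M.length)] n (P ++ p :: q :: (M ++ r :: t :: B)) ψ =
      evk z o [X (P.length + 2 + M.length), X P.length] n (P ++ p :: q :: (M ++ r :: t :: B)) ψ := by
  simp only [evX0, evX2, evk_nil, lab_append, lab_cons]
  by_cases h1 : p.1 = q.1
  · simp [h1]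
  by_cases h2 : r.1 = t.1
  · simp [h2]
  simp only [h1, h2, if_false]
  by_cases h3 : (r.1 = p.1 ∧ t.1 = q.1) ∨ (r.1 = q.1 ∧ t.1 = p.1)
  · have cp' := h.cnt1 (x := p.1) (by simp)
    have cq := h.cnt1 (x := q.1) (by simp)
    obtain ⟨x, e1⟩ := p; obtain ⟨y, e2⟩ := q; obtain ⟨x', e3⟩ := r; obtain ⟨y', e4⟩ := t
    simp only at h1 h2 h3
    have hz : ∀ a, (a = x ∨ a = y) → a ∉ lab P ∧ a ∉ lab M ∧ a ∉ lab B := by
      intro a ha
      simp only [← List.count_eq_zero]
      simp only [lab_append, lab_cons, List.count_append, List.count_cons, beq_iff_eq] at cp' cq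
      rcases ha with rfl | rfl
      · split_ifs at cp' <;> omega
      · split_ifs at cq <;> omega
    obtain ⟨xP, xM, xB⟩ := hz x (Or.inl rfl)
    obtain ⟨yP, yM, yB⟩ := hz y (Or.inr rfl)
    have dx := h.dir x
    have dy := h.dir y
    have hs : ∀ a b c d a' b' c' d' : ℕ × Bool,
        Prod.map (Equiv.swap x y) id a = a' → Prod.map (Equiv.swap x y) id b = b' →
        Prod.map (Equiv.swap x y) id c = c' → Prod.map (Equiv.swap x y) id d = d' →
        ψ n (P ++ a' :: b' :: (M ++ c' :: d' :: B)) = ψ n (P ++ a :: b :: (M ++ c :: d :: B)) := by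
      rintro a b c d _ _ _ _ rfl rfl rfl rfl
      rw [← hψ (Equiv.swap x y) (Equiv.injective _) n n (P ++ a :: b :: (M ++ c :: d :: B))]
      simp only [List.map_append, List.map_cons, map_swap_fix xP yP, map_swap_fix xM yM,
        map_swap_fix xB yB]
    have b1 : ∀ D, before (lab M ++ D) y x = before D y x := before_notMem yM xM
    have b2 : ∀ D, before (lab B ++ (lab P ++ D)) y x = before D y x := fun D => by
      rw [before_notMem yB xB, before_notMem yP xP]
    have b3 : ∀ D, before (lab B ++ (lab P ++ D)) x y = before D x y := fun D => by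
      rw [before_notMem xB yB, before_notMem xP yP]
    simp only [List.count_append, List.count_cons, count_pair_zero xP, count_pair_zero xM,
      count_pair_zero xB, count_pair_zero yP, count_pair_zero yM, count_pair_zero yB] at dx dy
    clear cp' cq hz h
    rcases h3 with ⟨rfl, rfl⟩ | ⟨rfl, rfl⟩
    · have k2 := hs (x', e1) (y', e2) (y', e4) (x', e3) (y', e1) (x', e2) (x', e4) (y', e3)
        (by simp) (by simp) (by simp) (by simp)
      simp only [List.append_assoc, List.cons_append, b1, b2]
      cases o <;> cases e1 <;> cases e2 <;> cases e3 <;> cases e4 <;>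
        simp [before, h1, Ne.symm h1] at dx dy k2 ⊢ <;> simp [k2]
    · have k2 := hs (y', e1) (x', e2) (y', e4) (x', e3) (x', e1) (y', e2) (x', e4) (y', e3)
        (by simp) (by simp) (by simp) (by simp)
      simp only [List.append_assoc, List.cons_append, b1, b3]
      cases o <;> cases e1 <;> cases e2 <;> cases e3 <;> cases e4 <;>
        simp [before, h1, Ne.symm h1] at dx dy k2 ⊢ <;> simp [k2]
  · have a1 : before (lab M ++ t.1 :: r.1 :: lab B ++ lab P) q.1 p.1 =
        before (lab M ++ r.1 :: t.1 :: lab B ++ lab P) q.1 p.1 := by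
      simp only [List.append_assoc, List.cons_append]
      exact before_swap (by tauto) (by tauto) _ _
    have a2 : before (lab B ++ lab P ++ q.1 :: p.1 :: lab M) t.1 r.1 =
        before (lab B ++ lab P ++ p.1 :: q.1 :: lab M) t.1 r.1 :=
      before_swap (by tauto) (by tauto) _ _
    rw [a1, a2]
    split_ifs <;> ring

end Pool.Agent.Lib.MP_3a4f2f_gt
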