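import Pool.Agent.Lib.MP_3a4f2f_gt.Inst

/-! The sweep over an alternating front: parity vectors and fluxes. -/

namespace Pool.Agent.Lib.MP_3a4f2f_gt

open LaurentPolynomial

abbrev Rec : Type := ℕ × (ℕ × Bool) × (ℕ × Bool)
abbrev Vec : Type := ℕ → ZMod 2

def flat : List Rec → St
  | [] => []
  | r :: Z => r.2.1 :: r.2.2 :: flat Z

def eyes2 : List Rec → List ℕ
  | [] => []
  | r :: Z => r.1 :: r.1 :: eyes2 Z

def eyes (Z : List Rec) : List ℕ := Z.map Prod.fst

@[simp] lemma flat_nil : flat [] = [] := rfl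
@[simp] lemma flat_cons (r : Rec) (Z : List Rec) : flat (r :: Z) = r.2.1 :: r.2.2 :: flat Z := rfl
@[simp] lemma flat_append (Z W : List Rec) : flat (Z ++ W) = flat Z ++ flat W := by
  induction Z with
  | nil => rfl
  | cons r Z ih => simp [ih]
@[simp] lemma eyes2_nil : eyes2 [] = [] := rfl
@[simp] lemma eyes2_cons (r : Rec) (Z : List Rec) : eyes2 (r :: Z) = r.1 :: r.1 :: eyes2 Z := rfl
@[simp] lemma eyes2_append (Z W : List Rec) : eyes2 (Z ++ W) = eyes2 Z ++ eyes2 W := by
  induction Z with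
  | nil => rfl
  | cons r Z ih => simp [ih]
@[simp] lemma eyes_nil : eyes [] = [] := rfl
@[simp] lemma eyes_cons (r : Rec) (Z : List Rec) : eyes (r :: Z) = r.1 :: eyes Z := rfl
@[simp] lemma eyes_append (Z W : List Rec) : eyes (Z ++ W) = eyes Z ++ eyes W := by simp [eyes]
lemma length_flat (Z : List Rec) : (flat Z).length = 2 * Z.length := by
  induction Z with
  | nil => rfl
  | cons r Z ih => simp [ih]; omega
lemma length_eyes2 (Z : List Rec) : (eyes2 Z).length = (flat Z).length := by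
  induction Z with
  | nil => rfl
  | cons r Z ih => simp [ih]
lemma mem_eyes2 {Z : List Rec} {a : ℕ} : a ∈ eyes2 Z ↔ a ∈ eyes Z := by
  induction Z with
  | nil => simp
  | cons r Z ih => simp [ih]
lemma mem_eyes {Z : List Rec} {r : Rec} (h : r ∈ Z) : r.1 ∈ eyes Z := List.mem_map.2 ⟨r, h, rfl⟩
lemma mem_flat {Z : List Rec} {r : Rec} (h : r ∈ Z) :
    r.2.1.1 ∈ lab (flat Z) ∧ r.2.2.1 ∈ lab (flat Z) := by
  obtain ⟨Z1, Z2, rfl⟩ := List.append_of_mem h
  simp

def ee (a : ℕ) : Vec := fun b => if b = a then 1 else 0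
def sg (e : Bool) : ℤ := if e then 1 else -1

lemma vec_add_self (v : Vec) : v + v = 0 := by
  funext i; exact CharTwo.add_self_eq_zero (v i)

def Chain (lam : ℕ → Vec) (f : ℕ → ℤ) : Vec → ℤ → List Rec → Prop
  | _, _, [] => True
  | acc, fl, r :: Z => acc + lam r.2.1.1 = ee r.1 ∧ fl + sg r.2.1.2 = f r.1 ∧
      Chain lam f (acc + lam r.2.1.1 + lam r.2.2.1) (fl + sg r.2.1.2 + sg r.2.2.2) Z

def accL (lam : ℕ → Vec) (Z : List Rec) : Vec := ((lab (flat Z)).map lam).sum
def accF (Z : List Rec) : ℤ := ((dirs (flat Z)).map sg).sum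

lemma chain_append {lam : ℕ → Vec} {f : ℕ → ℤ} {acc : Vec} {fl : ℤ} {Z W : List Rec} :
    Chain lam f acc fl (Z ++ W) ↔
      Chain lam f acc fl Z ∧ Chain lam f (acc + accL lam Z) (fl + accF Z) W := by
  induction Z generalizing acc fl with
  | nil => simp [Chain, accL, accF]
  | cons r Z ih => simp [Chain, ih, accL, accF, add_assoc, and_assoc]

lemma chain_congr {lam lam' : ℕ → Vec} {f f' : ℕ → ℤ} {acc : Vec} {fl : ℤ} {Z : List Rec}
    (h1 : ∀ x ∈ lab (flat Z), lam' x = lam x) (h2 : ∀ a ∈ eyes Z, f' a = f a)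
    (h : Chain lam f acc fl Z) : Chain lam' f' acc fl Z := by
  induction Z generalizing acc fl with
  | nil => trivial
  | cons r Z ih =>
    simp only [Chain] at h ⊢
    rw [h1 _ (by simp), h1 r.2.2.1 (by simp), h2 _ (by simp)]
    exact ⟨h.1, h.2.1, ih (fun x hx => h1 x (by simp [hx])) (fun a ha => h2 a (by simp [ha])) h.2.2⟩

def SS (a : ℕ) (H : List (ℕ × ℕ)) : Vec :=
  (H.map (fun p => if p.1 = a ∨ p.2 = a then ee p.1 + ee p.2 else 0)).sum

def cnt (H : List (ℕ × ℕ)) (a b : ℕ) : ℕ := H.count (a, b) + H.count (b, a)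

@[simp] lemma SS_nil (a : ℕ) : SS a [] = 0 := rfl
lemma SS_append (a : ℕ) (H K : List (ℕ × ℕ)) : SS a (H ++ K) = SS a H + SS a K := by simp [SS]
lemma SS_one (c a b : ℕ) : SS c [(a, b)] = if a = c ∨ b = c then ee a + ee b else 0 := by simp [SS]
lemma SS_cons (a : ℕ) (p : ℕ × ℕ) (H : List (ℕ × ℕ)) : SS a (p :: H) = SS a [p] + SS a H :=
  SS_append a [p] H

lemma SS_coord {a b : ℕ} (hab : b ≠ a) (H : List (ℕ × ℕ)) : SS a H b = (cnt H a b : ℕ) := by
  induction H with
  | nil => simp [cnt]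
  | cons p H ih =>
    obtain ⟨c, d⟩ := p
    rw [SS_cons, Pi.add_apply, ih, SS_one]
    simp only [cnt, List.count_cons, beq_iff_eq, Prod.mk.injEq]
    by_cases h1 : c = a <;> by_cases h2 : d = a <;> by_cases h3 : c = b <;> by_cases h4 : d = b <;>
      simp_all [ee, @eq_comm _ b] <;> ring

lemma SS_zero_of_notMem {a : ℕ} {H : List (ℕ × ℕ)} (h : ∀ p ∈ H, p.1 ≠ a ∧ p.2 ≠ a) :
    SS a H = 0 := by
  induction H with
  | nil => rfl
  | cons p H ih =>
    obtain ⟨c, d⟩ := p
    have := h (c, d) (by simp)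
    rw [SS_cons, ih (fun p hp => h p (by simp [hp])), SS_one, if_neg (by tauto), add_zero]

structure SInv (n : ℕ) (Z : List Rec) (lam : ℕ → Vec) (f : ℕ → ℤ) (Hn Hp : List (ℕ × ℕ)) :
    Prop where
  inv : Inv true n (flat Z)
  nodup : (eyes Z).Nodup
  elt : ∀ a ∈ eyes Z, a < n
  chain : Chain lam f 0 0 Z
  dlive : ∀ r ∈ Z, lam r.2.1.1 + lam r.2.2.1 = SS r.1 Hn + SS r.1 Hp
  ddead : ∀ a, a ∉ eyes Z → SS a Hn + SS a Hp = 0
  hn : ∀ p ∈ Hn, f p.1 = f p.2 ∧ p.1 < n ∧ p.2 < n
  hp : ∀ p ∈ Hp, f p.1 ≠ f p.2 ∧ p.1 < n ∧ p.2 < n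

variable {n : ℕ} {lam : ℕ → Vec} {f : ℕ → ℤ} {Hn Hp : List (ℕ × ℕ)}

lemma SInv.cup {Z W : List Rec} (h : SInv n (Z ++ W) lam f Hn Hp) (d : Bool) :
    SInv (n + 1) (Z ++ (n, (n, d), (n, !d)) :: W)
      (Function.update lam n (ee n + accL lam Z)) (Function.update f n (accF Z + sg d)) Hn Hp := by
  have hl : ∀ x ∈ lab (flat (Z ++ W)), Function.update lam n (ee n + accL lam Z) x = lam x :=
    fun x hx => Function.update_of_ne (h.inv.lt x hx).ne _ _
  have hf : ∀ x < n, Function.update f n (accF Z + sg d) x = f x :=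
    fun x hx => Function.update_of_ne hx.ne _ _
  have hn : n ∉ eyes (Z ++ W) := fun hm => lt_irrefl _ (h.elt n hm)
  have hc := chain_append.1 (chain_congr hl (fun a ha => hf a (h.elt a ha)) h.chain)
  have hacc : accL (Function.update lam n (ee n + accL lam Z)) Z = accL lam Z := by
    simp only [accL]
    congr 1
    exact List.map_congr_left fun x hx => hl x (by simp [hx])
  refine ⟨?_, ?_, ?_, ?_, ?_, ?_, ?_, ?_⟩
  · have := h.inv
    rw [flat_append] at this
    simpa [cp] using this.cup d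
  · have := h.nodup
    simp only [eyes_append, eyes_cons] at this hn ⊢
    exact (List.perm_middle.nodup_iff).2 (List.nodup_cons.2 ⟨hn, this⟩)
  · intro a ha
    simp only [eyes_append, eyes_cons, List.mem_append, List.mem_cons] at ha
    rcases ha with ha | rfl | ha
    exacts [(h.elt a (by simp [ha])).trans (by omega), by omega,
      (h.elt a (by simp [ha])).trans (by omega)]
  · refine chain_append.2 ⟨hc.1, ?_⟩
    have h2 := hc.2
    simp only [Chain, Function.update_self, hacc, zero_add] at h2 ⊢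
    refine ⟨by rw [add_left_comm, vec_add_self, add_zero], trivial, ?_⟩
    rw [add_assoc, vec_add_self, add_zero, add_assoc,
      show sg d + sg (!d) = 0 by cases d <;> simp [sg], add_zero]
    exact h2
  · intro r hr
    simp only [List.mem_append, List.mem_cons] at hr
    have old : r ∈ Z ++ W → _ := fun hr => by
      have := h.dlive r hr
      rw [← hl _ (mem_flat hr).1, ← hl _ (mem_flat hr).2] at this
      exact this
    rcases hr with hr | rfl | hr
    · exact old (by simp [hr])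
    · simp only [vec_add_self]; exact (h.ddead n hn).symm
    · exact old (by simp [hr])
  · intro a ha
    apply h.ddead
    simp only [eyes_append, eyes_cons, List.mem_append, List.mem_cons, not_or] at ha ⊢
    tauto
  · intro p hp
    obtain ⟨h1, h2, h3⟩ := h.hn p hp
    exact ⟨by rw [hf _ h2, hf _ h3, h1], by omega, by omega⟩
  · intro p hp
    obtain ⟨h1, h2, h3⟩ := h.hp p hp
    exact ⟨by rwa [hf _ h2, hf _ h3], by omega, by omega⟩

lemma SInv.cap {Z W : List Rec} {r : Rec} (h : SInv n (Z ++ r :: W) lam f Hn Hp)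
    (hr : r.2.1.1 = r.2.2.1) : SInv n (Z ++ W) lam f Hn Hp := by
  obtain ⟨a, ⟨x, e⟩, ⟨y, e'⟩⟩ := r
  simp only at hr; subst hr
  have hi := h.inv
  simp only [flat_append, flat_cons] at hi
  obtain rfl : e' = !e := (hi.perm (perm_mid2 _ _ _ _)).pairDir.1 rfl
  have hnd := h.nodup
  simp only [eyes_append, eyes_cons] at hnd
  have hnd' := List.nodup_cons.1 ((List.perm_middle.nodup_iff).1 hnd)
  refine ⟨by simpa using hi.cap rfl, by simpa using hnd'.2,
    fun b hb => h.elt b (by simp at hb ⊢; tauto), ?_,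
    fun r hr => h.dlive r (by simp at hr ⊢; tauto), fun b hb => ?_, h.hn, h.hp⟩
  · have hc := chain_append.1 h.chain
    refine chain_append.2 ⟨hc.1, ?_⟩
    have h2 := hc.2.2.2
    simp only at h2
    rwa [add_assoc, vec_add_self, add_zero, add_assoc,
      show sg e + sg (!e) = 0 by cases e <;> simp [sg], add_zero] at h2
  · by_cases hba : b = a
    · subst hba
      have := h.dlive (b, (x, e), (x, !e)) (by simp)
      rw [← this]; exact vec_add_self _
    · apply h.ddead
      simp only [eyes_append, eyes_cons, List.mem_append, List.mem_cons, not_or] at hb ⊢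
      tauto

lemma SInv.facts {Z W : List Rec} {a b : ℕ} {p x y q : ℕ × Bool}
    (h : SInv n (Z ++ (a, p, x) :: (b, y, q) :: W) lam f Hn Hp) :
    lam x.1 + lam y.1 = ee a + ee b ∧ f b = f a + sg x.2 + sg y.2 ∧ a ≠ b ∧ a < n ∧ b < n ∧
      a ∉ eyes Z ∧ a ∉ eyes W ∧ b ∉ eyes Z ∧ b ∉ eyes W := by
  have hc := (chain_append.1 h.chain).2
  simp only [Chain] at hc
  obtain ⟨h1, h2, h3, h4, -⟩ := hc
  have hnd := h.nodup
  simp only [eyes_append, eyes_cons] at hnd
  have hnd' := (perm_mid2 _ _ _ _).nodup_iff.1 hnd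
  simp only [List.nodup_cons, List.mem_cons, List.mem_append, not_or] at hnd'
  refine ⟨?_, by omega, hnd'.1.1, h.elt a (by simp), h.elt b (by simp), by tauto, by tauto,
    by tauto, by tauto⟩
  rw [← h3, h1, add_assoc, ← add_assoc, vec_add_self, zero_add]

lemma SInv.swap {Z W : List Rec} {a b : ℕ} {p x y q : ℕ × Bool} {Hn' Hp' : List (ℕ × ℕ)}
    (h : SInv n (Z ++ (a, p, x) :: (b, y, q) :: W) lam f Hn Hp)
    (hS : ∀ c, SS c Hn' + SS c Hp' = SS c Hn + SS c Hp + SS c [(a, b)])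
    (hn : ∀ p ∈ Hn', f p.1 = f p.2 ∧ p.1 < n ∧ p.2 < n)
    (hp : ∀ p ∈ Hp', f p.1 ≠ f p.2 ∧ p.1 < n ∧ p.2 < n) :
    SInv n (Z ++ (a, p, y) :: (b, x, q) :: W) lam f Hn' Hp' := by
  obtain ⟨f1, f2, f3, f4, f5, f6, f7, f8, f9⟩ := h.facts
  refine ⟨?_, by simpa using h.nodup, by simpa using h.elt, ?_, ?_, ?_, hn, hp⟩
  · have hi : Inv true n ((flat Z ++ [p]) ++ x :: y :: q :: flat W) := by simpa using h.inv
    simpa using hi.swap
  · have hc := chain_append.1 h.chain
    refine chain_append.2 ⟨hc.1, ?_⟩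
    have h2 := hc.2
    simp only [Chain] at h2 ⊢
    obtain ⟨h1, h2, h3, h4, h5⟩ := h2
    refine ⟨h1, h2, by rw [← h3]; abel, by omega, ?_⟩
    rw [add_right_comm _ (lam y.1), add_right_comm _ (sg y.2)]
    exact h5
  · intro r hr
    simp only [List.mem_append, List.mem_cons] at hr
    rw [hS, SS_one]
    have old : r ∈ Z ∨ r ∈ W → lam r.2.1.1 + lam r.2.2.1 =
        SS r.1 Hn + SS r.1 Hp + if a = r.1 ∨ b = r.1 then ee a + ee b else 0 := by
      intro hr
      have h1 : r.1 ∈ eyes Z ∨ r.1 ∈ eyes W := hr.imp mem_eyes mem_eyes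
      rw [if_neg, add_zero]
      · exact h.dlive r (by simp; tauto)
      · rintro (e | e) <;> rw [← e] at h1 <;> tauto
    rcases hr with hr | rfl | rfl | hr
    · exact old (Or.inl hr)
    · rw [← h.dlive (a, p, x) (by simp), if_pos (Or.inl rfl), ← f1]
      simp only
      rw [add_assoc, ← add_assoc (lam x.1), vec_add_self, zero_add]
    · rw [← h.dlive (b, y, q) (by simp), if_pos (Or.inr rfl), ← f1]
      simp only
      rw [add_comm (lam x.1) (lam y.1), add_add_add_comm, vec_add_self, zero_add, add_comm]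
    · exact old (Or.inr hr)
  · intro c hc
    simp only [eyes_append, eyes_cons, List.mem_append, List.mem_cons, not_or] at hc
    rw [hS, SS_one, if_neg (by omega), add_zero]
    apply h.ddead
    simp only [eyes_append, eyes_cons, List.mem_append, List.mem_cons, not_or]
    exact hc

lemma SInv.swapN {Z W : List Rec} {a b : ℕ} {p x y q : ℕ × Bool}
    (h : SInv n (Z ++ (a, p, x) :: (b, y, q) :: W) lam f Hn Hp) (hd : x.2 ≠ y.2) :
    SInv n (Z ++ (a, p, y) :: (b, x, q) :: W) lam f (Hn ++ [(a, b)]) Hp := by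
  obtain ⟨-, f2, -, f4, f5, -⟩ := h.facts
  refine h.swap (fun c => by rw [SS_append]; abel) (fun p hp => ?_) h.hp
  rcases List.mem_append.1 hp with hp | hp
  · exact h.hn p hp
  · obtain rfl := List.mem_singleton.1 hp
    refine ⟨?_, f4, f5⟩
    revert f2 hd; cases x.2 <;> cases y.2 <;> simp [sg] <;> omega

lemma SInv.fne {Z W : List Rec} {a b : ℕ} {p x y q : ℕ × Bool}
    (h : SInv n (Z ++ (a, p, x) :: (b, y, q) :: W) lam f Hn Hp) (hd : x.2 = y.2) :
    f a ≠ f b := by
  obtain ⟨-, f2, -⟩ := h.facts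
  revert f2 hd; cases x.2 <;> cases y.2 <;> simp [sg] <;> omega

lemma SInv.swapP {Z W : List Rec} {a b : ℕ} {p x y q : ℕ × Bool}
    (h : SInv n (Z ++ (a, p, x) :: (b, y, q) :: W) lam f Hn Hp) (hd : x.2 = y.2) :
    SInv n (Z ++ (a, p, y) :: (b, x, q) :: W) lam f Hn (Hp ++ [(a, b)]) := by
  obtain ⟨-, f2, -, f4, f5, -⟩ := h.facts
  refine h.swap (fun c => by rw [SS_append]; abel) h.hn (fun p hp => ?_)
  rcases List.mem_append.1 hp with hp | hp
  · exact h.hp p hp
  · obtain rfl := List.mem_singleton.1 hp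
    exact ⟨h.fne hd, f4, f5⟩

/-! Reading one piece. -/

lemma splitZ0 (Z : List Rec) (i : ℕ) (he : Even i) (h : i ≤ (flat Z).length) :
    ∃ Z1 Z2, Z = Z1 ++ Z2 ∧ i = (flat Z1).length := by
  obtain ⟨j, rfl⟩ := he
  obtain ⟨Z1, Z2, rfl, rfl⟩ := split0 Z j (by rw [length_flat] at h; omega)
  exact ⟨Z1, Z2, rfl, by rw [length_flat]; omega⟩

lemma splitZ1 (Z : List Rec) (i : ℕ) (he : Even i) (h : i + 2 ≤ (flat Z).length) :
    ∃ Z1 r Z2, Z = Z1 ++ r :: Z2 ∧ i = (flat Z1).length := by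
  obtain ⟨j, rfl⟩ := he
  obtain ⟨Z1, r, Z2, rfl, rfl⟩ := split1 Z j (by rw [length_flat] at h; omega)
  exact ⟨Z1, r, Z2, rfl, by rw [length_flat]; omega⟩

lemma splitZ2 (Z : List Rec) (i : ℕ) (he : Odd i) (h : i + 2 ≤ (flat Z).length) :
    ∃ Z1 a p x b y q Z2, Z = Z1 ++ (a, p, x) :: (b, y, q) :: Z2 ∧ i = (flat Z1).length + 1 := by
  obtain ⟨j, rfl⟩ := he
  obtain ⟨Z1, ⟨a, p, x⟩, ⟨b, y, q⟩, Z2, rfl, rfl⟩ := split2 Z j (by rw [length_flat] at h; omega)
  exact ⟨Z1, a, p, x, b, y, q, Z2, rfl, by rw [length_flat]⟩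

/-- The list of negative pairs seen from a state. -/
def NP (n : ℕ) (Z : List Rec) (w : Word) : List (ℕ × ℕ) := negPairs n (eyes2 Z) (dirs (flat Z)) w

lemma nx_U (Z W : List Rec) (n : ℕ) (d : Bool) :
    nx true (dirs (flat (Z ++ W))) (U d (flat Z).length) =
      dirs (flat (Z ++ (n, (n, d), (n, !d)) :: W)) := by
  have := ins_app (dirs (flat Z)) (dirs (flat W)) d (!d)
  simp only [length_dirs] at this
  simp [U, nx, cp, this]

lemma nx_A (Z W : List Rec) (r : Rec) :
    nx true (dirs (flat (Z ++ r :: W))) (A (flat Z).length) = dirs (flat (Z ++ W)) := by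
  have := del_app (dirs (flat Z)) (dirs (flat W)) r.2.1.2 r.2.2.2
  simp only [length_dirs] at this
  simp [A, nx, this]

lemma nx_X (Z W : List Rec) (a b : ℕ) (p x y q : ℕ × Bool) :
    nx true (dirs (flat (Z ++ (a, p, x) :: (b, y, q) :: W))) (X ((flat Z).length + 1)) =
      dirs (flat (Z ++ (a, p, y) :: (b, x, q) :: W)) := by
  have := swp_app (dirs (flat Z) ++ [p.2]) (q.2 :: dirs (flat W)) x.2 y.2
  simp only [List.length_append, length_dirs, List.length_singleton, List.append_assoc,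
    List.cons_append, List.nil_append] at this
  simp [X, nx, this]

lemma NP_U (Z W : List Rec) (n : ℕ) (d : Bool) (w : Word) :
    NP n (Z ++ W) (U d (flat Z).length :: w) = NP (n + 1) (Z ++ (n, (n, d), (n, !d)) :: W) w := by
  have h1 := nx_U Z W n d
  have h2 := ins_app (eyes2 Z) (eyes2 W) n n
  rw [nx_true] at h1
  rw [length_eyes2] at h2
  simp only [NP, U, negPairs] at h1 ⊢
  rw [h1, eyes2_append, h2]; simp

lemma NP_A (Z W : List Rec) (r : Rec) (n : ℕ) (w : Word) :
    NP n (Z ++ r :: W) (A (flat Z).length :: w) = NP n (Z ++ W) w := by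
  have h1 := nx_A Z W r
  have h2 := del_app (eyes2 Z) (eyes2 W) r.1 r.1
  rw [nx_true] at h1
  rw [length_eyes2] at h2
  simp only [NP, A, negPairs] at h1 ⊢
  rw [h1, eyes2_append, eyes2_cons, h2]; simp

lemma NP_X (Z W : List Rec) (a b : ℕ) (p x y q : ℕ × Bool) (n : ℕ) (w : Word) :
    NP n (Z ++ (a, p, x) :: (b, y, q) :: W) (X ((flat Z).length + 1) :: w) =
      (if x.2 = y.2 then [] else [(a, b)]) ++ NP n (Z ++ (a, p, y) :: (b, x, q) :: W) w := by
  have h1 := nx_X Z W a b p x y q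
  have h2 := sgn_shift (dirs (flat Z)) (p.2 :: x.2 :: y.2 :: q.2 :: dirs (flat W)) (.cr true) 1
  rw [nx_true] at h1
  rw [length_dirs] at h2
  simp only [NP, X, negPairs] at h1 ⊢
  rw [h1]
  congr 1
  · simp only [flat_append, flat_cons, dirs_append, dirs_cons]
    rw [h2]
    simp only [eyes2_append, eyes2_cons, ← length_eyes2, add_assoc]
    cases x.2 <;> cases y.2 <;> simp [sgn, List.getD_eq_getElem?_getD]
  · simp

lemma alt_cons {g : Letter × ℕ} {w : Word} (h : AltFront (g :: w)) :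
    AltFront w ∧ ((∃ d, g = U d g.2 ∧ Even g.2) ∨ (g = A g.2 ∧ Even g.2) ∨
      (g = X g.2 ∧ Odd g.2)) := by
  refine ⟨fun g hg => h g (by simp [hg]), ?_⟩
  have := h g (by simp)
  obtain ⟨g, i⟩ := g
  rcases g with d | _ | b
  · exact Or.inl ⟨d, rfl, this⟩
  · exact Or.inr (Or.inl ⟨rfl, this⟩)
  · obtain ⟨rfl, h2⟩ := this
    exact Or.inr (Or.inr ⟨rfl, h2⟩)

theorem sweep_fwd {R : Type} [CommRing R] {z : R} (w : Word) (hw : AltFront w) {Z : List Rec}
    (h : SInv n Z lam f Hn Hp) (hne : evk z true w n (flat Z) fin0 ≠ 0) (a b : ℕ) :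
    Even (cnt (Hn ++ NP n Z w) a b) := by
  induction w generalizing n Z lam f Hn Hp with
  | nil =>
    obtain rfl : Z = [] := by
      cases Z
      · rfl
      · simp [evk, fin0] at hne
    simp only [NP, negPairs, List.append_nil]
    by_cases hab : b = a
    · subst hab; exact ⟨_, rfl⟩
    have h1 := congrFun (h.ddead a (by simp)) b
    rw [Pi.add_apply, SS_coord hab, SS_coord hab, ← Nat.cast_add, Pi.zero_apply,
      ZMod.natCast_eq_zero_iff_even] at h1
    by_cases hf : f a = f b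
    · have h2 : cnt Hp a b = 0 := by
        simp only [cnt, Nat.add_eq_zero_iff, List.count_eq_zero]
        exact ⟨fun hm => (h.hp _ hm).1 hf, fun hm => (h.hp _ hm).1 hf.symm⟩
      simpa [h2] using h1
    · have h2 : cnt Hn a b = 0 := by
        simp only [cnt, Nat.add_eq_zero_iff, List.count_eq_zero]
        exact ⟨fun hm => hf (h.hn _ hm).1, fun hm => hf (h.hn _ hm).1.symm⟩
      simp [h2]
  | cons g w ih =>
    have hl : g.2 + g.1.inp ≤ (flat Z).length := by
      by_contra hl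
      exact hne (stp_short (by omega))
    obtain ⟨hw', hg⟩ := alt_cons hw
    generalize g.2 = i at hg hl
    rcases hg with ⟨d, rfl, he⟩ | ⟨rfl, he⟩ | ⟨rfl, he⟩
    · obtain ⟨Z1, Z2, rfl, rfl⟩ := splitZ0 Z i he (by simpa [U, Letter.inp] using hl)
      rw [NP_U]
      refine ih hw' (h.cup d) ?_
      rw [flat_append, evU0] at hne
      simpa [cp] using hne
    · obtain ⟨Z1, r, Z2, rfl, rfl⟩ := splitZ1 Z i he (by simpa [A, Letter.inp] using hl)
      rw [NP_A]
      rw [flat_append, flat_cons, evA0] at hne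
      split_ifs at hne with hr
      · exact ih hw' (h.cap hr) (by simpa using hne)
      · exact absurd rfl hne
    · obtain ⟨Z1, c, p, x, d, y, q, Z2, rfl, rfl⟩ := splitZ2 Z i he (by
        simpa [X, Letter.inp] using hl)
      rw [NP_X]
      rw [flat_append, flat_cons, flat_cons, evX1] at hne
      by_cases hd : x.2 = y.2
      · rw [if_pos hd, List.nil_append]
        by_cases h1 : evk z true w n (flat (Z1 ++ (c, p, y) :: (d, x, q) :: Z2)) fin0 = 0
        · have h2 : evk z true w n (flat (Z1 ++ (c, p, x) :: (d, y, q) :: Z2)) fin0 ≠ 0 := by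
            intro h2
            simp only [flat_append, flat_cons] at h1 h2
            simp [h1, h2] at hne
          have h3 := ih hw' h h2
          have h4 : NP n (Z1 ++ (c, p, y) :: (d, x, q) :: Z2) w =
              NP n (Z1 ++ (c, p, x) :: (d, y, q) :: Z2) w := by simp [NP, hd]
          rwa [h4]
        · exact ih hw' (h.swapP hd) h1
      · rw [if_neg hd, ← List.append_assoc]
        refine ih hw' (h.swapN hd) ?_
        intro h1
        simp only [flat_append, flat_cons] at h1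
        simp [h1, hd] at hne

end Pool.Agent.Lib.MP_3a4f2f_gt
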