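import Pool.Agent.Lib.MP_3a4f2f_gt.Val

/-! Regular isotopy invariants and Rutherford's coefficient theorem, common part. -/

namespace Pool.Agent.Lib.MP_3a4f2f_gt

open LaurentPolynomial

abbrev L1 : Type := LaurentPolynomial ℤ

structure Sys (o : Bool) (Q : Word → L2) : Prop where
  mv : ∀ u v x y, RMove x y → V o (u ++ (x ++ v)) → Q (u ++ (x ++ v)) = Q (u ++ (y ++ v))
  cu : ∀ u v d b i, V o (u ++ (.cup d, i) :: (.cr b, i) :: v) →
    Q (u ++ (.cup d, i) :: (.cr b, i) :: v) = T (if b then 1 else -1) * Q (u ++ (.cup (!d), i) :: v)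
  ca : ∀ u v b i, V o (u ++ (.cr b, i) :: (.cap, i) :: v) →
    Q (u ++ (.cr b, i) :: (.cap, i) :: v) = T (if b then 1 else -1) * Q (u ++ (.cap, i) :: v)
  circle : ∀ d, Q [(.cup d, 0), (.cap, 0)] = 1

variable {o : Bool} {Q : Word → L2}

lemma V.curlCup {u v : Word} {d b : Bool} {i : ℕ}
    (h : V o (u ++ (.cup d, i) :: (.cr b, i) :: v)) : V o (u ++ (.cup (!d), i) :: v) := by
  have h1 := h.tail
  refine h.swap ?_
  obtain ⟨P, B, hE, rfl⟩ := split0 (rn o [] u) i (by simpa [Letter.inp] using val_len h1)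
  rw [hE] at h1 ⊢
  exact (curlCup_core P B d b v []).1.1 h1

lemma V.curlCap {u v : Word} {b : Bool} {i : ℕ}
    (h : V o (u ++ (.cr b, i) :: (.cap, i) :: v)) : V o (u ++ (.cap, i) :: v) := by
  have h1 := h.tail
  refine h.swap ?_
  obtain ⟨P, a, c, B, hE, rfl⟩ := split2 (rn o [] u) i (by simpa [Letter.inp] using val_len h1)
  rw [hE] at h1 ⊢
  exact (curlCap_core P B a c b v []).1.1 h1

lemma V.eye {u v : Word} {d : Bool} {i : ℕ} (hi : i ≤ (rn o [] u).length) :
    V o (u ++ (.cup d, i) :: (.cap, i) :: v) ↔ V o (u ++ v) := by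
  obtain ⟨P, B, hE, rfl⟩ := split0 (rn o [] u) i hi
  rw [V_iff, V_iff, hE, (eye_core P B d v []).1]

lemma V.flip {u v : Word} {b b' : Bool} {i : ℕ} (h : V o (u ++ (.cr b, i) :: v)) :
    V o (u ++ (.cr b', i) :: v) := by
  refine h.swap ?_
  have h1 := h.tail
  simpa [Val, Fit, nx, Letter.inp] using h1

lemma V.r2back {u v : Word} {b : Bool} {i : ℕ} (hi : i + 2 ≤ (rn o [] u).length)
    (h : V o (u ++ v)) : V o (u ++ (.cr b, i) :: (.cr (!b), i) :: v) := by
  have h1 := h.tail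
  refine h.swap ?_
  obtain ⟨P, a, c, B, hE, rfl⟩ := split2 (rn o [] u) i hi
  rw [hE] at h1 ⊢
  exact (r2_core P B a c b v []).1.2 h1

lemma rn_snoc (u : Word) (g : Letter × ℕ) : rn o [] (u ++ [g]) = nx o (rn o [] u) g := by
  simp [rn]

lemma len_cup {u : Word} {d : Bool} {i : ℕ} (hi : i ≤ (rn o [] u).length) :
    (rn o [] (u ++ [(.cup d, i)])).length = (rn o [] u).length + 2 := by
  rw [rn_snoc, length_nx (by simpa [Letter.inp] using hi)]; simp [Letter.inp, Letter.out]

/-- One step: validity passes on and the values agree up to the factor `κ`. -/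
def Stp (o : Bool) (Q : Word → L2) (κ : L2) (w w' : Word) : Prop :=
  V o w → V o w' ∧ Q w = κ * Q w'

lemma Stp.trans {κ κ' : L2} {a b c : Word} (h1 : Stp o Q κ a b) (h2 : Stp o Q κ' b c) :
    Stp o Q (κ * κ') a c := fun h => by
  obtain ⟨h3, h4⟩ := h1 h
  obtain ⟨h5, h6⟩ := h2 h3
  exact ⟨h5, by rw [h4, h6, mul_assoc]⟩

lemma Stp.trans1 {κ' : L2} {a b c : Word} (h1 : Stp o Q 1 a b) (h2 : Stp o Q κ' b c) :
    Stp o Q κ' a c := by simpa using h1.trans h2

lemma Stp.trans2 {κ : L2} {a b c : Word} (h1 : Stp o Q κ a b) (h2 : Stp o Q 1 b c) :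
    Stp o Q κ a c := by simpa using h1.trans h2

lemma Sys.fwd (h : Sys o Q) (u v : Word) {x y : Word} (hm : RMove x y) :
    Stp o Q 1 (u ++ (x ++ v)) (u ++ (y ++ v)) :=
  fun hv => ⟨hv.move hm, by rw [one_mul]; exact h.mv u v x y hm hv⟩

lemma Sys.bwd (h : Sys o Q) (u v : Word) {x y : Word} (hm : RMove x y)
    (hb : V o (u ++ (y ++ v)) → V o (u ++ (x ++ v))) :
    Stp o Q 1 (u ++ (y ++ v)) (u ++ (x ++ v)) :=
  fun hv => ⟨hb hv, by rw [one_mul]; exact (h.mv u v x y hm (hb hv)).symm⟩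

lemma Sys.commF (h : Sys o Q) (u v : Word) (k l : Letter) (i t : ℕ) :
    Stp o Q 1 (u ++ (k, i) :: (l, i + t + k.out) :: v) (u ++ (l, i + t + k.inp) :: (k, i) :: v) :=
  h.fwd u v (.comm k l i t)

lemma Sys.commB (h : Sys o Q) (u v : Word) (k l : Letter) (i t : ℕ) :
    Stp o Q 1 (u ++ (l, i + t + k.inp) :: (k, i) :: v) (u ++ (k, i) :: (l, i + t + k.out) :: v) :=
  h.bwd u v (.comm k l i t) fun hv => hv.swap (comm_back hv.tail)

lemma Sys.slF (h : Sys o Q) (u v : Word) (d b : Bool) (i : ℕ) :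
    Stp o Q 1 (u ++ (.cup d, i + 1) :: (.cr b, i) :: v)
      (u ++ (.cup d, i) :: (.cr (!b), i + 1) :: v) := h.fwd u v (.slideCup d b i)

lemma Sys.slB (h : Sys o Q) (u v : Word) (d b : Bool) (i : ℕ) :
    Stp o Q 1 (u ++ (.cup d, i) :: (.cr b, i + 1) :: v)
      (u ++ (.cup d, i + 1) :: (.cr (!b), i) :: v) := by
  have := h.bwd u v (.slideCup d (!b) i) fun hv => hv.swap (slideCup_back hv.tail)
  simpa using this

lemma Sys.scB (h : Sys o Q) (u v : Word) (b : Bool) (i : ℕ) :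
    Stp o Q 1 (u ++ (.cr b, i + 1) :: (.cap, i) :: v) (u ++ (.cr (!b), i) :: (.cap, i + 1) :: v) := by
  have := h.bwd u v (.slideCap (!b) i) fun hv => hv.swap (slideCap_back (allT_ctx u) hv.tail)
  simpa using this

lemma Sys.r2F (h : Sys o Q) (u v : Word) (g : Letter × ℕ) (b : Bool) (i : ℕ) :
    Stp o Q 1 (u ++ g :: (.cr b, i) :: (.cr (!b), i) :: v) (u ++ g :: v) := by
  simpa using h.fwd (u ++ [g]) v (.r2 b i)

lemma Sys.caS (h : Sys o Q) (u v : Word) (b : Bool) (i : ℕ) :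
    Stp o Q (T (if b then 1 else -1)) (u ++ (.cr b, i) :: (.cap, i) :: v) (u ++ (.cap, i) :: v) :=
  fun hv => ⟨hv.curlCap, h.ca u v b i hv⟩

lemma Sys.kinkUp (h : Sys o Q) (u v : Word) (d b : Bool) (m : ℕ) :
    Stp o Q (T (if b then -1 else 1))
      (u ++ (.cup d, m) :: (.cr b, m + 1) :: (.cap, m) :: v) (u ++ v) := by
  have h1 := h.slB u ((.cap, m) :: v) d b m
  have h2 := h.caS (u ++ [(.cup d, m + 1)]) v (!b) m
  have h3 := h.fwd u v (.zig d m)
  simp only [List.append_assoc, List.cons_append, List.nil_append] at h2 h3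
  have := (h1.trans1 h2).trans2 h3
  cases b <;> simpa using this

lemma Sys.kinkDn (h : Sys o Q) (u v : Word) (d b : Bool) (m : ℕ) :
    Stp o Q (T (if b then -1 else 1))
      (u ++ (.cup d, m + 1) :: (.cr b, m) :: (.cap, m + 1) :: v) (u ++ v) := by
  have h1 := h.slF u ((.cap, m + 1) :: v) d b m
  have h2 := h.caS (u ++ [(.cup d, m)]) v (!b) (m + 1)
  have h3 := h.fwd u v (.zag d m)
  simp only [List.append_assoc, List.cons_append, List.nil_append] at h2 h3
  have := (h1.trans1 h2).trans2 h3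
  cases b <;> simpa using this

lemma Sys.eyeMove (h : Sys o Q) (u v : Word) (d : Bool) (m : ℕ) (hm : m < (rn o [] u).length)
    (hv : V o (u ++ v)) :
    Q (u ++ (.cup d, m) :: (.cap, m) :: v) = Q (u ++ (.cup d, m + 1) :: (.cap, m + 1) :: v) := by
  have v0 : V o (u ++ [(.cup d, m)] ++ (.cap, m) :: v) := by
    simpa using (V.eye (d := d) hm.le).2 hv
  have v1 := V.r2back (b := true) (i := m + 1) (by rw [len_cup hm.le]; omega) v0
  simp only [List.append_assoc, List.cons_append, List.nil_append] at v1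
  have h0 := h.r2F u ((.cap, m) :: v) (.cup d, m) true (m + 1) v1
  have h1 := h.slB u ((.cr (!true), m + 1) :: (.cap, m) :: v) d true m
  have h2 := h.scB (u ++ [(.cup d, m + 1), (.cr (!true), m)]) v (!true) m
  have h3 := h.r2F u ((.cap, m + 1) :: v) (.cup d, m + 1) (!true) m
  simp only [List.append_assoc, List.cons_append, List.nil_append] at h2
  have h4 := ((h1.trans1 h2).trans1 h3) v1
  rw [one_mul] at h0 h4
  rw [← h0.2, h4.2]

lemma val_nil_noCup {v : Word} (hv : NoCup v) (h : Val o [] v []) : v = [] := by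
  cases v with
  | nil => rfl
  | cons g v =>
    have h1 := val_len h
    obtain ⟨g, i⟩ := g
    rcases g with d | _ | b
    · exact absurd rfl ((noCup_cons.1 hv).1 d)
    all_goals simp [Letter.inp] at h1

lemma Sys.eyeAll (h : Sys o Q) (κ δ : L2)
    (adj : ∀ u v d m, m < (rn o [] u).length → V o (u ++ v) →
      κ * Q (u ++ (.cup d, m) :: (.cap, m) :: v) = δ * Q (u ++ v) ∨
      κ * Q (u ++ (.cup d, m + 1) :: (.cap, m + 1) :: v) = δ * Q (u ++ v))
    (u v : Word) (d : Bool) (m : ℕ) (hc : NoCup v) (hne : u ++ v ≠ [])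
    (hv : V o (u ++ (.cup d, m) :: (.cap, m) :: v)) :
    κ * Q (u ++ (.cup d, m) :: (.cap, m) :: v) = δ * Q (u ++ v) := by
  have main : ∀ u v m, 0 < (rn o [] u).length → m ≤ (rn o [] u).length → V o (u ++ v) →
      κ * Q (u ++ (.cup d, m) :: (.cap, m) :: v) = δ * Q (u ++ v) := by
    intro u v m h0 hm hv
    rcases Nat.lt_or_ge m (rn o [] u).length with h1 | h1
    · rcases adj u v d m h1 hv with h2 | h2
      · exact h2
      · rw [h.eyeMove u v d m h1 hv]; exact h2
    · obtain ⟨m', rfl⟩ : ∃ m', m = m' + 1 := ⟨m - 1, by omega⟩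
      rcases adj u v d m' (by omega) hv with h2 | h2
      · rw [← h.eyeMove u v d m' (by omega) hv]; exact h2
      · exact h2
  have hm : m ≤ (rn o [] u).length := by simpa [Letter.inp] using val_len hv.tail
  have hv' := (V.eye hm).1 hv
  rcases Nat.eq_zero_or_pos (rn o [] u).length with h0 | h0
  · have hE : rn o [] u = [] := List.length_eq_zero_iff.1 h0
    obtain rfl : v = [] := val_nil_noCup hc (by have := hv'.tail; rwa [hE] at this)
    obtain rfl : m = 0 := by omega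
    rcases List.eq_nil_or_concat u with rfl | ⟨u', g, rfl⟩
    · simp at hne
    rw [List.concat_eq_append] at *
    simp only [List.append_nil] at hv'
    have h1 := val_len hv'.tail
    have h2 := length_nx (o := o) h1
    rw [← rn_snoc, h0] at h2
    obtain ⟨g, i⟩ := g
    obtain ⟨rfl, rfl, hl⟩ : g = .cap ∧ i = 0 ∧ (rn o [] u').length = 2 := by
      cases g <;> simp [Letter.inp, Letter.out] at h1 h2 ⊢
      omega
    have h3 := h.commF u' [(.cap, 0)] .cap (.cup d) 0 0
    have h4 := h.commF (u' ++ [(.cup d, 2)]) [] .cap .cap 0 0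
    simp only [Letter.inp, Letter.out, add_zero, zero_add, List.append_assoc, List.cons_append,
      List.nil_append, List.append_nil] at h3 h4 hv ⊢
    have h5 := (h3.trans1 h4) hv
    rw [h5.2, one_mul]
    exact main u' [(.cap, 0)] 2 (by omega) (by omega) hv'
  · exact main u v m h0 hm hv'

/-! Lowest coefficients. -/

def Low (c : L1) (p : L2) (r : L1) : Prop := (∀ j < 0, p.coeff j = 0) ∧ c ∣ p.coeff 0 - r

lemma coeff_T_mul {S : Type} [CommRing S] (n j : ℤ) (p : S[T;T⁻¹]) :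
    (T n * p : S[T;T⁻¹]).coeff j = p.coeff (j - n) := by
  induction p using LaurentPolynomial.induction_on' with
  | add p q hp hq => simp only [mul_add, AddMonoidAlgebra.coeff_add, Finsupp.add_apply, hp, hq]
  | C_mul_T m a =>
    rw [mul_left_comm, ← T_add, ← single_eq_C_mul_T, ← single_eq_C_mul_T]
    simp only [AddMonoidAlgebra.coeff_single, Finsupp.single_apply]
    exact if_congr (by omega) rfl rfl

lemma coeff_C_mul {S : Type} [CommRing S] (a : S) (j : ℤ) (p : S[T;T⁻¹]) :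
    (C a * p : S[T;T⁻¹]).coeff j = a * p.coeff j := by
  rw [← smul_eq_C_mul]; rfl

variable {c : L1}

lemma Low.add {p q : L2} {r s : L1} (h1 : Low c p r) (h2 : Low c q s) : Low c (p + q) (r + s) := by
  refine ⟨fun j hj => by simp [h1.1 j hj, h2.1 j hj], ?_⟩
  have := dvd_add h1.2 h2.2
  simp only [AddMonoidAlgebra.coeff_add, Finsupp.add_apply]
  rwa [show p.coeff 0 + q.coeff 0 - (r + s) = p.coeff 0 - r + (q.coeff 0 - s) by ring]

lemma Low.cmul {p : L2} {r : L1} (h1 : Low c p r) (a : L1) : Low c (C a * p) (a * r) := by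
  refine ⟨fun j hj => by rw [coeff_C_mul, h1.1 j hj, mul_zero], ?_⟩
  rw [coeff_C_mul, ← mul_sub]; exact h1.2.mul_left a

lemma Low.neg {p : L2} {r : L1} (h1 : Low c p r) : Low c (-p) (-r) := by
  have := h1.cmul (-1)
  have h2 : (C (-1) : L2) * p = -p := by rw [map_neg, map_one]; ring
  rwa [h2, neg_one_mul] at this

lemma Low.shift {p : L2} {r : L1} (h1 : Low c p r) : Low c (T 1 * p) 0 := by
  refine ⟨fun j hj => by rw [coeff_T_mul, h1.1 _ (by omega)], ?_⟩
  rw [coeff_T_mul, h1.1 _ (by omega)]; simp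

lemma Low.modc {p : L2} {r s : L1} (h1 : Low c p r) (h : c ∣ r - s) : Low c p s :=
  ⟨h1.1, by simpa using dvd_add h1.2 h⟩

lemma low_one : Low c 1 1 := by
  rw [← T_zero]
  refine ⟨fun j hj => ?_, by simp⟩
  rw [T_apply, if_neg (by omega)]

end Pool.Agent.Lib.MP_3a4f2f_gt
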