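import Pool.Agent.Lib.MP_3a4f2f_gt.Sweep

/-! The top coefficient of the ruling polynomial. -/

namespace Pool.Agent.Lib.MP_3a4f2f_gt

open LaurentPolynomial

def same (E : List Bool) : Letter × ℕ → ℤ
  | (.cr _, i) => if E.getD i true = E.getD (i + 1) true then 1 else 0
  | _ => 0

def sc (o : Bool) : List Bool → Word → ℤ
  | _, [] => 0
  | E, g :: w => same E g + sc o (nx o E g) w

variable {o : Bool}

lemma sc_U (P B : St) (n : ℕ) (d : Bool) (w : Word) :
    sc o (dirs (P ++ B)) (U d P.length :: w) =
      sc o (dirs (P ++ (n, (cp o d).1) :: (n, (cp o d).2) :: B)) w := by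
  have := ins_app (dirs P) (dirs B) (cp o d).1 (cp o d).2
  simp only [length_dirs] at this
  simp [sc, U, same, nx, this]

lemma sc_A (P B : St) (p q : ℕ × Bool) (w : Word) :
    sc o (dirs (P ++ p :: q :: B)) (A P.length :: w) = sc o (dirs (P ++ B)) w := by
  have := del_app (dirs P) (dirs B) p.2 q.2
  simp only [length_dirs] at this
  simp [sc, A, same, nx, this]

lemma sc_X (P B : St) (p q : ℕ × Bool) (w : Word) :
    sc o (dirs (P ++ p :: q :: B)) (X P.length :: w) =
      (if p.2 = q.2 then 1 else 0) + sc o (dirs (P ++ q :: p :: B)) w := by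
  have := swp_app (dirs P) (dirs B) p.2 q.2
  have h0 := getD_shift (dirs P) (p.2 :: q.2 :: dirs B) 0
  have h1 := getD_shift (dirs P) (p.2 :: q.2 :: dirs B) 1
  simp only [length_dirs, add_zero] at this h0 h1
  simp only [sc, X, same, nx, dirs_append, dirs_cons, this, h0, h1]
  simp

lemma deg_le (w : Word) (hw : AltFront w) (n : ℕ) (s : St) (j : ℤ) (hj : sc o (dirs s) w < j) :
    (evk (T 1 : L1) o w n s fin0).coeff j = 0 := by
  induction w generalizing n s j with
  | nil =>
    simp only [evk, fin0, sc] at hj ⊢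
    split_ifs
    · rw [← T_zero, T_apply, if_neg (by omega)]
    · rfl
  | cons g w ih =>
    by_cases hl : s.length < g.2 + g.1.inp
    · simp only [evk]; rw [stp_short hl]; rfl
    obtain ⟨hw', hg⟩ := alt_cons hw
    generalize g.2 = i at hg hl
    rcases hg with ⟨d, rfl, -⟩ | ⟨rfl, -⟩ | ⟨rfl, -⟩
    · obtain ⟨P, B, rfl, rfl⟩ := split0 s i (by simpa [U, Letter.inp] using hl)
      rw [evU0]
      exact ih hw' _ _ _ (by rwa [sc_U P B n] at hj)
    · obtain ⟨P, p, q, B, rfl, rfl⟩ := split2 s i (by simpa [A, Letter.inp] using hl)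
      rw [evA0]
      split_ifs
      · exact ih hw' _ _ _ (by rwa [sc_A] at hj)
      · rfl
    · obtain ⟨P, p, q, B, rfl, rfl⟩ := split2 s i (by simpa [X, Letter.inp] using hl)
      rw [evX0]
      rw [sc_X] at hj
      have h1 := ih hw' n (P ++ q :: p :: B) j (by split_ifs at hj <;> omega)
      split_ifs with h2 h3
      · rfl
      · rw [if_pos h3.1] at hj
        have h4 := ih hw' n (P ++ p :: q :: B) (j - 1) (by
          simp only [dirs_append, dirs_cons, h3.1] at hj ⊢; omega)
        simp only [AddMonoidAlgebra.coeff_add, Finsupp.add_apply, coeff_T_mul, h1, h4, add_zero]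
      · simpa using h1

noncomputable def top (o : Bool) (w : Word) (n : ℕ) (s : St) : ℤ :=
  (evk (T 1 : L1) o w n s fin0).coeff (sc o (dirs s) w)

lemma top_nil (n : ℕ) : top o [] n [] = 1 := by
  simp only [top, evk, fin0, sc, if_true]
  rw [← T_zero, T_apply, if_pos rfl]

lemma top_U (P B : St) (n : ℕ) (d : Bool) (w : Word) :
    top o (U d P.length :: w) n (P ++ B) =
      top o w (n + 1) (P ++ (n, (cp o d).1) :: (n, (cp o d).2) :: B) := by
  rw [top, evU0, sc_U P B n]; rfl

lemma top_A (P B : St) (p q : ℕ × Bool) (n : ℕ) (w : Word) (h : p.1 = q.1) :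
    top o (A P.length :: w) n (P ++ p :: q :: B) = top o w n (P ++ B) := by
  rw [top, evA0, sc_A, if_pos h]; rfl

lemma top_Xn (P B : St) (p q : ℕ × Bool) (n : ℕ) (w : Word) (h : p.1 ≠ q.1) (hd : p.2 ≠ q.2) :
    top o (X P.length :: w) n (P ++ p :: q :: B) = top o w n (P ++ q :: p :: B) := by
  rw [top, evX0, sc_X, if_neg h, if_neg hd, if_neg (fun h => hd h.1), add_zero, zero_add]; rfl

lemma top_Xs (P B : St) (p q : ℕ × Bool) (n : ℕ) (w : Word) (hw : AltFront w) (h : p.1 ≠ q.1)
    (hd : p.2 = q.2) (hb : before (lab B ++ lab P) q.1 p.1 = true) :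
    top o (X P.length :: w) n (P ++ p :: q :: B) = top o w n (P ++ p :: q :: B) := by
  rw [top, evX0, sc_X, if_neg h, if_pos hd, if_pos ⟨hd, hb⟩]
  simp only [AddMonoidAlgebra.coeff_add, Finsupp.add_apply, coeff_T_mul]
  rw [deg_le w hw n _ _ (by omega), zero_add, top]
  simp [hd]

/-! The unoriented case: all crossings are switches. -/

def dbl : List ℕ → St
  | [] => []
  | a :: L => (a, true) :: (a, true) :: dbl L

@[simp] lemma dbl_nil : dbl [] = [] := rfl
@[simp] lemma dbl_cons (a : ℕ) (L : List ℕ) : dbl (a :: L) = (a, true) :: (a, true) :: dbl L := rfl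
@[simp] lemma dbl_append (L M : List ℕ) : dbl (L ++ M) = dbl L ++ dbl M := by
  induction L with
  | nil => rfl
  | cons a L ih => simp [ih]
lemma length_dbl (L : List ℕ) : (dbl L).length = 2 * L.length := by
  induction L with
  | nil => rfl
  | cons a L ih => simp [ih]; omega

theorem top_false (w : Word) (hw : AltFront w) (n : ℕ) (L : List ℕ) (hL : L.Nodup)
    (hlt : ∀ a ∈ L, a < n) (hv : UValid (2 * L.length) w 0) : top false w n (dbl L) = 1 := by
  induction w generalizing n L with
  | nil =>
    obtain rfl : L = [] := List.length_eq_zero_iff.1 (by simp only [UValid] at hv; omega)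
    exact top_nil n
  | cons g w ih =>
    obtain ⟨hw', hg⟩ := alt_cons hw
    obtain ⟨hl, hv⟩ := hv
    generalize g.2 = i at hg hl
    rcases hg with ⟨d, rfl, j, rfl⟩ | ⟨rfl, j, rfl⟩ | ⟨rfl, j, rfl⟩
    · obtain ⟨P, B, rfl, rfl⟩ := split0 L j (by simp [U, Letter.inp] at hl; omega)
      rw [← two_mul, ← length_dbl, dbl_append, top_U]
      have := ih hw' (n + 1) (P ++ n :: B)
        (List.perm_middle.nodup_iff.2 (List.nodup_cons.2 ⟨fun h => lt_irrefl _ (hlt n h), hL⟩))
        (fun a ha => by
          simp only [List.mem_append, List.mem_cons] at ha hlt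
          rcases ha with ha | rfl | ha
          exacts [(hlt a (Or.inl ha)).trans (by omega), by omega,
            (hlt a (Or.inr ha)).trans (by omega)])
        (by simpa [U, Letter.inp, Letter.out, mul_add, add_assoc] using hv)
      simpa [cp] using this
    · obtain ⟨P, a, B, rfl, rfl⟩ := split1 L j (by simp [A, Letter.inp] at hl; omega)
      rw [← two_mul, ← length_dbl, dbl_append, dbl_cons, top_A _ _ _ _ _ _ rfl, ← dbl_append]
      refine ih hw' n (P ++ B) (List.nodup_cons.1 (List.perm_middle.nodup_iff.1 hL)).2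
        (fun b hb => hlt b (by simp at hb ⊢; tauto)) ?_
      simpa [A, Letter.inp, Letter.out, mul_add, ← add_assoc] using hv
    · obtain ⟨P, a, b, B, rfl, rfl⟩ := split2 L j (by simp [X, Letter.inp] at hl; omega)
      have hab : a ≠ b := by
        have := (perm_mid2 _ _ _ _).nodup_iff.1 hL
        simp only [List.nodup_cons, List.mem_cons, not_or] at this
        exact this.1.1
      have := top_Xs (o := false) (dbl P ++ [(a, true)]) ((b, true) :: dbl B) (a, true) (b, true) n w
        hw' hab rfl (by simp [before])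
      simp only [List.length_append, length_dbl, List.length_singleton, List.append_assoc,
        List.cons_append, List.nil_append] at this
      rw [dbl_append, dbl_cons, dbl_cons, this]
      have h2 := ih hw' n (P ++ a :: b :: B) hL hlt (by
        simp only [X, Letter.inp, Letter.out] at hv hl
        rwa [Nat.sub_add_cancel (by omega)] at hv)
      simpa using h2

end Pool.Agent.Lib.MP_3a4f2f_gt
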