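import Pool.Agent.Lib.MP_3a4f2f_gt.EqFix
import Pool.Agent.Lib.MP_3a4f2f_gt.RulId

/-! Validity and writhe under the moves. -/

namespace Pool.Agent.Lib.MP_3a4f2f_gt

def Fit (o : Bool) (E : List Bool) (g : Letter × ℕ) : Prop :=
  g.2 + g.1.inp ≤ E.length ∧ (o = true → g.1 = .cap → E.getD g.2 true ≠ E.getD (g.2 + 1) true)

def Val (o : Bool) : List Bool → Word → List Bool → Prop
  | E, [], E' => E = E'
  | E, g :: w, E' => Fit o E g ∧ Val o (nx o E g) w E'

variable {o : Bool}

lemma nx_true (E : List Bool) (g : Letter × ℕ) : nx true E g = next E g := by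
  obtain ⟨g, i⟩ := g; cases g <;> simp [nx, next, cp]

lemma rn_true (E : List Bool) (w : Word) : rn true E w = run E w := by
  have : nx true = next := by funext E g; exact nx_true E g
  simp [rn, run, this]

lemma val_true {E E' : List Bool} {w : Word} : Val true E w E' ↔ Valid E w E' := by
  induction w generalizing E with
  | nil => rfl
  | cons g w ih => simp [Val, Valid, ih, nx_true, Fit, Fits]

lemma nx_shift (Q R : List Bool) (l : Letter) (t : ℕ) :
    nx o (Q ++ R) (l, Q.length + t) = Q ++ nx o R (l, t) := by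
  cases l <;> simp [nx, ins, del, swp, add_assoc, List.take_append, List.drop_append,
    List.take_of_length_le, List.drop_eq_nil_of_le]

lemma getD_shift (Q R : List Bool) (t : ℕ) : (Q ++ R).getD (Q.length + t) true = R.getD t true := by
  simp [List.getD_eq_getElem?_getD, List.getElem?_append_right]

lemma fit_shift (Q R : List Bool) (l : Letter) (t : ℕ) :
    Fit o (Q ++ R) (l, Q.length + t) ↔ Fit o R (l, t) := by
  simp only [Fit, add_assoc, getD_shift, List.length_append, add_le_add_iff_left]

lemma sgn_shift (Q R : List Bool) (l : Letter) (t : ℕ) :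
    sgn (Q ++ R) (l, Q.length + t) = sgn R (l, t) := by
  cases l <;> simp only [sgn, add_assoc, getD_shift]

lemma nx_shift0 (Q R : List Bool) (l : Letter) :
    nx o (Q ++ R) (l, Q.length) = Q ++ nx o R (l, 0) := nx_shift Q R l 0
lemma fit_shift0 (Q R : List Bool) (l : Letter) :
    Fit o (Q ++ R) (l, Q.length) ↔ Fit o R (l, 0) := fit_shift Q R l 0
lemma sgn_shift0 (Q R : List Bool) (l : Letter) :
    sgn (Q ++ R) (l, Q.length) = sgn R (l, 0) := sgn_shift Q R l 0

lemma length_nx {E : List Bool} {g : Letter × ℕ} (h : g.2 + g.1.inp ≤ E.length) :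
    (nx o E g).length = E.length - g.1.inp + g.1.out := by
  obtain ⟨g, i⟩ := g
  cases g <;> simp [nx, ins, del, swp, Letter.inp, Letter.out] at h ⊢ <;> omega

lemma uvalid_iff {E : List Bool} {w : Word} {m : ℕ} :
    UValid E.length w m ↔ ∃ E', Val false E w E' ∧ E'.length = m := by
  induction w generalizing E with
  | nil => simp [UValid, Val]
  | cons g w ih =>
    simp only [UValid, Val, Fit, Bool.false_eq_true, false_imp_iff, and_true]
    constructor
    · rintro ⟨h1, h2⟩
      rw [← length_nx (o := false) h1, ih] at h2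
      obtain ⟨E', h3, h4⟩ := h2
      exact ⟨E', ⟨h1, h3⟩, h4⟩
    · rintro ⟨E', ⟨h1, h3⟩, h4⟩
      refine ⟨h1, ?_⟩
      rw [← length_nx (o := false) h1, ih]
      exact ⟨E', h3, h4⟩

lemma val_false {w : Word} : Val false [] w [] ↔ UValid 0 w 0 := by
  have := @uvalid_iff [] w 0
  simpa using this.symm

lemma val_weaken {E E' : List Bool} {w : Word} (h : Val o E w E') :
    UValid E.length w E'.length := by
  induction w generalizing E with
  | nil => simp only [Val] at h; simp [UValid, h]
  | cons g w ih => exact ⟨h.1.1, by rw [← length_nx (o := o) h.1.1]; exact ih h.2⟩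

lemma val_append {E E' : List Bool} {u v : Word} :
    Val o E (u ++ v) E' ↔ Val o E u (rn o E u) ∧ Val o (rn o E u) v E' := by
  induction u generalizing E with
  | nil => simp [Val, rn]
  | cons g u ih => simp only [List.cons_append, Val, ih, rn, List.foldl_cons, and_assoc]

lemma wr_append (E : List Bool) (u v : Word) :
    wr E (u ++ v) = wr E u + wr (rn true E u) v := by
  induction u generalizing E with
  | nil => simp [wr, rn]
  | cons g u ih => simp only [List.cons_append, wr, ih, rn, List.foldl_cons, nx_true, add_assoc]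

lemma wr_cons (E : List Bool) (g : Letter × ℕ) (w : Word) :
    wr E (g :: w) = sgn E g + wr (nx true E g) w := by rw [nx_true]; rfl

def AllT (E : List Bool) : Prop := ∀ e ∈ E, e = true

lemma allT_nx {E : List Bool} (h : AllT E) (g : Letter × ℕ) : AllT (nx false E g) := by
  obtain ⟨g, i⟩ := g
  intro e he
  cases g <;> simp only [nx, ins, del, swp, cp, List.mem_append, List.mem_cons, List.mem_reverse,
    Bool.false_eq_true, if_false] at he
  · rcases he with he | rfl | rfl | he
    exacts [h e (List.mem_of_mem_take he), rfl, rfl, h e (List.mem_of_mem_drop he)]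
  · rcases he with he | he
    exacts [h e (List.mem_of_mem_take he), h e (List.mem_of_mem_drop he)]
  · rcases he with he | he | he
    exacts [h e (List.mem_of_mem_take he),
      h e (List.mem_of_mem_drop (List.mem_of_mem_take he)), h e (List.mem_of_mem_drop he)]

lemma allT_rn {E : List Bool} (h : AllT E) (u : Word) : AllT (rn false E u) := by
  induction u generalizing E with
  | nil => exact h
  | cons g u ih => exact ih (allT_nx h g)

/-- A piece acts only on the strands it touches. -/
lemma local0 (k : Letter) (I R : List Bool) (h : I.length = k.inp) :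
    nx o (I ++ R) (k, 0) = nx o I (k, 0) ++ R ∧ (Fit o (I ++ R) (k, 0) ↔ Fit o I (k, 0)) ∧
    sgn (I ++ R) (k, 0) = sgn I (k, 0) ∧ (nx o I (k, 0)).length = k.out := by
  cases k
  · obtain rfl : I = [] := List.length_eq_zero_iff.1 h
    simp [nx, ins, Fit, sgn, Letter.inp, Letter.out]
  all_goals
    obtain ⟨a, b, rfl⟩ := List.length_eq_two.1 h
    simp [nx, del, swp, Fit, sgn, Letter.inp, Letter.out]

lemma comm_core (k l : Letter) (P I R : List Bool) (t : ℕ) (h : I.length = k.inp) (v : Word)
    (E' : List Bool) :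
    (Val o (P ++ (I ++ R)) ((k, P.length) :: (l, P.length + t + k.out) :: v) E' ↔
      Val o (P ++ (I ++ R)) ((l, P.length + t + k.inp) :: (k, P.length) :: v) E') ∧
    wr (P ++ (I ++ R)) ((k, P.length) :: (l, P.length + t + k.out) :: v) =
      wr (P ++ (I ++ R)) ((l, P.length + t + k.inp) :: (k, P.length) :: v) := by
  have e1 : ∀ o, P.length + t + k.out = P.length + ((nx o I (k, 0)).length + t) := fun o => by
    rw [(local0 (o := o) k I R h).2.2.2]; omega
  have e2 : P.length + t + k.inp = P.length + (I.length + t) := by omega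
  constructor
  · rw [e1 o, e2]
    simp only [Val, nx_shift, fit_shift, nx_shift0, fit_shift0, (local0 k I _ h).1,
      (local0 k I _ h).2.1]
    tauto
  · rw [e1 true, e2]
    simp only [wr_cons, nx_shift, sgn_shift, nx_shift0, sgn_shift0, (local0 k I _ h).1,
      (local0 (o := true) k I _ h).2.2.1]
    ring

lemma split_in (E : List Bool) (i a : ℕ) (h : i + a ≤ E.length) :
    ∃ P I R, E = P ++ (I ++ R) ∧ i = P.length ∧ I.length = a :=
  ⟨E.take i, (E.drop i).take a, (E.drop i).drop a, by simp, by simp; omega, by simp; omega⟩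

lemma split3 {α : Type} (L : List α) (i : ℕ) (h : i + 3 ≤ L.length) :
    ∃ P x y w B, L = P ++ x :: y :: w :: B ∧ i = P.length := by
  obtain ⟨P, x, y, B, rfl, rfl⟩ := split2 L i (by omega)
  obtain ⟨w, B, rfl⟩ := List.exists_cons_of_length_pos (l := B) (by simp at h; omega)
  exact ⟨P, x, y, w, B, rfl, rfl⟩

lemma val_len {E E' : List Bool} {g : Letter × ℕ} {w : Word} (h : Val o E (g :: w) E') :
    g.2 + g.1.inp ≤ E.length := h.1.1

lemma val_len2 {E E' : List Bool} {g g' : Letter × ℕ} {w : Word} (h : Val o E (g :: g' :: w) E') :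
    g'.2 + g'.1.inp ≤ E.length - g.1.inp + g.1.out := by
  rw [← length_nx (o := o) h.1.1]; exact h.2.1.1

lemma allT_mid {P B : List Bool} {a : Bool} (h : AllT (P ++ a :: B)) : a = true := h a (by simp)

lemma zig_core (P B : List Bool) (a d : Bool) (v : Word) (E' : List Bool)
    (hT : o = false → a = true) :
    (Val o (P ++ a :: B) ((.cup d, P.length + 1) :: (.cap, P.length) :: v) E' ↔
      (o = true → a ≠ d) ∧ Val o (P ++ a :: B) v E') ∧
    (a ≠ d → wr (P ++ a :: B) ((.cup d, P.length + 1) :: (.cap, P.length) :: v) =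
      wr (P ++ a :: B) v) := by
  simp only [Val, wr_cons, nx_shift, nx_shift0, fit_shift, fit_shift0, sgn_shift, sgn_shift0]
  cases o <;> cases a <;> cases d <;> simp [nx, ins, del, Fit, sgn, cp, Letter.inp] at hT ⊢

lemma zag_core (P B : List Bool) (a d : Bool) (v : Word) (E' : List Bool)
    (hT : o = false → a = true) :
    (Val o (P ++ a :: B) ((.cup d, P.length) :: (.cap, P.length + 1) :: v) E' ↔
      (o = true → a = d) ∧ Val o (P ++ a :: B) v E') ∧
    (a = d → wr (P ++ a :: B) ((.cup d, P.length) :: (.cap, P.length + 1) :: v) =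
      wr (P ++ a :: B) v) := by
  simp only [Val, wr_cons, nx_shift, nx_shift0, fit_shift, fit_shift0, sgn_shift, sgn_shift0]
  cases o <;> cases a <;> cases d <;> simp [nx, ins, del, Fit, sgn, cp, Letter.inp] at hT ⊢

lemma slideCup_core (P B : List Bool) (a d b : Bool) (v : Word) (E' : List Bool) :
    (Val o (P ++ a :: B) ((.cup d, P.length + 1) :: (.cr b, P.length) :: v) E' ↔
      Val o (P ++ a :: B) ((.cup d, P.length) :: (.cr (!b), P.length + 1) :: v) E') ∧
    wr (P ++ a :: B) ((.cup d, P.length + 1) :: (.cr b, P.length) :: v) =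
      wr (P ++ a :: B) ((.cup d, P.length) :: (.cr (!b), P.length + 1) :: v) := by
  simp only [Val, wr_cons, nx_shift, nx_shift0, fit_shift, fit_shift0, sgn_shift, sgn_shift0]
  cases a <;> cases d <;> cases b <;> simp [nx, ins, swp, Fit, sgn, cp, Letter.inp]

lemma slideCap_core (P B : List Bool) (a c e b : Bool) (v : Word) (E' : List Bool)
    (hT : o = false → a = true ∧ c = true ∧ e = true) :
    (Val o (P ++ a :: c :: e :: B) ((.cr b, P.length) :: (.cap, P.length + 1) :: v) E' ↔
      Val o (P ++ a :: c :: e :: B) ((.cr (!b), P.length + 1) :: (.cap, P.length) :: v) E') ∧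
    (a ≠ e → wr (P ++ a :: c :: e :: B) ((.cr b, P.length) :: (.cap, P.length + 1) :: v) =
      wr (P ++ a :: c :: e :: B) ((.cr (!b), P.length + 1) :: (.cap, P.length) :: v)) ∧
    (Val o (P ++ a :: c :: e :: B) ((.cr b, P.length) :: (.cap, P.length + 1) :: v) E' →
      o = true → a ≠ e) := by
  simp only [Val, wr_cons, nx_shift, nx_shift0, fit_shift, fit_shift0, sgn_shift, sgn_shift0]
  cases o <;> cases a <;> cases c <;> cases e <;> cases b <;>
    simp [nx, del, swp, Fit, sgn, Letter.inp] at hT ⊢

lemma r2_core (P B : List Bool) (a c b : Bool) (v : Word) (E' : List Bool) :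
    (Val o (P ++ a :: c :: B) ((.cr b, P.length) :: (.cr (!b), P.length) :: v) E' ↔
      Val o (P ++ a :: c :: B) v E') ∧
    wr (P ++ a :: c :: B) ((.cr b, P.length) :: (.cr (!b), P.length) :: v) =
      wr (P ++ a :: c :: B) v := by
  simp only [Val, wr_cons, nx_shift0, fit_shift0, sgn_shift0]
  cases a <;> cases c <;> cases b <;> simp [nx, swp, Fit, sgn, Letter.inp]

lemma r3_core (P B : List Bool) (a c e b : Bool) (v : Word) (E' : List Bool) :
    (Val o (P ++ a :: c :: e :: B)
        ((.cr b, P.length) :: (.cr b, P.length + 1) :: (.cr b, P.length) :: v) E' ↔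
      Val o (P ++ a :: c :: e :: B)
        ((.cr b, P.length + 1) :: (.cr b, P.length) :: (.cr b, P.length + 1) :: v) E') ∧
    wr (P ++ a :: c :: e :: B)
        ((.cr b, P.length) :: (.cr b, P.length + 1) :: (.cr b, P.length) :: v) =
      wr (P ++ a :: c :: e :: B)
        ((.cr b, P.length + 1) :: (.cr b, P.length) :: (.cr b, P.length + 1) :: v) := by
  simp only [Val, wr_cons, nx_shift, nx_shift0, fit_shift, fit_shift0, sgn_shift, sgn_shift0]
  cases a <;> cases c <;> cases e <;> cases b <;> simp [nx, swp, Fit, sgn, Letter.inp]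

lemma curlCup_core (P B : List Bool) (d b : Bool) (v : Word) (E' : List Bool) :
    (Val o (P ++ B) ((.cup d, P.length) :: (.cr b, P.length) :: v) E' ↔
      Val o (P ++ B) ((.cup (!d), P.length) :: v) E') ∧
    wr (P ++ B) ((.cup d, P.length) :: (.cr b, P.length) :: v) =
      (if b then -1 else 1) + wr (P ++ B) ((.cup (!d), P.length) :: v) := by
  simp only [Val, wr_cons, nx_shift0, fit_shift0, sgn_shift0]
  cases o <;> cases d <;> cases b <;> simp [nx, ins, swp, Fit, sgn, cp, Letter.inp]

lemma curlCap_core (P B : List Bool) (a c b : Bool) (v : Word) (E' : List Bool) :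
    (Val o (P ++ a :: c :: B) ((.cr b, P.length) :: (.cap, P.length) :: v) E' ↔
      Val o (P ++ a :: c :: B) ((.cap, P.length) :: v) E') ∧
    (Val true (P ++ a :: c :: B) ((.cap, P.length) :: v) E' →
      wr (P ++ a :: c :: B) ((.cr b, P.length) :: (.cap, P.length) :: v) =
      (if b then -1 else 1) + wr (P ++ a :: c :: B) ((.cap, P.length) :: v)) := by
  simp only [Val, wr_cons, nx_shift0, fit_shift0, sgn_shift0]
  cases o <;> cases a <;> cases c <;> cases b <;> simp [nx, del, swp, Fit, sgn, Letter.inp]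

lemma eye_core (P B : List Bool) (d : Bool) (v : Word) (E' : List Bool) :
    (Val o (P ++ B) ((.cup d, P.length) :: (.cap, P.length) :: v) E' ↔ Val o (P ++ B) v E') ∧
    wr (P ++ B) ((.cup d, P.length) :: (.cap, P.length) :: v) = wr (P ++ B) v := by
  simp only [Val, wr_cons, nx_shift0, fit_shift0, sgn_shift0]
  cases o <;> cases d <;> simp [nx, ins, del, Fit, sgn, cp, Letter.inp]

lemma rmove_fwd {x y : Word} (hm : RMove x y) {E E' : List Bool} {v : Word}
    (hT : o = false → AllT E) (h : Val o E (x ++ v) E') :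
    Val o E (y ++ v) E' ∧ (o = true → wr E (x ++ v) = wr E (y ++ v)) := by
  cases hm with
  | comm k l i t =>
    obtain ⟨P, I, R, rfl, rfl, hI⟩ := split_in E i k.inp (val_len h)
    exact ⟨(comm_core k l P I R t hI v E').1.1 h, fun _ => (comm_core (o := o) k l P I R t hI v E').2⟩
  | zig d i =>
    obtain ⟨P, a, B, rfl, rfl⟩ := split1 E i (by simpa [Letter.inp] using val_len h)
    have h1 := zig_core (o := o) P B a d v E' (fun ho => allT_mid (hT ho))
    exact ⟨(h1.1.1 h).2, fun ho => h1.2 ((h1.1.1 h).1 ho)⟩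
  | zag d i =>
    obtain ⟨P, a, B, rfl, rfl⟩ := split1 E i (by
      have := val_len2 h; simp [Letter.inp, Letter.out] at this; omega)
    have h1 := zag_core (o := o) P B a d v E' (fun ho => allT_mid (hT ho))
    exact ⟨(h1.1.1 h).2, fun ho => h1.2 ((h1.1.1 h).1 ho)⟩
  | slideCup d b i =>
    obtain ⟨P, a, B, rfl, rfl⟩ := split1 E i (by simpa [Letter.inp] using val_len h)
    have h1 := slideCup_core (o := o) P B a d b v E'
    exact ⟨h1.1.1 h, fun _ => h1.2⟩
  | slideCap b i =>
    obtain ⟨P, a, c, e, B, rfl, rfl⟩ := split3 E i (by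
      have := val_len2 h; have := val_len h; simp [Letter.inp, Letter.out] at *; omega)
    have h1 := slideCap_core (o := o) P B a c e b v E' (fun ho =>
      ⟨hT ho a (by simp), hT ho c (by simp), hT ho e (by simp)⟩)
    exact ⟨h1.1.1 h, fun ho => h1.2.1 (h1.2.2 h ho)⟩
  | r2 b i =>
    obtain ⟨P, a, c, B, rfl, rfl⟩ := split2 E i (by simpa [Letter.inp] using val_len h)
    have h1 := r2_core (o := o) P B a c b v E'
    exact ⟨h1.1.1 h, fun _ => h1.2⟩
  | r3 b i =>
    obtain ⟨P, a, c, e, B, rfl, rfl⟩ := split3 E i (by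
      have := val_len2 h; have := val_len h; simp [Letter.inp, Letter.out] at *; omega)
    have h1 := r3_core (o := o) P B a c e b v E'
    exact ⟨h1.1.1 h, fun _ => h1.2⟩

/-- Closed valid diagrams. -/
def V (o : Bool) (w : Word) : Prop := Val o [] w []

lemma V_iff {u v : Word} :
    V o (u ++ v) ↔ Val o [] u (rn o [] u) ∧ Val o (rn o [] u) v [] := val_append

lemma allT_ctx (u : Word) (ho : o = false) : AllT (rn o [] u) := by
  subst ho; exact allT_rn (by simp [AllT]) u

lemma V.swap {u x y : Word} (h : V o (u ++ x)) (hy : Val o (rn o [] u) y []) : V o (u ++ y) :=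
  V_iff.2 ⟨(V_iff.1 h).1, hy⟩

lemma V.tail {u x : Word} (h : V o (u ++ x)) : Val o (rn o [] u) x [] := (V_iff.1 h).2

lemma V.move {u x y v : Word} (hm : RMove x y) (h : V o (u ++ (x ++ v))) :
    V o (u ++ (y ++ v)) := h.swap (rmove_fwd hm (allT_ctx u) h.tail).1

lemma comm_back {E E' : List Bool} {v : Word} {k l : Letter} {i t : ℕ}
    (h : Val o E ((l, i + t + k.inp) :: (k, i) :: v) E') :
    Val o E ((k, i) :: (l, i + t + k.out) :: v) E' := by
  obtain ⟨P, I, R, rfl, rfl, hI⟩ := split_in E i k.inp (by have := val_len h; simp at this; omega)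
  exact (comm_core k l P I R t hI v E').1.2 h

lemma slideCup_back {E E' : List Bool} {v : Word} {d b : Bool} {i : ℕ}
    (h : Val o E ((.cup d, i) :: (.cr (!b), i + 1) :: v) E') :
    Val o E ((.cup d, i + 1) :: (.cr b, i) :: v) E' := by
  obtain ⟨P, a, B, rfl, rfl⟩ := split1 E i (by
    have := val_len2 h; simp [Letter.inp, Letter.out] at this; omega)
  exact (slideCup_core P B a d b v E').1.2 h

lemma slideCap_back {E E' : List Bool} {v : Word} {b : Bool} {i : ℕ} (hT : o = false → AllT E)
    (h : Val o E ((.cr (!b), i + 1) :: (.cap, i) :: v) E') :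
    Val o E ((.cr b, i) :: (.cap, i + 1) :: v) E' := by
  obtain ⟨P, a, c, e, B, rfl, rfl⟩ := split3 E i (by simpa [Letter.inp] using val_len h)
  exact (slideCap_core P B a c e b v E' (fun ho =>
    ⟨hT ho a (by simp), hT ho c (by simp), hT ho e (by simp)⟩)).1.2 h

end Pool.Agent.Lib.MP_3a4f2f_gt
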